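import Pool.Agent.N659.HB.Stm7

/-!
Statements of the parts of the project SD: the uniform Anderson model at strong disorder; an
arbitrarily small change of the kinetic energy gives purely absolutely continuous spectrum.
-/

namespace Pool.Agent.N659.HB

open MeasureTheory Filter Pool.Agent.W792.LL Pool.Agent.W792.WA
open scoped Topology ENNReal

noncomputable section

/-! ## A. The resolvent -/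

/-- The potential, cut off at `± w`. -/
def vcl {d : ℕ} (w : ℝ) (v : (Fin d → ℤ) → ℝ) : l2 (Fin d → ℤ) →L[ℂ] l2 (Fin d → ℤ) :=
  dia fun x => ((max (-w) (min w (v x)) : ℝ) : ℂ)

/-- The resolvent `(V + X)⁻¹`. -/
def gr {d : ℕ} (w : ℝ) (X : C(UnitAddTorus (Fin d), ℂ)) (v : (Fin d → ℤ) → ℝ) :
    l2 (Fin d → ℤ) →L[ℂ] l2 (Fin d → ℤ) := Ring.inverse (vcl w v + opr X)

/-- The symbol `γ lap - ζ`. -/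
def xs (d : ℕ) (γ : ℝ) (ζ : ℂ) : C(UnitAddTorus (Fin d), ℂ) where
  toFun k := ((γ * lap d k : ℝ) : ℂ) - ζ
  continuous_toFun := by fun_prop

/-- Matrix elements of `(V + γ lap - ζ)⁻¹`. -/
def ge {d : ℕ} (w γ : ℝ) (ζ : ℂ) (v : (Fin d → ℤ) → ℝ) (x y : Fin d → ℤ) : ℂ :=
  gr w (xs d γ ζ) v (dl y) x

/-- Basic facts. -/
def S_GR : Prop :=
  ∀ (d : ℕ) (w c : ℝ) (X : C(UnitAddTorus (Fin d), ℂ)), 0 ≤ w → 0 < c → (∀ k, (X k).im ≤ -c) →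
    (∀ v, (vcl w v + opr X) * gr w X v = 1 ∧ gr w X v * (vcl w v + opr X) = 1 ∧
      ‖gr w X v‖ ≤ 1 / c) ∧
    ∀ (u : l2 (Fin d → ℤ)) (x : Fin d → ℤ), Measurable fun v => gr w X v u x

/-- The averaged resolvent and the effective phase. -/
def S_NRES : Prop :=
  ∀ (ν : Measure ℝ) [IsProbabilityMeasure ν] (d : ℕ) (w c : ℝ) (X : C(UnitAddTorus (Fin d), ℂ)),
    0 ≤ w → 0 < c → (∀ k, (X k).im ≤ -c) → (∀ᵐ x ∂ν, |x| ≤ w) →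
    ∃ N : C(UnitAddTorus (Fin d), ℂ),
      (∀ (u : l2 (Fin d → ℤ)) (x : Fin d → ℤ),
        ∫ v, gr w X v u x ∂(Pn ν (Fin d → ℤ)) = opr N u x) ∧
      ∀ k, N k ≠ 0 ∧ psi ν (toC fun k => cayx (X k) 0) k = cayx (1 / N k - X k) 0

/-- `G_xx(v) = 1 / (v_x - Zx)`, `Zx` independent of `v_x`. -/
def Zx {d : ℕ} (w γ : ℝ) (ζ : ℂ) (x : Fin d → ℤ) (v : (Fin d → ℤ) → ℝ) : ℂ :=
  (w : ℂ) - 1 / ge w γ ζ (Function.update v x w) x x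

/-- `G_xa / G_xx`, independent of `v_x`. -/
def Qx {d : ℕ} (w γ : ℝ) (ζ : ℂ) (x a : Fin d → ℤ) (v : (Fin d → ℤ) → ℝ) : ℂ :=
  ge w γ ζ (Function.update v x w) x a / ge w γ ζ (Function.update v x w) x x

/-- Dependence on one site. -/
def S_RK : Prop :=
  ∀ (d : ℕ) (w γ : ℝ) (ζ : ℂ), 0 < w → 0 ≤ γ → 0 < ζ.im →
    (∀ x, Measurable fun v => Zx (d := d) w γ ζ x v) ∧
    (∀ x a, Measurable fun v => Qx (d := d) w γ ζ x a v) ∧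
    (∃ C : ℝ, ∀ x a v, ‖Qx (d := d) w γ ζ x a v‖ ≤ C) ∧
    (∀ v x y, ge (d := d) w γ ζ v x y = ge w γ ζ v y x ∧ ‖ge w γ ζ v x y‖ ≤ 1 / ζ.im) ∧
    ∀ (x : Fin d → ℤ) (v : (Fin d → ℤ) → ℝ),
      Qx w γ ζ x x v = 1 ∧ Summable (fun a => ‖Qx w γ ζ x a v‖ ^ 2) ∧
      (Zx w γ ζ x v).im = ζ.im * ∑' a, ‖Qx w γ ζ x a v‖ ^ 2 ∧
      (∀ t : ℝ, Zx w γ ζ x (Function.update v x t) = Zx w γ ζ x v ∧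
        ∀ a, Qx w γ ζ x a (Function.update v x t) = Qx w γ ζ x a v) ∧
      (∀ (t : ℝ) (a : Fin d → ℤ), |t| ≤ w →
        ge w γ ζ (Function.update v x t) x a = Qx w γ ζ x a v / ((t : ℂ) - Zx w γ ζ x v)) ∧
      (∀ (t : ℝ) (a b : Fin d → ℤ), |t| ≤ w → ge w γ ζ (Function.update v x t) a b
        = ge w γ ζ (Function.update v x w) a b
          - ((t - w : ℝ) : ℂ) * ge w γ ζ (Function.update v x w) a x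
            * ge w γ ζ (Function.update v x t) x b) ∧
      ∀ a : Fin d → ℤ, ge w γ ζ v x a * (((max (-w) (min w (v a)) : ℝ) : ℂ) + 2 * d * γ - ζ)
          - γ * ∑ i : Fin d, (ge w γ ζ v x (a + Pi.single i 1) + ge w γ ζ v x (a - Pi.single i 1))
          = if x = a then 1 else 0

/-- Resampling of one site. -/
def S_RS : Prop :=
  ∀ (ν : Measure ℝ) [IsProbabilityMeasure ν] (d : ℕ) (x : Fin d → ℤ),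
    MeasurePreserving (fun p : ((Fin d → ℤ) → ℝ) × ℝ => Function.update p.1 x p.2)
      ((Pn ν (Fin d → ℤ)).prod ν) (Pn ν (Fin d → ℤ))

/-! ## B. One site -/

/-- The transform of the uniform law. -/
def hu (w : ℝ) (ζ : ℂ) : ℂ := ∫ t, 1 / ((t : ℂ) - ζ) ∂(unif w)

/-- Integrals over one site. -/
def S_U1 : Prop :=
  ∀ w : ℝ, 0 < w → IsProbabilityMeasure (unif w) ∧ ∃ C : ℝ, 1 ≤ C ∧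
    (∀ ζ : ℂ, 0 < ζ.im → ∫ t, 1 / ‖(t : ℂ) - ζ‖ ^ 2 ∂(unif w) ≤ Real.pi / (2 * w * ζ.im)) ∧
    (∀ (ζ : ℂ) (y : ℝ), 0 < y → y ≤ 2 → y ≤ ζ.im →
      ∫ t, 1 / ‖(t : ℂ) - ζ‖ ∂(unif w) ≤ C * y ^ (-(1 / 16) : ℝ)) ∧
    (∀ ζ : ℂ, 0 < ζ.im → ∫ t, 1 / ((t : ℂ) - ζ) ^ 2 ∂(unif w) = -1 / ((w - ζ) * (w + ζ))) ∧
    (∀ ζ : ℂ, 0 < ζ.im → ∫ t, (1 / ‖(t : ℂ) - ζ‖) ^ (1 / 2 : ℝ) ∂(unif w) ≤ C) ∧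
    (∀ (ζ ζ' : ℂ) (y : ℝ), 0 < y → y ≤ ζ.im → y ≤ ζ'.im →
      ‖hu w ζ - hu w ζ'‖ ≤ C / y * ‖ζ - ζ'‖) ∧
    ∀ κ α β c : ℂ, (∀ t : ℝ, |t| ≤ w → α * t + β ≠ 0) →
      ∫ t, ‖c / (α * (t : ℂ) + β)‖ ^ (1 / 2 : ℝ) ∂(unif w)
        ≤ C * ∫ t, ‖(t : ℂ) - κ‖ ^ (1 / 2 : ℝ) * ‖c / (α * (t : ℂ) + β)‖ ^ (1 / 2 : ℝ) ∂(unif w)

/-- The transform of the uniform law inside the support. -/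
def S_HU : Prop :=
  ∀ w θ : ℝ, 0 < w → 0 ≤ θ → θ < 1 → ∃ C c : ℝ, 1 ≤ C ∧ 0 < c ∧
    (∀ ζ : ℂ, |ζ.re| ≤ θ * w → 0 < ζ.im → ζ.im ≤ 2 →
      ‖hu w ζ‖ ≤ C ∧ c ≤ (hu w ζ).im ∧ (1 / hu w ζ + ζ).im ≤ -c) ∧
    ∀ ζ ζ' : ℂ, |ζ.re| ≤ θ * w → 0 < ζ.im → ζ.im ≤ 2 → |ζ'.re| ≤ θ * w → 0 < ζ'.im → ζ'.im ≤ 2 →
      ‖hu w ζ - hu w ζ'‖ ≤ C * ‖ζ - ζ'‖

/-! ## C. Fractional moments -/

/-- Distance. -/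
def nd {d : ℕ} (x a : Fin d → ℤ) : ℕ := ∑ i, (x i - a i).natAbs

/-- Decay of the fractional moments. -/
def S_FM : Prop :=
  ∀ (d : ℕ) (w θ : ℝ) [IsProbabilityMeasure (unif w)], 0 < w → 0 ≤ θ → θ < 1 →
    ∃ C γ₀ : ℝ, 1 ≤ C ∧ 0 < γ₀ ∧ ∀ γ : ℝ, 0 < γ → γ ≤ γ₀ → ∀ ζ : ℂ, |ζ.re| ≤ θ * w →
      0 < ζ.im → ζ.im ≤ 2 → ∀ x a b : Fin d → ℤ,
      ∫ v, ‖Qx w γ ζ x a (Function.update v b w)‖ ^ (1 / 2 : ℝ) ∂(Pn (unif w) (Fin d → ℤ))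
        ≤ (C * γ ^ (1 / 2 : ℝ)) ^ nd x a ∧
      ∫ v, ‖ge w γ ζ (Function.update v x w) x a‖ ^ (1 / 2 : ℝ) ∂(Pn (unif w) (Fin d → ℤ))
        ≤ C * (C * γ ^ (1 / 2 : ℝ)) ^ nd x a ∧
      ∫ v, ‖ge w γ ζ (Function.update v x (-w)) x a‖ ^ (1 / 2 : ℝ) ∂(Pn (unif w) (Fin d → ℤ))
        ≤ C * (C * γ ^ (1 / 2 : ℝ)) ^ nd x a

/-- Geometric sums on the lattice. -/
def S_GS : Prop :=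
  ∀ d : ℕ, ∃ C : ℝ, 1 ≤ C ∧ ∀ r : ℝ, 0 ≤ r → r ≤ 1 / 2 → ∀ a : Fin d → ℤ,
    (Summable fun x : Fin d → ℤ => r ^ nd x a) ∧ ∑' x : Fin d → ℤ, r ^ nd x a ≤ C ∧
    ∑' x : Fin d → ℤ, (if x = a then 0 else r ^ nd x a) ≤ C * r

/-! ## D. Kernel bounds -/

/-- Second moments. -/
def S_KB1 : Prop :=
  ∀ (d : ℕ) (w θ : ℝ) [IsProbabilityMeasure (unif w)], 0 < w → 0 ≤ θ → θ < 1 →
    ∃ C γ₀ : ℝ, 1 ≤ C ∧ 0 < γ₀ ∧ ∀ γ : ℝ, 0 < γ → γ ≤ γ₀ → ∀ ζ : ℂ, |ζ.re| ≤ θ * w →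
      0 < ζ.im → ζ.im ≤ 2 → ∀ a : Fin d → ℤ,
      ∑' b : Fin d → ℤ, ∑' x : Fin d → ℤ, ∫⁻ v, ENNReal.ofReal (‖ge w γ ζ v x a‖ * ‖ge w γ ζ v x b‖)
        ∂(Pn (unif w) (Fin d → ℤ)) ≤ ENNReal.ofReal (C / ζ.im) ∧
      ∑' b : Fin d → ℤ, ∑' x : Fin d → ℤ, (if x = a ∨ x = b then 0 else
        ∫⁻ v, ENNReal.ofReal (‖ge w γ ζ v x a‖ * ‖ge w γ ζ v x b‖) ∂(Pn (unif w) (Fin d → ℤ)))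
        ≤ ENNReal.ofReal (C * γ ^ (1 / 2 : ℝ) / ζ.im) ∧
      ∑' x : Fin d → ℤ, (if x = a then 0 else
        ∫⁻ v, ENNReal.ofReal (‖ge w γ ζ v x a‖ ^ 2) ∂(Pn (unif w) (Fin d → ℤ)))
        ≤ ENNReal.ofReal (C * γ ^ (1 / 2 : ℝ) / ζ.im)

/-- Products without complex conjugation. -/
def S_KB2 : Prop :=
  ∀ (d : ℕ) (w θ : ℝ) [IsProbabilityMeasure (unif w)], 0 < w → 0 ≤ θ → θ < 1 →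
    ∃ C γ₀ : ℝ, 1 ≤ C ∧ 0 < γ₀ ∧ ∀ γ : ℝ, 0 < γ → γ ≤ γ₀ → ∀ ζ : ℂ, |ζ.re| ≤ θ * w →
      0 < ζ.im → ζ.im ≤ 2 → ∀ a : Fin d → ℤ,
      ∑' b : Fin d → ℤ, ∑' x : Fin d → ℤ, ENNReal.ofReal
        ‖∫ v, ge w γ ζ v a x * ge w γ ζ v x b ∂(Pn (unif w) (Fin d → ℤ))‖
        ≤ ENNReal.ofReal (C * ζ.im ^ (-(3 / 4) : ℝ))

/-- Covariances of the diagonal elements. -/
def S_KB3 : Prop :=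
  ∀ (d : ℕ) (w θ : ℝ) [IsProbabilityMeasure (unif w)], 0 < w → 0 ≤ θ → θ < 1 →
    ∃ C γ₀ : ℝ, 1 ≤ C ∧ 0 < γ₀ ∧ ∀ γ : ℝ, 0 < γ → γ ≤ γ₀ → ∀ ζ : ℂ, |ζ.re| ≤ θ * w →
      0 < ζ.im → ζ.im ≤ 2 → ∀ a : Fin d → ℤ,
      ∑' b : Fin d → ℤ, (if b = a then 0 else ENNReal.ofReal
        ‖(∫ v, ge w γ ζ v a a * ge w γ ζ v b b ∂(Pn (unif w) (Fin d → ℤ)))
          - ∫ v, hu w (Zx w γ ζ a v) * hu w (Zx w γ ζ b v) ∂(Pn (unif w) (Fin d → ℤ))‖)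
        ≤ ENNReal.ofReal (C * (γ ^ (1 / 2 : ℝ) / ζ.im + ζ.im ^ (-(15 / 16) : ℝ)))

/-! ## E. Operators -/

/-- The diagonal part of the resolvent. -/
def dg {d : ℕ} (w γ : ℝ) (ζ : ℂ) (v : (Fin d → ℤ) → ℝ) : l2 (Fin d → ℤ) →L[ℂ] l2 (Fin d → ℤ) :=
  dia fun x => ge w γ ζ v x x

/-- Second moments of vectors. -/
def S_OW : Prop :=
  ∀ (d : ℕ) (w θ : ℝ) [IsProbabilityMeasure (unif w)], 0 < w → 0 ≤ θ → θ < 1 →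
    ∃ C γ₀ : ℝ, 1 ≤ C ∧ 0 < γ₀ ∧ ∀ γ : ℝ, 0 < γ → γ ≤ γ₀ → ∀ ζ : ℂ, |ζ.re| ≤ θ * w →
      0 < ζ.im → ζ.im ≤ 2 → ∀ u : l2 (Fin d → ℤ),
      ∫ v, ‖gr w (xs d γ ζ) v u‖ ^ 2 ∂(Pn (unif w) (Fin d → ℤ)) ≤ C / ζ.im * ‖u‖ ^ 2 ∧
      ∫ v, ‖ContinuousLinearMap.adjoint (gr w (xs d γ ζ) v) u‖ ^ 2 ∂(Pn (unif w) (Fin d → ℤ))
        ≤ C / ζ.im * ‖u‖ ^ 2 ∧
      ∫ v, ‖(gr w (xs d γ ζ) v - dg w γ ζ v) u‖ ^ 2 ∂(Pn (unif w) (Fin d → ℤ))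
        ≤ C * γ ^ (1 / 2 : ℝ) / ζ.im * ‖u‖ ^ 2 ∧
      ∫ v, ‖ContinuousLinearMap.adjoint (gr w (xs d γ ζ) v - dg w γ ζ v) u‖ ^ 2
        ∂(Pn (unif w) (Fin d → ℤ)) ≤ C * γ ^ (1 / 2 : ℝ) / ζ.im * ‖u‖ ^ 2

/-- The mean of the square. -/
def S_OG : Prop :=
  ∀ (d : ℕ) (w θ : ℝ) [IsProbabilityMeasure (unif w)], 0 < w → 0 ≤ θ → θ < 1 →
    ∃ C γ₀ : ℝ, 1 ≤ C ∧ 0 < γ₀ ∧ ∀ γ : ℝ, 0 < γ → γ ≤ γ₀ → ∀ ζ : ℂ, |ζ.re| ≤ θ * w →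
      0 < ζ.im → ζ.im ≤ 2 → ∀ u u' : l2 (Fin d → ℤ),
      ‖∫ v, inner ℂ u' (gr w (xs d γ ζ) v (gr w (xs d γ ζ) v u)) ∂(Pn (unif w) (Fin d → ℤ))‖
        ≤ C * ζ.im ^ (-(3 / 4) : ℝ) * (‖u'‖ * ‖u‖)

/-- Diagonal parts around a symbol. -/
def S_OD : Prop :=
  ∀ (d : ℕ) (w θ : ℝ) [IsProbabilityMeasure (unif w)], 0 < w → 0 ≤ θ → θ < 1 →
    ∃ C γ₀ : ℝ, 1 ≤ C ∧ 0 < γ₀ ∧ ∀ γ : ℝ, 0 < γ → γ ≤ γ₀ → ∀ ζ : ℂ, |ζ.re| ≤ θ * w →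
      0 < ζ.im → ζ.im ≤ 2 → ∀ (Y : C(UnitAddTorus (Fin d), ℂ)) (u u' : l2 (Fin d → ℤ)),
      ‖∫ v, inner ℂ u' (dg w γ ζ v (opr Y (dg w γ ζ v u))) ∂(Pn (unif w) (Fin d → ℤ))‖
        ≤ C * (γ ^ (1 / 2 : ℝ) / ζ.im + ζ.im ^ (-(15 / 16) : ℝ)) * ‖Y‖ * (‖u'‖ * ‖u‖)

/-- The averaged resolvent is close to the transform of the law. -/
def S_N1 : Prop :=
  ∀ (d : ℕ) (w θ : ℝ) [IsProbabilityMeasure (unif w)], 0 < w → 0 ≤ θ → θ < 1 →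
    ∃ C γ₀ : ℝ, 1 ≤ C ∧ 0 < γ₀ ∧ ∀ γ : ℝ, 0 < γ → γ ≤ γ₀ → ∀ ζ : ℂ, |ζ.re| ≤ θ * w →
      0 < ζ.im → ζ.im ≤ 2 → ∀ N : C(UnitAddTorus (Fin d), ℂ),
      (∀ (u : l2 (Fin d → ℤ)) (x : Fin d → ℤ),
        ∫ v, gr w (xs d γ ζ) v u x ∂(Pn (unif w) (Fin d → ℤ)) = opr N u x) →
      ∀ k, ‖N k - hu w ζ‖ ≤ C * γ ^ (1 / 12 : ℝ)

/-- Perturbation by a symbol which is small compared with the absorption. -/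
def S_PT : Prop :=
  ∀ (d : ℕ) (w θ : ℝ) [IsProbabilityMeasure (unif w)], 0 < w → 0 ≤ θ → θ < 1 →
    ∃ C γ₀ : ℝ, 1 ≤ C ∧ 0 < γ₀ ∧ ∀ γ : ℝ, 0 < γ → γ ≤ γ₀ → ∀ ζ : ℂ, |ζ.re| ≤ θ * w →
      0 < ζ.im → ζ.im ≤ 2 → ∀ Y N N' : C(UnitAddTorus (Fin d), ℂ), ‖Y‖ ≤ ζ.im / 2 →
      (∀ (u : l2 (Fin d → ℤ)) (x : Fin d → ℤ),
        ∫ v, gr w (xs d γ ζ) v u x ∂(Pn (unif w) (Fin d → ℤ)) = opr N u x) →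
      (∀ (u : l2 (Fin d → ℤ)) (x : Fin d → ℤ),
        ∫ v, gr w (xs d γ ζ + Y) v u x ∂(Pn (unif w) (Fin d → ℤ)) = opr N' u x) →
      ∀ k, ‖N' k - N k‖ ≤ C * (γ ^ (1 / 4 : ℝ) / ζ.im + ζ.im ^ (-(15 / 16) : ℝ)) * ‖Y‖
        + C * (‖Y‖ / ζ.im) ^ 2

/-! ## F. The gap -/

/-- The level transform far from the support. -/
def S_LQ : Prop :=
  ∀ (ψ : C(UnitAddCircle, ℝ)), IsSemi ψ → ∀ C₁ c₁ : ℝ, 0 < C₁ → 0 < c₁ →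
    ∃ C₂ c₂ r₀ : ℝ, 0 < C₂ ∧ 0 < c₂ ∧ 0 < r₀ ∧ ∀ (r : ℝ) (ρ' : Measure ℝ) [IsProbabilityMeasure ρ'],
      0 < r → r ≤ r₀ → ρ' (Set.Icc (-(r / 8)) (r / 8))ᶜ = 0 →
      ∀ t : ℂ, t.im ≤ -c₁ → ‖t‖ ≤ C₁ →
        bet ((lev ψ r).conv ρ') t ≠ 0 ∧ ‖1 / bet ((lev ψ r).conv ρ') t - t‖ ≤ C₂ * r ∧
        (1 / bet ((lev ψ r).conv ρ') t - t).im ≤ -(c₂ * r ^ 2) ∧
        ∀ t' : ℂ, t'.im ≤ -c₁ → ‖t'‖ ≤ C₁ →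
          ‖(1 / bet ((lev ψ r).conv ρ') t - t) - (1 / bet ((lev ψ r).conv ρ') t' - t')‖
            ≤ C₂ * r ^ 2 * ‖t - t'‖

/-- Phases of self-energies close to `S₀`. -/
def ZB (d : ℕ) (S₀ : ℂ) (δ : ℝ) : Set C(UnitAddTorus (Fin d), ℂ) :=
  {s | ∀ k, ‖Complex.I * (s k + 1) - S₀ * (s k - 1)‖ ≤ δ * ‖s k - 1‖}

/-- Properties of this set. -/
def S_BL : Prop :=
  ∀ (d : ℕ) (S₀ : ℂ) (δ η : ℝ), 0 < η → S₀.im ≤ -η → 0 < δ → δ ≤ η / 2 →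
    IsClosed (ZB d S₀ δ) ∧ (ZB d S₀ δ).Nonempty ∧
    (∀ s ∈ ZB d S₀ δ, ‖s‖ ≤ 1 - η / (‖S₀‖ + δ + 1) ^ 2 ∧
      ∃ S : C(UnitAddTorus (Fin d), ℂ), ∀ k, s k = cayx (S k) 0 ∧ ‖S k - S₀‖ ≤ δ ∧
        (S k).im ≤ -(η / 2)) ∧
    ∀ s : C(UnitAddTorus (Fin d), ℂ), (∀ k, ∃ S : ℂ, s k = cayx S 0 ∧ ‖S - S₀‖ ≤ δ) → s ∈ ZB d S₀ δ

/-- The gap at strong disorder, in scaled form. -/
def S_SDG : Prop :=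
  ∀ (ψ : C(UnitAddCircle, ℝ)), IsSemi ψ → ∀ (d : ℕ) (w θ κ : ℝ) [IsProbabilityMeasure (unif w)],
    0 < d → 0 < w → 0 ≤ θ → θ < 1 → ∃ γ₀ r₀ : ℝ, 0 < γ₀ ∧ 0 < r₀ ∧
    ∀ γ r : ℝ, 0 < γ → γ ≤ γ₀ → 0 < r → r ≤ r₀ → ∃ σ : ℝ, 0 < σ ∧
      ∀ (ρ' : Measure ℝ) [IsProbabilityMeasure ρ'], ρ' (Set.Icc (-(r / 8)) (r / 8))ᶜ = 0 →
      ∀ (K : C(UnitAddTorus (Fin d), ℝ)), (∀ k, K k = κ + γ * lap d k) →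
      ∀ z : ℂ, |z.re - κ| ≤ θ * w → 0 < z.im → z.im ≤ 1 →
      ∀ s, IsFix (unif w) ((lev ψ r).conv ρ') (wz K z) s → ‖s‖ ≤ 1 - σ

/-- The theorem at strong disorder: the uniform law, an arbitrarily small change of the kinetic
energy. -/
def S_SD : Prop :=
  ∀ (d : ℕ) (θ : ℝ), 0 < d → 0 < θ → θ < 1 → ∃ c₀ : ℝ, 0 < c₀ ∧ ∀ (c ε : ℝ)
    [IsProbabilityMeasure (unif c)], c₀ ≤ c → 0 < ε → ∃ f : C(ℝ, ℝ), (∀ t, |f t| ≤ ε) ∧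
      (∀ x : Fin d → ℤ,
        ‖UnitAddTorus.mFourierCoeff (fun k : UnitAddTorus (Fin d) => ((f (lap d k) : ℝ) : ℂ)) x‖
          ≤ ε / (1 + ‖x‖) ^ ((d : ℝ) / 3)) ∧
      ∀ᵐ v ∂(Pn (unif c) (Fin d → ℤ)), ACIK (lap d + gK f d) 1 v (-(θ * c)) (θ * c)

end

end Pool.Agent.N659.HB
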