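import Pool.Agent.N659.HB.Stm6

/-!
Statements of the last parts of the project LD.
-/

namespace Pool.Agent.N659.HB

open MeasureTheory Filter Pool.Agent.W792.LL Pool.Agent.W792.WA
open scoped Topology ENNReal

noncomputable section

/-- The theorem for all laws close to a law with contracting effective phase (after scaling). -/
def S_LDC : Prop :=
  ∀ (d : ℕ) (a b ε q : ℝ) (X : MX), 0 < d → a < b → 0 < ε → 0 ≤ q → q < 1 →
    (∀ (d' : ℕ) (m : C(UnitAddTorus (Fin d'), ℂ)), ‖m‖ < 1 → ‖psi (qlaw X) m‖ ≤ q) →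
    ∃ τ : ℝ, 0 < τ ∧ ∀ (X' : MX) (ν : Measure ℝ) [IsProbabilityMeasure ν], cd X X' ≤ τ ^ 2 →
      (∀ x : ℝ, ν {x} < 1) → (ν.map fun x => 4 * d / (b - a) * x) = qlaw X' →
      ∃ f : C(ℝ, ℝ), (∀ t, |f t| ≤ ε) ∧
        (∀ x : Fin d → ℤ,
          ‖UnitAddTorus.mFourierCoeff (fun k : UnitAddTorus (Fin d) => ((f (lap d k) : ℝ) : ℂ)) x‖
            ≤ ε / (1 + ‖x‖) ^ ((d : ℝ) / 3)) ∧
        ∀ᵐ v ∂(Pn ν (Fin d → ℤ)), ACIK (lap d + gK f d) 1 v a b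

/-- A small Cauchy component changes an absolutely continuous law little in total variation. -/
def S_TVA : Prop :=
  ∀ (μ : Measure ℝ) [IsProbabilityMeasure μ] (ε : ℝ), μ ≪ volume → 0 < ε →
    ∃ δ₀ : ℝ, 0 < δ₀ ∧ ∀ δ : ℝ, 0 < δ → δ ≤ δ₀ → ∀ A : Set ℝ, MeasurableSet A →
      |(cyl μ δ A).toReal - (μ A).toReal| ≤ ε

/-- The final theorem of the project LD: every bounded law is close to a law with compact support
and bounded density for which an arbitrarily small change of the kinetic energy gives purely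
absolutely continuous spectrum. -/
def S_LDF : Prop :=
  ∀ (μ : Measure ℝ) [IsProbabilityMeasure μ] (W : ℝ), 0 ≤ W → μ (Set.Icc (-W) W)ᶜ = 0 →
    ∀ (d : ℕ) (a b ε : ℝ), 0 < d → a < b → 0 < ε →
    ∃ (ν : Measure ℝ) (_ : IsProbabilityMeasure ν) (π : Measure (ℝ × ℝ)),
      π.map Prod.fst = μ ∧ π.map Prod.snd = ν ∧
      π {p | ε < |p.1 - p.2|} ≤ ENNReal.ofReal ε ∧
      (∃ R B : ℝ, 0 < R ∧ 0 < B ∧ ν (Set.Icc (-R) R)ᶜ = 0 ∧
        ∀ A : Set ℝ, MeasurableSet A → ν A ≤ ENNReal.ofReal B * volume A) ∧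
      (μ ≪ volume → ∀ A : Set ℝ, MeasurableSet A → |(ν A).toReal - (μ A).toReal| ≤ ε) ∧
      ∃ f : C(ℝ, ℝ), (∀ t, |f t| ≤ ε) ∧
        (∀ x : Fin d → ℤ,
          ‖UnitAddTorus.mFourierCoeff (fun k : UnitAddTorus (Fin d) => ((f (lap d k) : ℝ) : ℂ)) x‖
            ≤ ε / (1 + ‖x‖) ^ ((d : ℝ) / 3)) ∧
        ∀ᵐ v ∂(Pn ν (Fin d → ℤ)), ACIK (lap d + gK f d) 1 v a b

end

end Pool.Agent.N659.HB
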