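import Pool.Agent.N659.HB.Stm3
import Mathlib.Probability.Distributions.Gaussian.Real

/-!
Statements of the parts of the project KG: Gaussian disorder, adjacency operator.
-/

namespace Pool.Agent.N659.HB

open MeasureTheory Filter Pool.Agent.W792.LL Pool.Agent.W792.WA ProbabilityTheory
open scoped Topology ENNReal

noncomputable section

/-- Upper bound for `|X| + 1`. -/
def EX (α r b s₂ c₀ D₀ : ℝ) : ℝ :=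
  (D₀ + 1 + 3 * α * b + 2 * r) ^ 2 / (etaG α s₂ c₀ / 2) + 3 * α * b + 1

/-- The error made by changing the law. -/
def epsL (α r b s₂ c₀ D₀ τ : ℝ) : ℝ := τ * EX α r b s₂ c₀ D₀ ^ 6 / (cG α r b s₂ c₀ D₀ / 8) ^ 3

/-- The numerical conditions for two laws. -/
structure NH (n : ℕ) (α r b κ s₂ c₀ Λ D₀ τ : ℝ) : Prop where
  hn : 1 ≤ n
  hα : 0 < α
  hr : 0 < r
  hb : 0 < b
  hκ : 0 < κ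
  hs : 0 < s₂
  hs1 : s₂ ≤ 1
  hc : 0 < c₀
  hΛ : 0 ≤ Λ
  hD : 0 ≤ D₀
  hτ : 0 ≤ τ
  κ2 : κ ^ 2 = b * (4 * α / r)
  e1 : 4 * Λ ≤ b * (4 * α / r)
  e2 : 48 * α * b ≤ r
  e2' : b ≤ 4 * α / r
  e2'' : 8 * (α * b) ≤ 1
  e3 : 64 * κ ≤ 1
  e4 : 16 * n * κ ≤ 1
  e5 : 50 * b * κ ≤ s₂ * c₀ / 720
  e6 : 6 * b * Λ ≤ c₀ / 720
  e7 : c₀ ≤ b
  e8 : α / (cG α r b s₂ c₀ D₀ / 8) * (2 * ((4 * n * κ) ^ n) ^ 2) ≤ b * κ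
  e9 : 100 * epsL α r b s₂ c₀ D₀ τ ≤ etaG α s₂ c₀
  e10 : 8 * epsL α r b s₂ c₀ D₀ τ ≤ α * b

/-- The gap for a law close to a bounded law with mean zero. -/
def S_GAPH : Prop :=
  ∀ (ψ : C(UnitAddCircle, ℝ)), IsSemi ψ → ∀ (X X' : MX) (d n : ℕ)
    (K : C(UnitAddTorus (Fin d), ℝ)) (α r b κ s₂ c₀ Λ D₀ τ : ℝ), NH n α r b κ s₂ c₀ Λ D₀ τ →
    cd X X' ≤ τ ^ 2 → 0 < vr (qlaw X) →
    (∀ᵐ x ∂(qlaw X'), |x| ≤ α) → ∫ x, x ∂(qlaw X') = 0 → ∫ x, (x / α) ^ 2 ∂(qlaw X') = s₂ →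
    (∀ E : ℝ, 0 ≤ E → E ≤ 4 * d → (∀ k, |K k - E| ≤ D₀) ∧
      α * (∫ k : UnitAddTorus (Fin d), wl r (K k - E)) ≤ b / 2 ∧
      α ^ 2 * (∫ k : UnitAddTorus (Fin d), wl r (K k - E) ^ 2) ≤ Λ ∧
      ∀ ρ : ℝ, r / 4 ≤ ρ → (ρ ≤ 1 ∨ ρ = r / 4) → c₀ * ρ ≤ α * dosK K E ρ) →
    ∃ σ : ℝ, 0 < σ ∧ ∀ (ρ' : Measure ℝ) [IsProbabilityMeasure ρ'],
      ρ' (Set.Icc (-(r / 8)) (r / 8))ᶜ = 0 →
      ∀ z ∈ Zs d, ∀ s, IsFix (qlaw X) ((lev ψ r).conv ρ') (wz K z) s → ‖s‖ ≤ 1 - σ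

/-- Truncation of a Gaussian law. -/
def S_TRG : Prop :=
  ∀ s L : ℝ, 0 < s → 3 ≤ L → ∃ X X' : MX, qlaw X = gaussianReal 0 ⟨s ^ 2, sq_nonneg s⟩ ∧
    0 < vr (qlaw X) ∧ cd X X' ≤ Real.exp (-(L ^ 2) / 8) ^ 2 ∧ (∀ᵐ x ∂(qlaw X'), |x| ≤ s * L) ∧
    ∫ x, x ∂(qlaw X') = 0 ∧ 1 / (2 * L ^ 2) ≤ ∫ x, (x / (s * L)) ^ 2 ∂(qlaw X') ∧
    ∫ x, (x / (s * L)) ^ 2 ∂(qlaw X') ≤ 1 / L ^ 2

/-- Choice of the numbers, Gaussian disorder: `α = γ σ L`, `L = |log σ|`, `l = σ² L¹⁰ / 2`. -/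
def S_ASYG : Prop :=
  ∀ γ C c D₀ : ℝ, 0 < γ → 0 < C → 0 < c → 0 ≤ D₀ →
    ∃ sg₀ : ℝ, 0 < sg₀ ∧ sg₀ < 1 ∧ ∀ sg : ℝ, 0 < sg → sg ≤ sg₀ →
      3 ≤ Real.log (1 / sg) ∧ sg ^ 2 * Real.log (1 / sg) ^ 10 / 2 ≤ 1 / 2 ∧ ∀ s₂ : ℝ,
      1 / (2 * Real.log (1 / sg) ^ 2) ≤ s₂ → s₂ ≤ 1 / Real.log (1 / sg) ^ 2 → ∃ n : ℕ,
      NH n (γ * sg * Real.log (1 / sg)) (γ * (sg ^ 2 * Real.log (1 / sg) ^ 10 / 2))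
        (2 * Real.log (1 / sg) * sg * C * Real.log (1 / (sg ^ 2 * Real.log (1 / sg) ^ 10 / 2)))
        (Real.sqrt (2 * Real.log (1 / sg) * sg * C
          * Real.log (1 / (sg ^ 2 * Real.log (1 / sg) ^ 10 / 2))
          * (4 * (γ * sg * Real.log (1 / sg)) / (γ * (sg ^ 2 * Real.log (1 / sg) ^ 10 / 2)))))
        s₂ (Real.log (1 / sg) * sg * c)
        ((Real.log (1 / sg) * sg) ^ 2 * (C / (sg ^ 2 * Real.log (1 / sg) ^ 10 / 2))) D₀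
        (Real.exp (-(Real.log (1 / sg) ^ 2) / 8))

/-- The symbol of the adjacency operator. -/
def adjm (d : ℕ) : C(UnitAddTorus (Fin d), ℝ) := ContinuousMap.const _ (2 * (d : ℝ)) - lap d

/-- The theorem for Gaussian disorder. -/
def S_KG : Prop :=
  ∀ (d : ℕ), 3 ≤ d → ∃ Cd : ℝ, 0 < Cd ∧ ∀ a : ℝ, 0 < a → a < 2 * d →
    ∃ sg₀ : ℝ, 0 < sg₀ ∧ sg₀ < 1 ∧ ∀ sg : ℝ, 0 < sg → sg ≤ sg₀ →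
      ∃ b : C(ℝ, ℝ), (∀ t, |b t| ≤ sg ^ 2 * Real.log (1 / sg) ^ 10) ∧
      (∀ x : Fin d → ℤ,
        ‖UnitAddTorus.mFourierCoeff (fun k : UnitAddTorus (Fin d) => ((b (adjm d k) : ℝ) : ℂ)) x‖
          ≤ Cd * (sg ^ 2 * Real.log (1 / sg) ^ 10) / (1 + ‖x‖) ^ ((d : ℝ) / 3)) ∧
      ∀ᵐ v ∂(Pn (gaussianReal 0 1) (Fin d → ℤ)), ACIK (adjm d + b.comp (adjm d)) sg v (-a) a

end

end Pool.Agent.N659.HB
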