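import Pool.Agent.N659.HB.Stm8
import Pool.Agent.N659.HB.Stm4

/-!
Statements of the parts of the project SN: Gaussian disorder, strong coupling; an arbitrarily small
change of the kinetic energy gives purely absolutely continuous spectrum.
-/

namespace Pool.Agent.N659.HB

open MeasureTheory Filter Pool.Agent.W792.LL Pool.Agent.W792.WA ProbabilityTheory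
open scoped Topology ENNReal

noncomputable section

/-- The transform of a law. -/
def hm (μ : Measure ℝ) (ζ : ℂ) : ℂ := ∫ t, 1 / ((t : ℂ) - ζ) ∂μ

/-- Properties of a law on `[-w, w]`, at scales above `y₀`. -/
structure UL (μ : Measure ℝ) (w A C c y₀ : ℝ) : Prop where
  hA : 0 ≤ A
  hw : A + 1 ≤ w
  hC : 1 ≤ C
  hc : 0 < c
  hy : 0 < y₀
  supp : ∀ᵐ x ∂μ, |x| ≤ w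
  u1 : ∀ ζ : ℂ, 0 < ζ.im → ∫ t, 1 / ‖(t : ℂ) - ζ‖ ^ 2 ∂μ ≤ C / ζ.im
  u2 : ∀ (ζ : ℂ) (y : ℝ), 0 < y → y ≤ 2 → y ≤ ζ.im →
    ∫ t, 1 / ‖(t : ℂ) - ζ‖ ∂μ ≤ C * y ^ (-(1 / 16) : ℝ)
  u3 : ∀ ζ : ℂ, y₀ ≤ ζ.im → ‖∫ t, 1 / ((t : ℂ) - ζ) ^ 2 ∂μ‖ ≤ C
  u4 : ∀ ζ : ℂ, 0 < ζ.im → ∫ t, (1 / ‖(t : ℂ) - ζ‖) ^ (1 / 2 : ℝ) ∂μ ≤ C
  u5 : ∀ (ζ ζ' : ℂ) (y : ℝ), 0 < y → y ≤ ζ.im → y ≤ ζ'.im →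
    ‖hm μ ζ - hm μ ζ'‖ ≤ C / y * ‖ζ - ζ'‖
  u6 : ∀ κ α β c : ℂ, (∀ t : ℝ, |t| ≤ w → α * t + β ≠ 0) →
    ∫ t, ‖c / (α * (t : ℂ) + β)‖ ^ (1 / 2 : ℝ) ∂μ
      ≤ C * ∫ t, ‖(t : ℂ) - κ‖ ^ (1 / 2 : ℝ) * ‖c / (α * (t : ℂ) + β)‖ ^ (1 / 2 : ℝ) ∂μ
  u7 : ∀ ζ : ℂ, |ζ.re| ≤ A → y₀ ≤ ζ.im → ζ.im ≤ 2 →
    ‖hm μ ζ‖ ≤ C ∧ c ≤ (hm μ ζ).im ∧ (1 / hm μ ζ + ζ).im ≤ -c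
  u8 : ∀ ζ ζ' : ℂ, y₀ ≤ ζ.im → y₀ ≤ ζ'.im → ‖hm μ ζ - hm μ ζ'‖ ≤ C * ‖ζ - ζ'‖

/-! ## A. The Gaussian law -/

/-- The centred Gaussian law with standard deviation `s`. -/
def gs (s : ℝ) : Measure ℝ := gaussianReal 0 ⟨s ^ 2, sq_nonneg s⟩

instance (s : ℝ) : IsProbabilityMeasure (gs s) := by unfold gs; infer_instance

/-- Integrals of positive functions. -/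
def S_GA : Prop :=
  ∀ s : ℝ, 0 < s → ∃ C : ℝ, 1 ≤ C ∧
    (∀ ζ : ℂ, 0 < ζ.im → ∫ t, 1 / ‖(t : ℂ) - ζ‖ ^ 2 ∂(gs s) ≤ C / ζ.im) ∧
    (∀ (ζ : ℂ) (y : ℝ), 0 < y → y ≤ 2 → y ≤ ζ.im →
      ∫ t, 1 / ‖(t : ℂ) - ζ‖ ∂(gs s) ≤ C * y ^ (-(1 / 16) : ℝ)) ∧
    ∀ ζ : ℂ, 0 < ζ.im → ∫ t, (1 / ‖(t : ℂ) - ζ‖) ^ (1 / 2 : ℝ) ∂(gs s) ≤ C

/-- The transform of the Gaussian law. -/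
def S_GF : Prop :=
  ∀ s : ℝ, 0 < s → ∃ C : ℝ, 1 ≤ C ∧
    (∀ ζ : ℂ, 0 < ζ.im → ‖∫ t, 1 / ((t : ℂ) - ζ) ^ 2 ∂(gs s)‖ ≤ C ∧ ‖hm (gs s) ζ‖ ≤ C) ∧
    ∀ ζ ζ' : ℂ, 0 < ζ.im → 0 < ζ'.im → ‖hm (gs s) ζ - hm (gs s) ζ'‖ ≤ C * ‖ζ - ζ'‖

/-- Decoupling. -/
def S_GD : Prop :=
  ∀ s : ℝ, 0 < s → ∃ C : ℝ, 1 ≤ C ∧ ∀ w : ℝ, 2 ≤ w → ∀ κ α β c : ℂ,
    (∀ t : ℝ, |t| ≤ w → α * t + β ≠ 0) →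
    ∫ t in Set.Icc (-w) w, ‖c / (α * (t : ℂ) + β)‖ ^ (1 / 2 : ℝ) ∂(gs s)
      ≤ C * ∫ t in Set.Icc (-w) w,
        ‖(t : ℂ) - κ‖ ^ (1 / 2 : ℝ) * ‖c / (α * (t : ℂ) + β)‖ ^ (1 / 2 : ℝ) ∂(gs s)

/-- Lower bounds. -/
def S_GL : Prop :=
  ∀ s A : ℝ, 0 < s → 0 ≤ A → ∃ c : ℝ, 0 < c ∧ ∀ (μ : Measure ℝ) [IsProbabilityMeasure μ] (w : ℝ),
    A + 4 ≤ w → (∀ᵐ x ∂μ, |x| ≤ w) → (gs s).restrict (Set.Icc (-w) w) ≤ μ →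
    ∀ ζ : ℂ, |ζ.re| ≤ A → 0 < ζ.im → ζ.im ≤ 2 → c ≤ (hm μ ζ).im ∧
      (1 / hm μ ζ + ζ).im * ‖hm μ ζ‖ ^ 2 ≤ -c

/-- A coupling of the Gaussian law with a law of bounded support. -/
def S_CPL : Prop :=
  ∀ s : ℝ, 0 < s → ∃ w₀ : ℝ, 0 < w₀ ∧ ∀ w : ℝ, w₀ ≤ w → ∃ X X' : MX,
    qlaw X = gs s ∧ 0 < vr (qlaw X) ∧ (∀ᵐ x ∂(qlaw X'), |x| ≤ w) ∧
    (gs s).restrict (Set.Icc (-w) w) ≤ qlaw X' ∧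
    qlaw X' ≤ (2 : ℝ≥0∞) • (gs s).restrict (Set.Icc (-w) w) ∧
    cd X X' ≤ 8 * Real.exp (-(w ^ 2 / (2 * s ^ 2))) ∧
    ∀ f : ℝ → ℂ, Measurable f → (∀ t, ‖f t‖ ≤ 1) →
      ‖∫ t, f t ∂(qlaw X') - ∫ t, f t ∂(gs s)‖ ≤ 4 * Real.exp (-(w ^ 2 / (2 * s ^ 2)))

/-- Truncation of the Gaussian law. -/
def S_TRU : Prop :=
  ∀ s A : ℝ, 0 < s → 0 ≤ A → ∃ C c : ℝ, 1 ≤ C ∧ 0 < c ∧ ∀ y₀ : ℝ, 0 < y₀ → y₀ ≤ 1 / 2 →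
    ∃ (w : ℝ) (X X' : MX), qlaw X = gs s ∧ 0 < vr (qlaw X) ∧ UL (qlaw X') w A C c y₀ ∧
      cd X X' ≤ (y₀ ^ 5) ^ 2 ∧ w ≤ C * y₀ ^ (-(1 / 32) : ℝ)

/-! ## B. The resolvent, general law -/

/-- Decay of the fractional moments. -/
def S_FMU : Prop :=
  ∀ (d : ℕ) (A C c : ℝ), ∃ C' γ₀ : ℝ, 1 ≤ C' ∧ 0 < γ₀ ∧
    ∀ (μ : Measure ℝ) [IsProbabilityMeasure μ] (w y₀ : ℝ), UL μ w A C c y₀ →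
    ∀ γ : ℝ, 0 < γ → γ ≤ γ₀ → ∀ ζ : ℂ, |ζ.re| ≤ A → y₀ ≤ ζ.im → ζ.im ≤ 2 →
    ∀ x a b : Fin d → ℤ,
      ∫ v, ‖Qx w γ ζ x a (Function.update v b w)‖ ^ (1 / 2 : ℝ) ∂(Pn μ (Fin d → ℤ))
        ≤ (C' * γ ^ (1 / 2 : ℝ)) ^ nd x a ∧
      ∫ v, ‖ge w γ ζ (Function.update v x w) x a‖ ^ (1 / 2 : ℝ) ∂(Pn μ (Fin d → ℤ))
        ≤ C' * (C' * γ ^ (1 / 2 : ℝ)) ^ nd x a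

/-- Second moments. -/
def S_KB1U : Prop :=
  ∀ (d : ℕ) (A C c : ℝ), ∃ C' γ₀ : ℝ, 1 ≤ C' ∧ 0 < γ₀ ∧
    ∀ (μ : Measure ℝ) [IsProbabilityMeasure μ] (w y₀ : ℝ), UL μ w A C c y₀ →
    ∀ γ : ℝ, 0 < γ → γ ≤ γ₀ → ∀ ζ : ℂ, |ζ.re| ≤ A → y₀ ≤ ζ.im → ζ.im ≤ 2 →
    ∀ a : Fin d → ℤ,
      ∑' b : Fin d → ℤ, ∑' x : Fin d → ℤ, ∫⁻ v, ENNReal.ofReal (‖ge w γ ζ v x a‖ * ‖ge w γ ζ v x b‖)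
        ∂(Pn μ (Fin d → ℤ)) ≤ ENNReal.ofReal (C' / ζ.im) ∧
      ∑' b : Fin d → ℤ, ∑' x : Fin d → ℤ, (if x = a ∨ x = b then 0 else
        ∫⁻ v, ENNReal.ofReal (‖ge w γ ζ v x a‖ * ‖ge w γ ζ v x b‖) ∂(Pn μ (Fin d → ℤ)))
        ≤ ENNReal.ofReal (C' * γ ^ (1 / 2 : ℝ) / ζ.im) ∧
      ∑' x : Fin d → ℤ, (if x = a then 0 else
        ∫⁻ v, ENNReal.ofReal (‖ge w γ ζ v x a‖ ^ 2) ∂(Pn μ (Fin d → ℤ)))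
        ≤ ENNReal.ofReal (C' * γ ^ (1 / 2 : ℝ) / ζ.im)

/-- Products without complex conjugation. -/
def S_KB2U : Prop :=
  ∀ (d : ℕ) (A C c : ℝ), ∃ C' γ₀ : ℝ, 1 ≤ C' ∧ 0 < γ₀ ∧
    ∀ (μ : Measure ℝ) [IsProbabilityMeasure μ] (w y₀ : ℝ), UL μ w A C c y₀ →
    ∀ γ : ℝ, 0 < γ → γ ≤ γ₀ → ∀ ζ : ℂ, |ζ.re| ≤ A → y₀ ≤ ζ.im → ζ.im ≤ 2 →
    ∀ a : Fin d → ℤ,
      ∑' b : Fin d → ℤ, ∑' x : Fin d → ℤ, ENNReal.ofReal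
        ‖∫ v, ge w γ ζ v a x * ge w γ ζ v x b ∂(Pn μ (Fin d → ℤ))‖
        ≤ ENNReal.ofReal (C' * ζ.im ^ (-(3 / 4) : ℝ))

/-- Covariances of the diagonal elements. -/
def S_KB3U : Prop :=
  ∀ (d : ℕ) (A C c : ℝ), ∃ C' γ₀ : ℝ, 1 ≤ C' ∧ 0 < γ₀ ∧
    ∀ (μ : Measure ℝ) [IsProbabilityMeasure μ] (w y₀ : ℝ), UL μ w A C c y₀ →
    ∀ γ : ℝ, 0 < γ → γ ≤ γ₀ → ∀ ζ : ℂ, |ζ.re| ≤ A → y₀ ≤ ζ.im → ζ.im ≤ 2 →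
    ∀ a : Fin d → ℤ,
      ∑' b : Fin d → ℤ, (if b = a then 0 else ENNReal.ofReal
        ‖(∫ v, ge w γ ζ v a a * ge w γ ζ v b b ∂(Pn μ (Fin d → ℤ)))
          - ∫ v, hm μ (Zx w γ ζ a v) * hm μ (Zx w γ ζ b v) ∂(Pn μ (Fin d → ℤ))‖)
        ≤ ENNReal.ofReal (C' * (γ ^ (1 / 2 : ℝ) / ζ.im + w * ζ.im ^ (-(15 / 16) : ℝ)))

/-- Second moments of vectors. -/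
def S_OWU : Prop :=
  ∀ (d : ℕ) (A C c : ℝ), ∃ C' γ₀ : ℝ, 1 ≤ C' ∧ 0 < γ₀ ∧
    ∀ (μ : Measure ℝ) [IsProbabilityMeasure μ] (w y₀ : ℝ), UL μ w A C c y₀ →
    ∀ γ : ℝ, 0 < γ → γ ≤ γ₀ → ∀ ζ : ℂ, |ζ.re| ≤ A → y₀ ≤ ζ.im → ζ.im ≤ 2 →
    ∀ u : l2 (Fin d → ℤ),
      ∫ v, ‖gr w (xs d γ ζ) v u‖ ^ 2 ∂(Pn μ (Fin d → ℤ)) ≤ C' / ζ.im * ‖u‖ ^ 2 ∧
      ∫ v, ‖ContinuousLinearMap.adjoint (gr w (xs d γ ζ) v) u‖ ^ 2 ∂(Pn μ (Fin d → ℤ))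
        ≤ C' / ζ.im * ‖u‖ ^ 2 ∧
      ∫ v, ‖(gr w (xs d γ ζ) v - dg w γ ζ v) u‖ ^ 2 ∂(Pn μ (Fin d → ℤ))
        ≤ C' * γ ^ (1 / 2 : ℝ) / ζ.im * ‖u‖ ^ 2 ∧
      ∫ v, ‖ContinuousLinearMap.adjoint (gr w (xs d γ ζ) v - dg w γ ζ v) u‖ ^ 2
        ∂(Pn μ (Fin d → ℤ)) ≤ C' * γ ^ (1 / 2 : ℝ) / ζ.im * ‖u‖ ^ 2

/-- The mean of the square. -/
def S_OGU : Prop :=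
  ∀ (d : ℕ) (A C c : ℝ), ∃ C' γ₀ : ℝ, 1 ≤ C' ∧ 0 < γ₀ ∧
    ∀ (μ : Measure ℝ) [IsProbabilityMeasure μ] (w y₀ : ℝ), UL μ w A C c y₀ →
    ∀ γ : ℝ, 0 < γ → γ ≤ γ₀ → ∀ ζ : ℂ, |ζ.re| ≤ A → y₀ ≤ ζ.im → ζ.im ≤ 2 →
    ∀ u u' : l2 (Fin d → ℤ),
      ‖∫ v, inner ℂ u' (gr w (xs d γ ζ) v (gr w (xs d γ ζ) v u)) ∂(Pn μ (Fin d → ℤ))‖
        ≤ C' * ζ.im ^ (-(3 / 4) : ℝ) * (‖u'‖ * ‖u‖)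

/-- Diagonal parts around a symbol. -/
def S_ODU : Prop :=
  ∀ (d : ℕ) (A C c : ℝ), ∃ C' γ₀ : ℝ, 1 ≤ C' ∧ 0 < γ₀ ∧
    ∀ (μ : Measure ℝ) [IsProbabilityMeasure μ] (w y₀ : ℝ), UL μ w A C c y₀ →
    ∀ γ : ℝ, 0 < γ → γ ≤ γ₀ → ∀ ζ : ℂ, |ζ.re| ≤ A → y₀ ≤ ζ.im → ζ.im ≤ 2 →
    ∀ (Y : C(UnitAddTorus (Fin d), ℂ)) (u u' : l2 (Fin d → ℤ)),
      ‖∫ v, inner ℂ u' (dg w γ ζ v (opr Y (dg w γ ζ v u))) ∂(Pn μ (Fin d → ℤ))‖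
        ≤ C' * (γ ^ (1 / 2 : ℝ) / ζ.im + w * ζ.im ^ (-(15 / 16) : ℝ)) * ‖Y‖ * (‖u'‖ * ‖u‖)

/-- The averaged resolvent is close to the transform of the law. -/
def S_N1U : Prop :=
  ∀ (d : ℕ) (A C c : ℝ), ∃ C' γ₀ : ℝ, 1 ≤ C' ∧ 0 < γ₀ ∧
    ∀ (μ : Measure ℝ) [IsProbabilityMeasure μ] (w y₀ : ℝ), UL μ w A C c y₀ →
    ∀ γ : ℝ, 0 < γ → γ ≤ γ₀ → ∀ ζ : ℂ, |ζ.re| ≤ A → y₀ ≤ ζ.im → ζ.im ≤ 2 →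
    ∀ N : C(UnitAddTorus (Fin d), ℂ),
      (∀ (u : l2 (Fin d → ℤ)) (x : Fin d → ℤ),
        ∫ v, gr w (xs d γ ζ) v u x ∂(Pn μ (Fin d → ℤ)) = opr N u x) →
      ∀ k, ‖N k - hm μ ζ‖ ≤ C' * γ ^ (1 / 12 : ℝ)

/-- Perturbation by a symbol which is small compared with the absorption. -/
def S_PTU : Prop :=
  ∀ (d : ℕ) (A C c : ℝ), ∃ C' γ₀ : ℝ, 1 ≤ C' ∧ 0 < γ₀ ∧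
    ∀ (μ : Measure ℝ) [IsProbabilityMeasure μ] (w y₀ : ℝ), UL μ w A C c y₀ →
    ∀ γ : ℝ, 0 < γ → γ ≤ γ₀ → ∀ ζ : ℂ, |ζ.re| ≤ A → y₀ ≤ ζ.im → ζ.im ≤ 2 →
    ∀ Y N N' : C(UnitAddTorus (Fin d), ℂ), ‖Y‖ ≤ ζ.im / 2 →
      (∀ (u : l2 (Fin d → ℤ)) (x : Fin d → ℤ),
        ∫ v, gr w (xs d γ ζ) v u x ∂(Pn μ (Fin d → ℤ)) = opr N u x) →
      (∀ (u : l2 (Fin d → ℤ)) (x : Fin d → ℤ),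
        ∫ v, gr w (xs d γ ζ + Y) v u x ∂(Pn μ (Fin d → ℤ)) = opr N' u x) →
      ∀ k, ‖N' k - N k‖ ≤ C' * (γ ^ (1 / 4 : ℝ) / ζ.im + w * ζ.im ^ (-(15 / 16) : ℝ)) * ‖Y‖
        + C' * (‖Y‖ / ζ.im) ^ 2

/-! ## C. The gap -/

/-- The gap at strong disorder, Gaussian law, in scaled form. -/
def S_SDGU : Prop :=
  ∀ (ψ : C(UnitAddCircle, ℝ)), IsSemi ψ → ∀ (d : ℕ) (s A κ : ℝ), 0 < d → 0 < s → 0 ≤ A →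
    ∃ γ₀ r₀ : ℝ, 0 < γ₀ ∧ 0 < r₀ ∧
    ∀ γ r : ℝ, 0 < γ → γ ≤ γ₀ → 0 < r → r ≤ r₀ → ∃ σ : ℝ, 0 < σ ∧
      ∀ (ρ' : Measure ℝ) [IsProbabilityMeasure ρ'], ρ' (Set.Icc (-(r / 8)) (r / 8))ᶜ = 0 →
      ∀ (K : C(UnitAddTorus (Fin d), ℝ)), (∀ k, K k = κ + γ * lap d k) →
      ∀ z : ℂ, |z.re - κ| ≤ A → 0 < z.im → z.im ≤ 1 →
      ∀ m, IsFix (gs s) ((lev ψ r).conv ρ') (wz K z) m → ‖m‖ ≤ 1 - σ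

/-- The theorem at strong disorder: the Gaussian law, an arbitrarily small change of the kinetic
energy. -/
def S_SDN : Prop :=
  ∀ (d : ℕ) (A : ℝ), 0 < d → 0 < A → ∃ sg₀ : ℝ, 0 < sg₀ ∧ ∀ (sg ε : ℝ), sg₀ ≤ sg → 0 < ε →
    ∃ b : C(ℝ, ℝ), (∀ t, |b t| ≤ ε) ∧
      (∀ x : Fin d → ℤ,
        ‖UnitAddTorus.mFourierCoeff (fun k : UnitAddTorus (Fin d) => ((b (adjm d k) : ℝ) : ℂ)) x‖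
          ≤ ε / (1 + ‖x‖) ^ ((d : ℝ) / 3)) ∧
      ∀ᵐ v ∂(Pn (gaussianReal 0 1) (Fin d → ℤ)),
        ACIK (adjm d + b.comp (adjm d)) sg v (-(A * sg)) (A * sg)

end

end Pool.Agent.N659.HB
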