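import Pool.Agent.N659.HB.Stm5

/-!
Statements of the parts of the project HW: high dimension, any bounded law, all couplings up to
`d^(1/4) / (log d)²`.
-/

namespace Pool.Agent.N659.HB

open MeasureTheory Filter Pool.Agent.W792.LL Pool.Agent.W792.WA
open scoped Topology ENNReal

noncomputable section

/-- Choice of the numbers in high dimension, disorder bounded by `w`, coupling `sg`. -/
def S_ASYW : Prop :=
  ∀ A C c w s₂ : ℝ, 0 < A → 0 < C → 0 < c → 0 < w → 0 < s₂ → s₂ ≤ 1 →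
    ∃ d₀ : ℕ, ∀ d : ℕ, d₀ ≤ d → ∀ sg : ℝ, 1 / Real.log d ≤ sg →
      sg ≤ (d : ℝ) ^ (1 / 4 : ℝ) / Real.log d ^ 2 →
    0 < sg ∧ A ≤ 2 * Real.sqrt d ∧
    1 / Real.sqrt d ≤ sg ^ 2 * Real.log d ^ 4 / (2 * Real.sqrt d) ∧
    sg ^ 2 * Real.log d ^ 4 / (2 * Real.sqrt d) ≤ 1 ∧ sg * w ≤ Real.sqrt d ∧ ∃ n : ℕ,
    NG n (2 * Real.sqrt d / A * (sg * w)) (sg ^ 2 * Real.log d ^ 4 / A)
      (2 * (sg * w) * C * Real.log d / Real.sqrt d)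
      (Real.sqrt (2 * (sg * w) * C * Real.log d / Real.sqrt d
        * (4 * (2 * Real.sqrt d / A * (sg * w)) / (sg ^ 2 * Real.log d ^ 4 / A))))
      s₂ (sg * w * c / Real.sqrt d)
      ((sg * w) ^ 2 * C / (sg ^ 2 * Real.log d ^ 4 / (2 * Real.sqrt d) * Real.sqrt d))
      (2 * Real.sqrt d / A * (4 * d))

/-- The theorem in high dimension, any bounded law, uniformly in the coupling. -/
def S_HBW : Prop :=
  ∀ (ν : Measure ℝ) [IsProbabilityMeasure ν] (C₀ A : ℝ), (∀ᵐ x ∂ν, |x| ≤ C₀) →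
    (∀ a : ℝ, ν {a} < 1) → 0 < A → ∃ d₀ : ℕ, ∀ d : ℕ, d₀ ≤ d → ∀ sg : ℝ,
      1 / Real.log d ≤ sg → sg ≤ (d : ℝ) ^ (1 / 4 : ℝ) / Real.log d ^ 2 →
    0 < sg ∧ ∃ b : C(ℝ, ℝ), (∀ t, |b t| ≤ sg ^ 2 * Real.log d ^ 4 / Real.sqrt d) ∧
      (∃ C : ℝ, ∀ x : Fin d → ℤ,
        ‖UnitAddTorus.mFourierCoeff (fun k : UnitAddTorus (Fin d) => ((b (lap d k) : ℝ) : ℂ)) x‖
          ≤ C / (1 + ‖x‖) ^ ((d : ℝ) / 3)) ∧
      ∀ᵐ v ∂(Pn ν (Fin d → ℤ)), ACIK (lap d + gK b d) sg v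
        (2 * d - A * Real.sqrt d) (2 * d + A * Real.sqrt d)

end

end Pool.Agent.N659.HB
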