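import Pool.Agent.N659.HB.FinK
import Pool.Agent.W792.WA.All4
import Pool.Agent.N768.HBChk
import Pool.Agent.N75.HB.ZR
import Pool.Agent.N306.HB.LV
import Pool.Agent.N692.HB.UX
import Pool.Agent.N835.HB.Gau
import Pool.Agent.N756.KS.Cg1
import Pool.Agent.N79.KS.CG2
import Pool.Agent.N655.KS.Cgi
import Pool.Agent.N896.KS.SEG
import Pool.Agent.N457.KS.Gapg
import Pool.Agent.N427.KS.D3U
import Pool.Agent.N862.KS.D3l
import Pool.Agent.N862.KS.Int3
import Pool.Agent.N170.KS.AsyK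

/-!
All parts of the project KS.
-/

set_option autoImplicit false

namespace Pool.Agent.N659.HB.Al

open Pool.Agent.W792.LL Pool.Agent.W792.WA Pool.Agent.N659.HB

theorem chk : S_CHK := Pool.Agent.N768.HBChk.main Pool.Agent.W792.WA.Al.cx
  Pool.Agent.W792.WA.Al.uuc Pool.Agent.W792.WA.Al.scl Pool.Agent.W792.WA.Al.zf
  Pool.Agent.W792.WA.Al.cay Pool.Agent.W792.WA.Al.mzp Pool.Agent.W792.WA.Al.uni
  Pool.Agent.W792.WA.Al.step Pool.Agent.W792.WA.Al.fut
theorem zr : S_ZR := Pool.Agent.N75.HB.main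
theorem lv : S_LV := Pool.Agent.N306.HB.LV.main
theorem ux : S_UX := Pool.Agent.N692.HB.UX.main
theorem gau : S_GAU := Pool.Agent.N835.HBGau.main
theorem cg1 : S_CG1 := Pool.Agent.N756.KS.main
theorem cg2 : S_CG2 := Pool.Agent.N79.KS.CG2.main cg1
theorem cgi : S_CGI :=
  Pool.Agent.N655.KS.main Pool.Agent.W792.WA.Al.dia Pool.Agent.W792.WA.Al.opr cg2
theorem seg : S_SEG := Pool.Agent.N896.KS.main Pool.Agent.W792.WA.Al.symb
  Pool.Agent.W792.WA.Al.csym Pool.Agent.W792.WA.Al.psi Pool.Agent.W792.WA.Al.cx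
  Pool.Agent.W792.WA.Al.opr Pool.Agent.W792.WA.Al.dia cgi
theorem gapg : S_GAPG := Pool.Agent.N457.KS.Gapg.main zr seg lv ux Pool.Agent.W792.WA.Al.cx
  Pool.Agent.W792.WA.Al.uuc Pool.Agent.W792.WA.Al.fix Pool.Agent.W792.WA.Al.cay
theorem d3u : S_D3U := Pool.Agent.N427.KS.main gau
theorem d3l : S_D3L := Pool.Agent.N862.KS.D3l.main
theorem int3 : S_INT3 := Pool.Agent.N862.KS.main d3u
theorem asyk : S_ASYK := Pool.Agent.N170.KS.main

theorem ksT : S_KS := ks gapg int3 d3l asyk chk Pool.Agent.W792.WA.Al.aeqk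
  Pool.Agent.W792.WA.Al.aff Pool.Agent.W792.WA.Al.cay WSP.main
  (Pool.Agent.W792.WA.Al.exists_lv Pool.Agent.W915.WA.WH.main Pool.Agent.W332.WA.WB.main Pool.Agent.W792.WA.Al.wd)

end Pool.Agent.N659.HB.Al
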