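import Pool.Agent.N659.HB.FinG
import Pool.Agent.N659.HB.AllK
import Pool.Agent.N346.KG.Gaph
import Pool.Agent.N776.KG.Trg
import Pool.Agent.N887.KG.AsyG

/-!
All parts of the project KG.
-/

set_option autoImplicit false

namespace Pool.Agent.N659.HB.Al

open Pool.Agent.W792.LL Pool.Agent.W792.WA Pool.Agent.N659.HB

theorem gaph : S_GAPH := Pool.Agent.N346.KG.Gaph.main zr seg lv ux Pool.Agent.W792.WA.Al.cx
  Pool.Agent.W792.WA.Al.uuc Pool.Agent.W792.WA.Al.fix Pool.Agent.W792.WA.Al.cay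
  Pool.Agent.W792.WA.Al.psix
theorem trg : S_TRG := Pool.Agent.N776.KG.main Pool.Agent.W792.WA.Al.qnt2
  Pool.Agent.W792.WA.Al.cay
theorem asyg : S_ASYG := Pool.Agent.N887.KG.main

theorem kgT : S_KG := kg gaph trg int3 d3l asyg chk Pool.Agent.W792.WA.Al.aeqk
  Pool.Agent.W792.WA.Al.aff WSP.main
  (Pool.Agent.W792.WA.Al.exists_lv Pool.Agent.W915.WA.WH.main Pool.Agent.W332.WA.WB.main
    Pool.Agent.W792.WA.Al.wd)

end Pool.Agent.N659.HB.Al
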