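import Pool.Agent.N659.HB.Stm4

/-!
Statements of the parts of the project GH: Gaussian disorder in high dimension.
-/

namespace Pool.Agent.N659.HB

open MeasureTheory Filter Pool.Agent.W792.LL Pool.Agent.W792.WA ProbabilityTheory
open scoped Topology ENNReal

noncomputable section

/-- The numerical conditions for two laws, large self-energies allowed. -/
structure NJ (n : ℕ) (α r b κ s₂ c₀ Λ D₀ τ : ℝ) : Prop where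
  ng : NG n α r b κ s₂ c₀ Λ D₀
  hτ : 0 ≤ τ
  e8' : α / (cG α r b s₂ c₀ D₀ / 8) * (2 * ((4 * n * κ) ^ n) ^ 2) ≤ b * κ
  e9 : 100 * ((2 * α * b + 1) ^ 2 * epsL α r b s₂ c₀ D₀ τ) ≤ etaG α s₂ c₀
  e10 : 8 * ((2 * α * b + 1) ^ 2 * epsL α r b s₂ c₀ D₀ τ) ≤ α * b
  e11 : (2 * α * b + 1) ^ 2 * epsL α r b s₂ c₀ D₀ τ ≤ 1

/-- The gap for a law close to a bounded law with mean zero, large self-energies allowed. -/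
def S_GAPJ : Prop :=
  ∀ (ψ : C(UnitAddCircle, ℝ)), IsSemi ψ → ∀ (X X' : MX) (d n : ℕ)
    (K : C(UnitAddTorus (Fin d), ℝ)) (α r b κ s₂ c₀ Λ D₀ τ : ℝ), NJ n α r b κ s₂ c₀ Λ D₀ τ →
    cd X X' ≤ τ ^ 2 → 0 < vr (qlaw X) →
    (∀ᵐ x ∂(qlaw X'), |x| ≤ α) → ∫ x, x ∂(qlaw X') = 0 → ∫ x, (x / α) ^ 2 ∂(qlaw X') = s₂ →
    (∀ E : ℝ, 0 ≤ E → E ≤ 4 * d → (∀ k, |K k - E| ≤ D₀) ∧
      α * (∫ k : UnitAddTorus (Fin d), wl r (K k - E)) ≤ b / 2 ∧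
      α ^ 2 * (∫ k : UnitAddTorus (Fin d), wl r (K k - E) ^ 2) ≤ Λ ∧
      ∀ ρ : ℝ, r / 4 ≤ ρ → (ρ ≤ 1 ∨ ρ = r / 4) → c₀ * ρ ≤ α * dosK K E ρ) →
    ∃ σ : ℝ, 0 < σ ∧ ∀ (ρ' : Measure ℝ) [IsProbabilityMeasure ρ'],
      ρ' (Set.Icc (-(r / 8)) (r / 8))ᶜ = 0 →
      ∀ z ∈ Zs d, ∀ s, IsFix (qlaw X) ((lev ψ r).conv ρ') (wz K z) s → ‖s‖ ≤ 1 - σ

/-- Choice of the numbers, Gaussian disorder in high dimension: with `L = log d`, `γ = 2 √d / A`,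
`α = γ σ L`, `l = σ² L¹² / (2 √d)`, `r = γ l`. -/
def S_ASYJ : Prop :=
  ∀ A C c : ℝ, 0 < A → 0 < C → 0 < c → ∃ d₀ : ℕ, ∀ d : ℕ, d₀ ≤ d → ∀ sg : ℝ,
    1 / Real.log d ≤ sg → sg ≤ (d : ℝ) ^ (1 / 4 : ℝ) / Real.log d ^ 8 →
      3 ≤ Real.log d ∧ 0 < sg ∧ A ≤ 2 * Real.sqrt d ∧
      1 / Real.sqrt d ≤ sg ^ 2 * Real.log d ^ 12 / (2 * Real.sqrt d) ∧
      sg ^ 2 * Real.log d ^ 12 / (2 * Real.sqrt d) ≤ 1 ∧ ∀ s₂ : ℝ,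
      1 / (2 * Real.log d ^ 2) ≤ s₂ → s₂ ≤ 1 / Real.log d ^ 2 → ∃ n : ℕ,
      NJ n (2 * Real.sqrt d / A * (sg * Real.log d)) (sg ^ 2 * Real.log d ^ 12 / A)
        (2 * (sg * Real.log d) * C * Real.log d / Real.sqrt d)
        (Real.sqrt (2 * (sg * Real.log d) * C * Real.log d / Real.sqrt d
          * (4 * (2 * Real.sqrt d / A * (sg * Real.log d)) / (sg ^ 2 * Real.log d ^ 12 / A))))
        s₂ (sg * Real.log d * c / Real.sqrt d)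
        ((sg * Real.log d) ^ 2 * C
          / (sg ^ 2 * Real.log d ^ 12 / (2 * Real.sqrt d) * Real.sqrt d))
        (2 * Real.sqrt d / A * (4 * d)) (Real.exp (-(Real.log d ^ 2) / 8))

/-- The theorem for Gaussian disorder in high dimension, uniformly in the coupling. -/
def S_GH : Prop :=
  ∀ A : ℝ, 0 < A → ∃ d₀ : ℕ, ∀ d : ℕ, d₀ ≤ d → ∀ sg : ℝ,
    1 / Real.log d ≤ sg → sg ≤ (d : ℝ) ^ (1 / 4 : ℝ) / Real.log d ^ 8 →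
      0 < sg ∧ ∃ b : C(ℝ, ℝ), (∀ t, |b t| ≤ sg ^ 2 * Real.log d ^ 12 / Real.sqrt d) ∧
      (∃ C : ℝ, ∀ x : Fin d → ℤ,
        ‖UnitAddTorus.mFourierCoeff (fun k : UnitAddTorus (Fin d) => ((b (adjm d k) : ℝ) : ℂ)) x‖
          ≤ C / (1 + ‖x‖) ^ ((d : ℝ) / 3)) ∧
      ∀ᵐ v ∂(Pn (gaussianReal 0 1) (Fin d → ℤ)),
        ACIK (adjm d + b.comp (adjm d)) sg v (-(A * Real.sqrt d)) (A * Real.sqrt d)

end

end Pool.Agent.N659.HB
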