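import Pool.Agent.N659.HB.AllH
import Pool.Agent.N659.HB.AllG
import Pool.Agent.N659.HB.Stm11
import Pool.Agent.N681.GH.Gapj
import Pool.Agent.N27.GH.ASYJ
import Pool.Agent.N776.GH.FinH

/-!
All parts of the project GH.
-/

set_option autoImplicit false

namespace Pool.Agent.N659.HB.Al

open Pool.Agent.W792.LL Pool.Agent.W792.WA Pool.Agent.N659.HB

theorem gapj : S_GAPJ := Pool.Agent.N681.GH.Gapj.main zr seg lv ux Pool.Agent.W792.WA.Al.cx
  Pool.Agent.W792.WA.Al.uuc Pool.Agent.W792.WA.Al.fix Pool.Agent.W792.WA.Al.cay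
  Pool.Agent.W792.WA.Al.psix
theorem asyj : S_ASYJ := Pool.Agent.N27.GH.AsyJ.main

theorem ghT : S_GH := Pool.Agent.N776.GH.main gapj trg int dosl asyj chk
  Pool.Agent.W792.WA.Al.aeqk Pool.Agent.W792.WA.Al.aff WSP.main
  (Pool.Agent.W792.WA.Al.exists_lv Pool.Agent.W915.WA.WH.main Pool.Agent.W332.WA.WB.main
    Pool.Agent.W792.WA.Al.wd)

end Pool.Agent.N659.HB.Al
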