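import Pool.Agent.N659.HB.FinH
import Pool.Agent.N659.HB.AllK
import Pool.Agent.N507.HB.Bes
import Pool.Agent.N93.HB.Dosu
import Pool.Agent.N93.HB.Dosl
import Pool.Agent.N712.HB.Int
import Pool.Agent.N8.KS.AsyH

/-!
All parts of the project HB.
-/

set_option autoImplicit false

namespace Pool.Agent.N659.HB.Al

open Pool.Agent.W792.LL Pool.Agent.W792.WA Pool.Agent.N659.HB

theorem besT : S_BES := Pool.Agent.N507.HB.main
theorem dosu : S_DOSU := Pool.Agent.N93.HB.Dosu.main besT gau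
theorem dosl : S_DOSL := Pool.Agent.N93.HB.Dosl.main besT gau
theorem int : S_INT := Pool.Agent.N712.HB.main dosu
theorem asyh : S_ASYH := Pool.Agent.N8.KS.AsyH.main

theorem hblT : S_HBL := hbl gapg int dosl asyh chk Pool.Agent.W792.WA.Al.aeqk
  Pool.Agent.W792.WA.Al.aff Pool.Agent.W792.WA.Al.cay WSP.main
  (Pool.Agent.W792.WA.Al.exists_lv Pool.Agent.W915.WA.WH.main Pool.Agent.W332.WA.WB.main
    Pool.Agent.W792.WA.Al.wd)

end Pool.Agent.N659.HB.Al
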