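import Pool.Agent.N659.HB.AllN
import Pool.Agent.N659.HB.Stm7
import Pool.Agent.N771.LD.Cpow
import Pool.Agent.N300.LD.Psic
import Pool.Agent.N278.LD.GapL
import Pool.Agent.N335.LD.Fold
import Pool.Agent.N433.LD.Bdr
import Pool.Agent.N300.LD.Finc
import Pool.Agent.N234.LD.Finl
import Pool.Agent.N364.LD.Tva
import Pool.Agent.N360.LD.Finf

/-!
All parts of the project LD.
-/

set_option autoImplicit false

namespace Pool.Agent.N659.HB.Al

open Pool.Agent.W792.LL Pool.Agent.W792.WA Pool.Agent.N659.HB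

theorem psic : S_PSIC := Pool.Agent.N300.LD.main Pool.Agent.W792.WA.Al.symb
  Pool.Agent.W792.WA.Al.csym Pool.Agent.W792.WA.Al.psi Pool.Agent.N771.LD.main
theorem gapl : S_GAPL := Pool.Agent.N278.LD.main Pool.Agent.W792.WA.Al.gain
  Pool.Agent.W792.WA.Al.psix Pool.Agent.W792.WA.Al.fix Pool.Agent.W792.WA.Al.uuc
  Pool.Agent.W792.WA.Al.cx
theorem fold' : S_FOLD := Pool.Agent.N335.LD.Fold.main Pool.Agent.W792.WA.Al.qnt2
theorem bdr : S_BDR := Pool.Agent.N433.LD.Bdr.main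
theorem ldc : S_LDC := Pool.Agent.N300.LD.FINC.main Pool.Agent.W792.WA.Al.cay chk2 gapl
  Pool.Agent.W792.WA.Al.fut Pool.Agent.W792.WA.Al.aeqk Pool.Agent.W792.WA.Al.aff WSP.main
  (Pool.Agent.W792.WA.Al.exists_lv Pool.Agent.W915.WA.WH.main Pool.Agent.W332.WA.WB.main
    Pool.Agent.W792.WA.Al.wd)
theorem ldT : S_LDF := Pool.Agent.N360.LD.Finf.main
  (Pool.Agent.N234.LD.Finl.main ldc psic fold' bdr) bdr fold' Pool.Agent.N364.LD.Tva.main

end Pool.Agent.N659.HB.Al
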