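import Pool.Agent.N659.HB.FinN
import Pool.Agent.W792.WA.All4
import Pool.Agent.N279.NP.StepL1
import Pool.Agent.N607.NP.Chk2
import Pool.Agent.N935.NP.Caui
import Pool.Agent.N457.NP.TAN2
import Pool.Agent.N803.NP.Lev1
import Pool.Agent.N887.NP.GapN
import Pool.Agent.N618.NP.EQD
import Pool.Agent.N768.NP.HopM
import Pool.Agent.N196.NP.ATM

/-!
All parts of the project NP.
-/

set_option autoImplicit false

namespace Pool.Agent.N659.HB.Al

open Pool.Agent.W792.LL Pool.Agent.W792.WA Pool.Agent.N659.HB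

theorem stepl1 : S_STEPL1 := Pool.Agent.N279.NP.StepL1.main Pool.Agent.W792.WA.Al.sc1
  Pool.Agent.W792.WA.Al.scl Pool.Agent.W792.WA.Al.gain Pool.Agent.W792.WA.Al.psi
  Pool.Agent.W792.WA.Al.uuc Pool.Agent.W792.WA.Al.fix Pool.Agent.W792.WA.Al.stab
  Pool.Agent.W792.WA.Al.cx Pool.Agent.W792.WA.Al.uni Pool.Agent.W792.WA.Al.c1
theorem chk2 : S_CHK2 := Pool.Agent.N607.NP.Chk2.main Pool.Agent.W792.WA.Al.cx
  Pool.Agent.W792.WA.Al.uuc Pool.Agent.W792.WA.Al.scl Pool.Agent.W792.WA.Al.zf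
  Pool.Agent.W792.WA.Al.cay Pool.Agent.W792.WA.Al.mzp Pool.Agent.W792.WA.Al.uni
  Pool.Agent.W792.WA.Al.step
theorem caui : S_CAUI := Pool.Agent.N935.NP.Caui.main
theorem tan2 : S_TAN2 := Pool.Agent.N457.NP.TAN2.main
theorem lev1 : S_LEV1 := Pool.Agent.N803.NP.main caui tan2 Pool.Agent.W792.WA.Al.sc1
  Pool.Agent.W792.WA.Al.cx
theorem atm : S_ATM := Pool.Agent.N196.NP.ATM.main
theorem gapn : S_GAPN := Pool.Agent.N887.NP.main lev1 atm Pool.Agent.W792.WA.Al.psi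
  Pool.Agent.W792.WA.Al.uuc Pool.Agent.W792.WA.Al.fix Pool.Agent.W792.WA.Al.cx
theorem eqd : S_EQD := Pool.Agent.N618.NP.EQD.main
theorem hopm : S_HOPM := Pool.Agent.N768.NP.HopM.main Pool.Agent.W174.WA.KA.main
  Pool.Agent.W792.WA.Al.kc Pool.Agent.W332.WA.WB.main

theorem npT : S_NP1 := np Pool.Agent.W792.WA.Al.cay stepl1 chk2 gapn hopm eqd atm
  Pool.Agent.W792.WA.Al.fut Pool.Agent.W792.WA.Al.uni Pool.Agent.W792.WA.Al.aeqk
  Pool.Agent.W792.WA.Al.aff WSP.main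
  (Pool.Agent.W792.WA.Al.exists_lv Pool.Agent.W915.WA.WH.main Pool.Agent.W332.WA.WB.main
    Pool.Agent.W792.WA.Al.wd)

end Pool.Agent.N659.HB.Al
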