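import Pool.Agent.N659.HB.AllH
import Pool.Agent.N659.HB.Stm8
import Pool.Agent.N659.SD.RS
import Pool.Agent.N659.SD.GS
import Pool.Agent.N438.SD.GR
import Pool.Agent.N221.SD.NRES
import Pool.Agent.N457.SD.RK
import Pool.Agent.N491.SD.U1
import Pool.Agent.N491.SD.FM
import Pool.Agent.N527.SD.HU
import Pool.Agent.N650.SD.KB1
import Pool.Agent.N887.SD.KB2
import Pool.Agent.N723.SD.KB3
import Pool.Agent.N402.SD.OW
import Pool.Agent.N935.SD.OG
import Pool.Agent.N364.SD.OD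
import Pool.Agent.N123.SD.N1
import Pool.Agent.N664.SD.PT
import Pool.Agent.N196.SD.LQ
import Pool.Agent.N591.SD.BL
import Pool.Agent.N441.SD.SDG
import Pool.Agent.N776.SD.Fin

/-!
All parts of the project SD.
-/

set_option autoImplicit false

namespace Pool.Agent.N659.HB.Al

open Pool.Agent.W792.LL Pool.Agent.W792.WA Pool.Agent.N659.HB

theorem sgr : S_GR := Pool.Agent.N438.SD.main Pool.Agent.W792.WA.Al.symb
  Pool.Agent.W792.WA.Al.opr Pool.Agent.W792.WA.Al.dia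
theorem snres : S_NRES := Pool.Agent.N221.SD.NRES.main Pool.Agent.W792.WA.Al.symb
  Pool.Agent.W792.WA.Al.csym Pool.Agent.W792.WA.Al.psi Pool.Agent.W792.WA.Al.cx
  Pool.Agent.W792.WA.Al.opr Pool.Agent.W792.WA.Al.dia sgr
theorem srk : S_RK := Pool.Agent.N457.SD.RK.main sgr Pool.Agent.W792.WA.Al.symb
  Pool.Agent.W792.WA.Al.opr Pool.Agent.W792.WA.Al.dia
theorem srs : S_RS := Pool.Agent.N659.SD.RS.main
theorem su1 : S_U1 := Pool.Agent.N491.SD.U1.main
theorem shu : S_HU := Pool.Agent.N527.SD.HU.main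
theorem sfm : S_FM := Pool.Agent.N491.SD.FM.main srk srs su1
theorem sgs : S_GS := Pool.Agent.N659.SD.GS.main
theorem skb1 : S_KB1 := Pool.Agent.N650.SD.main srk srs su1 sfm sgs
theorem skb2 : S_KB2 := Pool.Agent.N887.SD.KB2.main srk srs su1 sfm sgs
theorem skb3 : S_KB3 := Pool.Agent.N723.SD.main srk srs su1 sfm sgs skb1
theorem sow : S_OW := Pool.Agent.N402.SD.OW.main sgr srk Pool.Agent.W792.WA.Al.dia skb1
theorem sog : S_OG := Pool.Agent.N935.SD.OG.main sgr srk skb2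
theorem sod : S_OD := Pool.Agent.N364.SD.OD.main sgr srk Pool.Agent.W792.WA.Al.dia
  Pool.Agent.W792.WA.Al.opr Pool.Agent.W792.WA.Al.symb su1 skb2 skb3
theorem sn1 : S_N1 := Pool.Agent.N123.SD.main sgr Pool.Agent.W792.WA.Al.dia
  Pool.Agent.W792.WA.Al.opr Pool.Agent.W792.WA.Al.symb su1 sog shu
theorem spt : S_PT := Pool.Agent.N664.SD.PT.main sgr Pool.Agent.W792.WA.Al.dia
  Pool.Agent.W792.WA.Al.opr Pool.Agent.W792.WA.Al.symb sow sod
theorem slq : S_LQ := Pool.Agent.N196.SD.LQ.main lv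
theorem sbl : S_BL := Pool.Agent.N591.SD.main
theorem sdg : S_SDG := Pool.Agent.N441.SD.SDG.main Pool.Agent.W792.WA.Al.cay
  Pool.Agent.W792.WA.Al.cx Pool.Agent.W792.WA.Al.uuc Pool.Agent.W792.WA.Al.fix ux sgr snres su1
  shu sn1 spt slq sbl

theorem sdT : S_SD := Pool.Agent.N776.SD.main sdg chk Pool.Agent.W792.WA.Al.aeqk
  Pool.Agent.W792.WA.Al.aff Pool.Agent.W792.WA.Al.cay WSP.main
  (Pool.Agent.W792.WA.Al.exists_lv Pool.Agent.W915.WA.WH.main Pool.Agent.W332.WA.WB.main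
    Pool.Agent.W792.WA.Al.wd)

end Pool.Agent.N659.HB.Al
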