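import Pool.Agent.N659.HB.AllS
import Pool.Agent.N659.HB.AllG
import Pool.Agent.N659.HB.Stm10
import Pool.Agent.N73.SN.FMU
import Pool.Agent.N451.SN.KB1U
import Pool.Agent.N499.SN.KB2U
import Pool.Agent.N339.SN.KB3
import Pool.Agent.N659.SN.OWU
import Pool.Agent.N371.SN.OGU
import Pool.Agent.N570.SN.ODU
import Pool.Agent.N216.SN.N1U
import Pool.Agent.N3.SN.PTU
import Pool.Agent.N61.SN.GA
import Pool.Agent.N878.SN.GF
import Pool.Agent.N164.SN.GD
import Pool.Agent.N136.SN.GL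
import Pool.Agent.N27.SN.CPL
import Pool.Agent.N289.SN.Tru
import Pool.Agent.N160.SN.SDGU
import Pool.Agent.N377.SN.FinN

/-!
All parts of the project SN.
-/

set_option autoImplicit false

namespace Pool.Agent.N659.HB.Al

open Pool.Agent.W792.LL Pool.Agent.W792.WA Pool.Agent.N659.HB

theorem fmu : S_FMU := Pool.Agent.N73.SN.FMU.main srk srs
theorem kb1u : S_KB1U := Pool.Agent.N451.SN.main srk srs fmu sgs
theorem kb2u : S_KB2U := Pool.Agent.N499.SN.KB2U.main srk srs fmu sgs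
theorem kb3u : S_KB3U := Pool.Agent.N339.SN.main srk srs fmu sgs kb1u
theorem owu : S_OWU := Pool.Agent.N659.SN.OWU.main sgr srk Pool.Agent.W792.WA.Al.dia kb1u
theorem ogu : S_OGU := Pool.Agent.N371.SN.OGU.main sgr srk kb2u
theorem odu : S_ODU := Pool.Agent.N570.SN.ODU.main sgr srk Pool.Agent.W792.WA.Al.dia
  Pool.Agent.W792.WA.Al.opr Pool.Agent.W792.WA.Al.symb kb2u kb3u
theorem n1u : S_N1U := Pool.Agent.N216.SN.main sgr Pool.Agent.W792.WA.Al.dia
  Pool.Agent.W792.WA.Al.opr Pool.Agent.W792.WA.Al.symb ogu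
theorem ptu : S_PTU := Pool.Agent.N3.SN.PTU.main sgr Pool.Agent.W792.WA.Al.dia
  Pool.Agent.W792.WA.Al.opr Pool.Agent.W792.WA.Al.symb owu odu
theorem sga : S_GA := Pool.Agent.N61.SN.GA.main
theorem sgf : S_GF := Pool.Agent.N878.SN.main
theorem sgd : S_GD := Pool.Agent.N164.SN.GD.main
theorem sgl : S_GL := Pool.Agent.N136.SN.GL.main
theorem cpl : S_CPL := Pool.Agent.N27.SN.main Pool.Agent.W792.WA.Al.qnt2
  Pool.Agent.W792.WA.Al.cay
theorem tru : S_TRU := Pool.Agent.N289.SN.Tru.main sga sgf sgd sgl cpl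
theorem sdgu : S_SDGU := Pool.Agent.N160.SN.SDGU.main Pool.Agent.W792.WA.Al.cay
  Pool.Agent.W792.WA.Al.cx Pool.Agent.W792.WA.Al.fix ux snres tru n1u ptu slq sbl
  Pool.Agent.W792.WA.Al.psix

theorem snT : S_SDN := Pool.Agent.N377.SN.main sdgu chk Pool.Agent.W792.WA.Al.aeqk
  Pool.Agent.W792.WA.Al.aff Pool.Agent.W792.WA.Al.cay WSP.main
  (Pool.Agent.W792.WA.Al.exists_lv Pool.Agent.W915.WA.WH.main Pool.Agent.W332.WA.WB.main
    Pool.Agent.W792.WA.Al.wd)

end Pool.Agent.N659.HB.Al
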