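import Pool.Agent.N659.HB.FinV
import Pool.Agent.N659.HB.AllH
import Pool.Agent.N281.NP.AsyV

/-!
High dimension, any bounded law: all parts.
-/

set_option autoImplicit false

namespace Pool.Agent.N659.HB.Al

open Pool.Agent.W792.LL Pool.Agent.W792.WA Pool.Agent.N659.HB

theorem hbvT : S_HBV := hbv gapg int dosl Pool.Agent.N281.NP.AsyV.main chk
  Pool.Agent.W792.WA.Al.aeqk Pool.Agent.W792.WA.Al.aff Pool.Agent.W792.WA.Al.cay WSP.main
  (Pool.Agent.W792.WA.Al.exists_lv Pool.Agent.W915.WA.WH.main Pool.Agent.W332.WA.WB.main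
    Pool.Agent.W792.WA.Al.wd)

end Pool.Agent.N659.HB.Al
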