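import Pool.Agent.N659.HB.AllH
import Pool.Agent.N659.HB.Stm12
import Pool.Agent.N955.HW.AsyW
import Pool.Agent.N514.HW.FinW

/-!
All parts of the project HW.
-/

set_option autoImplicit false

namespace Pool.Agent.N659.HB.Al

open Pool.Agent.W792.LL Pool.Agent.W792.WA Pool.Agent.N659.HB

theorem asyw : S_ASYW := Pool.Agent.N955.HW.AsyW.main

theorem hbwT : S_HBW := Pool.Agent.N514.HW.main gapg int dosl asyw chk
  Pool.Agent.W792.WA.Al.aeqk Pool.Agent.W792.WA.Al.aff Pool.Agent.W792.WA.Al.cay WSP.main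
  (Pool.Agent.W792.WA.Al.exists_lv Pool.Agent.W915.WA.WH.main Pool.Agent.W332.WA.WB.main
    Pool.Agent.W792.WA.Al.wd)

end Pool.Agent.N659.HB.Al
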