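import Pool.Agent.N659.HB.Stm3
import Pool.Agent.W792.WA.G16
import Pool.Agent.W338.WA.Aff

/-!
Project HB/KS: from the gap to the operator.
-/

set_option autoImplicit false

namespace Pool.Agent.N659.HB

open MeasureTheory Filter Pool.Agent.W792.LL Pool.Agent.W792.WA
open scoped Topology ENNReal

noncomputable section

/-- From the gap for the first level to absolutely continuous spectrum. -/
theorem of_gap (hC : S_CHK) (hAe : S_AEQK) (hAf : S_AFF) {ψ : C(UnitAddCircle, ℝ)} (hψ : IsSemi ψ)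
    {d : ℕ} (hd : 0 < d) (ν₁ : Measure ℝ) [IsProbabilityMeasure ν₁] (γ lam l m : ℝ)
    [IsProbabilityMeasure (ν₁.map fun x => (γ * lam) * x)] (hγ : 0 < γ) (hlam : 0 < lam)
    (hl : 0 < l) (hvr : 0 < vr (ν₁.map fun x => (γ * lam) * x)) {σ : ℝ} (hσ : 0 < σ)
    (hgap : ∀ (ρ' : Measure ℝ) [IsProbabilityMeasure ρ'],
      ρ' (Set.Icc (-((γ * l) / 8)) ((γ * l) / 8))ᶜ = 0 →
      ∀ z ∈ Zs d, ∀ s, IsFix (ν₁.map fun x => (γ * lam) * x) ((lev ψ (γ * l)).conv ρ')
        (wz (γ • (lap d - ContinuousMap.const _ m)) z) s → ‖s‖ ≤ 1 - σ) :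
    ∃ b : C(ℝ, ℝ), IsSum ψ (2 * l) b ∧
      ∀ᵐ v ∂(Pn ν₁ (Fin d → ℤ)), ACIK (lap d + gK b d) lam v m (m + 4 * d / γ) := by
  obtain ⟨f, hf, hM⟩ := hC ψ hψ d (ν₁.map fun x => (γ * lam) * x)
    (γ • (lap d - ContinuousMap.const _ m)) (γ * l) σ hd hvr (by positivity) hσ hgap
  refine ⟨γ⁻¹ • f, ?_, ?_⟩
  · obtain ⟨l', M', h1, h2, h3, h4⟩ := hf
    refine ⟨fun j => γ⁻¹ * l' j, M', fun j => by have := h1 j; positivity, h2.mul_left _, ?_,
      fun t => ?_⟩
    · rw [tsum_mul_left]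
      calc γ⁻¹ * ∑' j, l' j ≤ γ⁻¹ * (2 * (γ * l)) := mul_le_mul_of_nonneg_left h3 (by positivity)
        _ = 2 * l := by field_simp
    · rw [ContinuousMap.smul_apply, smul_eq_mul, h4, ← tsum_mul_left]
      exact tsum_congr fun j => by ring
  · have hkey : (γ • (lap d - ContinuousMap.const _ m) + gK f d : C(UnitAddTorus (Fin d), ℝ)) =
        γ • ((lap d + gK (γ⁻¹ • f) d) - ContinuousMap.const _ m) := by
      ext k
      simp only [ContinuousMap.add_apply, ContinuousMap.smul_apply, ContinuousMap.sub_apply,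
        ContinuousMap.const_apply, smul_eq_mul, gK, ContinuousMap.comp_apply]
      field_simp
      ring
    filter_upwards [hAe d ν₁ (γ * lam) _ hd (by positivity) hM] with v hv
    rw [hkey] at hv
    have h3 := hAf d (lap d + gK (γ⁻¹ • f) d) γ m lam 0 (4 * d) v hγ hv
    have h4 : m + 0 / γ = m := by simp
    rw [h4] at h3
    exact h3

/-- Smaller interval. -/
theorem ACIK_mono {d : ℕ} {K : C(UnitAddTorus (Fin d), ℝ)} {lam : ℝ} {v : (Fin d → ℤ) → ℝ}
    {a b a' b' : ℝ} (h : ACIK K lam v a b) (ha : a ≤ a') (hb : b' ≤ b) : ACIK K lam v a' b' := by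
  intro x
  obtain ⟨μ, g, h1, h2, h3, h4, h5⟩ := h x
  have hsub : Set.Ioo a' b' ⊆ Set.Ioo a b := Set.Ioo_subset_Ioo ha hb
  refine ⟨μ, g, h1, h2, h3, ae_restrict_of_ae_restrict_of_subset hsub h4, ?_⟩
  have e : (μ.restrict (Set.Ioo a b)).restrict (Set.Ioo a' b')
      = ((volume.restrict (Set.Ioo a b)).withDensity
        fun E => ENNReal.ofReal (g E)).restrict (Set.Ioo a' b') := by rw [h5]
  rw [Measure.restrict_restrict measurableSet_Ioo, restrict_withDensity measurableSet_Ioo,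
    Measure.restrict_restrict measurableSet_Ioo,
    Set.inter_eq_self_of_subset_left hsub] at e
  exact e

/-- Shift of the potential and of the kinetic energy. -/
theorem sol_shift {d : ℕ} (K : C(UnitAddTorus (Fin d), ℝ)) (lam mb : ℝ) (v : (Fin d → ℤ) → ℝ)
    (z : ℂ) (x : Fin d → ℤ) (w : (Fin d → ℤ) → ℂ) :
    Sol (hopK ((1 : ℝ) • (K - ContinuousMap.const _ (lam * mb)))) (1 * lam) v z x w ↔
      Sol (hopK K) lam (fun y => v y - mb) z x w := by
  unfold Sol
  refine and_congr_right fun hw => forall_congr' fun y => ?_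
  have e : ∀ y', hopK ((1 : ℝ) • (K - ContinuousMap.const _ (lam * mb))) (y - y') * w y' =
      hopK K (y - y') * w y' - (if y' = y then ((lam * mb : ℝ) : ℂ) * w y' else 0) := by
    intro y'
    rw [Pool.Agent.W338.WA.Aff.hopK_aff]
    by_cases h : y' = y
    · subst h
      rw [sub_self, if_pos rfl, if_pos rfl]
      push_cast
      ring
    · have h2 : ¬ (y - y' = 0) := fun h3 => h (sub_eq_zero.1 h3).symm
      rw [if_neg h2, if_neg h]
      push_cast
      ring
  have hs2 : Summable (fun y' => if y' = y then ((lam * mb : ℝ) : ℂ) * w y' else 0) :=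
    summable_of_ne_finset_zero (s := {y}) fun b hb => by
      rw [if_neg (fun h => hb (Finset.mem_singleton.2 h))]
  rw [tsum_congr e, (Pool.Agent.W338.WA.Aff.summable_conv K w hw y).tsum_sub hs2, tsum_ite_eq]
  have e2 : ∑' y', hopK K (y - y') * w y' - ((lam * mb : ℝ) : ℂ) * w y
        + ((1 * lam * v y : ℝ) : ℂ) * w y - z * w y
      = ∑' y', hopK K (y - y') * w y' + ((lam * (v y - mb) : ℝ) : ℂ) * w y - z * w y := by
    push_cast
    ring
  rw [e2]

theorem ACIK_shift (hAf : S_AFF) {d : ℕ} {K : C(UnitAddTorus (Fin d), ℝ)} {lam mb : ℝ}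
    {v : (Fin d → ℤ) → ℝ} {a b : ℝ} (h : ACIK K lam (fun y => v y - mb) a b) :
    ACIK K lam v (lam * mb + a) (lam * mb + b) := by
  have h1 : ACIK ((1 : ℝ) • (K - ContinuousMap.const _ (lam * mb))) (1 * lam) v a b := by
    intro x
    obtain ⟨μ, g, h1, h2, h3⟩ := h x
    refine ⟨μ, g, h1, fun z hz => ?_, h3⟩
    obtain ⟨⟨w, hw⟩, h4⟩ := h2 z hz
    exact ⟨⟨w, (sol_shift K lam mb v z x w).2 hw⟩,
      fun w' hw' => h4 w' ((sol_shift K lam mb v z x w').1 hw')⟩
  have h2 := hAf d K 1 (lam * mb) lam a b v one_pos h1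
  simpa using h2

/-- Change of the law. -/
theorem ae_map_law {d : ℕ} (ν : Measure ℝ) [IsProbabilityMeasure ν] {f : ℝ → ℝ}
    (hf : Measurable f) [IsProbabilityMeasure (ν.map f)] {p : ((Fin d → ℤ) → ℝ) → Prop}
    (h : ∀ᵐ v ∂(Pn (ν.map f) (Fin d → ℤ)), p v) :
    ∀ᵐ v ∂(Pn ν (Fin d → ℤ)), p fun x => f (v x) := by
  have e : (Pn ν (Fin d → ℤ)).map (fun v x => f (v x)) = Pn (ν.map f) (Fin d → ℤ) := by
    unfold Pn
    exact Measure.infinitePi_map_pi (μ := fun _ : Fin d → ℤ => ν) (f := fun _ => f) fun _ => hf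
  rw [← e] at h
  have hm : Measurable fun (v : (Fin d → ℤ) → ℝ) (x : Fin d → ℤ) => f (v x) :=
    measurable_pi_lambda _ fun x => hf.comp (measurable_pi_apply x)
  exact ae_of_ae_map hm.aemeasurable h

end

end Pool.Agent.N659.HB
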