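import Pool.Agent.N659.HB.FinK
import Pool.Agent.N659.HB.Stm4

/-!
Project KG: assembly of the theorem for Gaussian disorder.
-/

set_option autoImplicit false

namespace Pool.Agent.N659.HB

open MeasureTheory Filter Pool.Agent.W792.LL Pool.Agent.W792.WA ProbabilityTheory
open scoped Topology ENNReal

noncomputable section

/-- From the gap for the first level to absolutely continuous spectrum, any kinetic energy. -/
theorem of_gapK (hC : S_CHK) (hAe : S_AEQK) (hAf : S_AFF) {ψ : C(UnitAddCircle, ℝ)} (hψ : IsSemi ψ)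
    {d : ℕ} (hd : 0 < d) (K₀ : C(UnitAddTorus (Fin d), ℝ))
    (ν₁ : Measure ℝ) [IsProbabilityMeasure ν₁] (γ lam l m : ℝ)
    [IsProbabilityMeasure (ν₁.map fun x => (γ * lam) * x)] (hγ : 0 < γ) (hlam : 0 < lam)
    (hl : 0 < l) (hvr : 0 < vr (ν₁.map fun x => (γ * lam) * x)) {σ : ℝ} (hσ : 0 < σ)
    (hgap : ∀ (ρ' : Measure ℝ) [IsProbabilityMeasure ρ'],
      ρ' (Set.Icc (-((γ * l) / 8)) ((γ * l) / 8))ᶜ = 0 →
      ∀ z ∈ Zs d, ∀ s, IsFix (ν₁.map fun x => (γ * lam) * x) ((lev ψ (γ * l)).conv ρ')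
        (wz (γ • (K₀ - ContinuousMap.const _ m)) z) s → ‖s‖ ≤ 1 - σ) :
    ∃ b : C(ℝ, ℝ), IsSum ψ (2 * l) b ∧
      ∀ᵐ v ∂(Pn ν₁ (Fin d → ℤ)), ACIK (K₀ + gK b d) lam v m (m + 4 * d / γ) := by
  obtain ⟨f, hf, hM⟩ := hC ψ hψ d (ν₁.map fun x => (γ * lam) * x)
    (γ • (K₀ - ContinuousMap.const _ m)) (γ * l) σ hd hvr (by positivity) hσ hgap
  refine ⟨γ⁻¹ • f, ?_, ?_⟩
  · obtain ⟨l', M', h1, h2, h3, h4⟩ := hf
    refine ⟨fun j => γ⁻¹ * l' j, M', fun j => by have := h1 j; positivity, h2.mul_left _, ?_,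
      fun t => ?_⟩
    · rw [tsum_mul_left]
      calc γ⁻¹ * ∑' j, l' j ≤ γ⁻¹ * (2 * (γ * l)) := mul_le_mul_of_nonneg_left h3 (by positivity)
        _ = 2 * l := by field_simp
    · rw [ContinuousMap.smul_apply, smul_eq_mul, h4, ← tsum_mul_left]
      exact tsum_congr fun j => by ring
  · have hkey : (γ • (K₀ - ContinuousMap.const _ m) + gK f d : C(UnitAddTorus (Fin d), ℝ)) =
        γ • ((K₀ + gK (γ⁻¹ • f) d) - ContinuousMap.const _ m) := by
      ext k
      simp only [ContinuousMap.add_apply, ContinuousMap.smul_apply, ContinuousMap.sub_apply,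
        ContinuousMap.const_apply, smul_eq_mul, gK, ContinuousMap.comp_apply]
      field_simp
      ring
    filter_upwards [hAe d ν₁ (γ * lam) _ hd (by positivity) hM] with v hv
    rw [hkey] at hv
    have h3 := hAf d (K₀ + gK (γ⁻¹ • f) d) γ m lam 0 (4 * d) v hγ hv
    have h4 : m + 0 / γ = m := by simp
    rw [h4] at h3
    exact h3

theorem wl_neg (l x : ℝ) : wl l (-x) = wl l x := by
  unfold wl
  rw [abs_neg]

/-- The scaled facts for the adjacency operator. -/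
theorem scaled_factsA {d : ℕ} {γ l al m E' E₀ B1 B2 c ρ D : ℝ} (hγ : 0 < γ)
    (hE : E' = γ * (E₀ - m)) (hal : 0 ≤ al)
    (h1 : (∫ k : UnitAddTorus (Fin d), wl l (lap d k - (2 * d - E₀))) ≤ B1)
    (h2 : (∫ k : UnitAddTorus (Fin d), wl l (lap d k - (2 * d - E₀)) ^ 2) ≤ B2)
    (h3 : c * (ρ / γ) ≤ dos d (2 * d - E₀) (ρ / γ)) (h4 : ∀ k, |lap d k - (2 * d - E₀)| ≤ D) :
    (∀ k, |(γ • (adjm d - ContinuousMap.const _ m) : C(UnitAddTorus (Fin d), ℝ)) k - E'|
      ≤ γ * D) ∧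
    al * (∫ k : UnitAddTorus (Fin d),
      wl (γ * l) ((γ • (adjm d - ContinuousMap.const _ m) : C(UnitAddTorus (Fin d), ℝ)) k - E'))
      ≤ al / γ * B1 ∧
    al ^ 2 * (∫ k : UnitAddTorus (Fin d),
      wl (γ * l) ((γ • (adjm d - ContinuousMap.const _ m) : C(UnitAddTorus (Fin d), ℝ)) k - E') ^ 2)
      ≤ (al / γ) ^ 2 * B2 ∧
    (al / γ * c) * ρ ≤ al * dosK (γ • (adjm d - ContinuousMap.const _ m)) E' ρ := by
  have e : ∀ k, (γ • (adjm d - ContinuousMap.const _ m) : C(UnitAddTorus (Fin d), ℝ)) k - E'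
      = γ * (-(lap d k - (2 * d - E₀))) := by
    intro k
    simp only [adjm, ContinuousMap.smul_apply, ContinuousMap.sub_apply, ContinuousMap.const_apply,
      smul_eq_mul]
    rw [hE]; ring
  refine ⟨fun k => ?_, ?_, ?_, ?_⟩
  · rw [e, abs_mul, abs_of_pos hγ, abs_neg]
    exact mul_le_mul_of_nonneg_left (h4 k) hγ.le
  · simp only [e, wl_scale hγ, wl_neg]
    rw [integral_const_mul]
    calc al * (1 / γ * ∫ k : UnitAddTorus (Fin d), wl l (lap d k - (2 * d - E₀)))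
        = al / γ * ∫ k : UnitAddTorus (Fin d), wl l (lap d k - (2 * d - E₀)) := by ring
      _ ≤ al / γ * B1 := by gcongr
  · simp only [e, wl_scale hγ, wl_neg, mul_pow]
    rw [integral_const_mul]
    calc al ^ 2 * ((1 / γ) ^ 2 * ∫ k : UnitAddTorus (Fin d), wl l (lap d k - (2 * d - E₀)) ^ 2)
        = (al / γ) ^ 2 * ∫ k : UnitAddTorus (Fin d), wl l (lap d k - (2 * d - E₀)) ^ 2 := by ring
      _ ≤ (al / γ) ^ 2 * B2 := by gcongr
  · have e2 : dosK (γ • (adjm d - ContinuousMap.const _ m)) E' ρ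
        = dos d (2 * d - E₀) (ρ / γ) := by
      unfold dosK dos
      congr 2
      ext k
      simp only [Set.mem_ofPred_eq, e, abs_mul, abs_of_pos hγ, abs_neg]
      rw [le_div_iff₀' hγ]
    rw [e2]
    calc al / γ * c * ρ = al * (c * (ρ / γ)) := by ring
      _ ≤ al * dos d (2 * d - E₀) (ρ / γ) := mul_le_mul_of_nonneg_left h3 hal

/-- The theorem for Gaussian disorder. -/
theorem kg (hG : S_GAPH) (hT : S_TRG) (hI : S_INT3) (hL : S_D3L) (hN : S_ASYG) (hC : S_CHK)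
    (hAe : S_AEQK) (hAf : S_AFF) (hW : S_WS)
    (hψ : ∃ ψ : C(UnitAddCircle, ℝ), IsSemi ψ ∧ ∀ d : ℕ, 0 < d → ∃ C : ℝ, 0 < C ∧
      ∀ (M : ℕ) (x : Fin d → ℤ),
      ‖UnitAddTorus.mFourierCoeff (fun k : UnitAddTorus (Fin d) =>
        ((ψ ((M * lap d k / (2 * Real.pi) : ℝ) : UnitAddCircle) : ℝ) : ℂ)) x‖
        ≤ C / (1 + ‖x‖) ^ ((d : ℝ) / 3)) : S_KG := by
  intro d hd
  have hd0 : 0 < d := by omega
  have hd1 : (0 : ℝ) < d := by exact_mod_cast hd0
  obtain ⟨ψ, hψ1, hψ2⟩ := hψ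
  obtain ⟨Cd, hCd, hCd1⟩ := hψ2 d hd0
  refine ⟨Cd, hCd, fun a ha ha2 => ?_⟩
  set a' : ℝ := (a + 2 * d) / 2 with ha'
  have ha'1 : a ≤ a' := by rw [ha']; linarith
  have ha'2 : a' < 2 * d := by rw [ha']; linarith
  have ha'0 : 0 < a' := by linarith
  set γ : ℝ := 2 * d / a' with hγdef
  have hγ : 0 < γ := by positivity
  have hγ1 : 1 ≤ γ := by rw [hγdef, le_div_iff₀ ha'0]; linarith
  obtain ⟨CI, hCI, hI1⟩ := hI d hd
  obtain ⟨c, hc, hL1⟩ := hL d (2 * d - a') (2 * d + a') hd0 (by linarith) (by linarith)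
  obtain ⟨sg₀, hl0, hl1, hlam⟩ := hN γ CI c (γ * (4 * d)) hγ hCI hc (by positivity)
  refine ⟨sg₀, hl0, hl1, fun sg hp hle => ?_⟩
  obtain ⟨hL3, hn1, hs₂⟩ := hlam sg hp hle
  set L : ℝ := Real.log (1 / sg) with hLdef
  have hgs : 0 < γ * sg := by positivity
  obtain ⟨X, X', hX1, hX2, hX3, hX4, hX5, hX6, hX7⟩ := hT (γ * sg) L hgs hL3
  obtain ⟨n, hNH⟩ := hs₂ _ hX6 hX7
  set l : ℝ := sg ^ 2 * L ^ 10 / 2 with hl
  have hlpos : 0 < l := (mul_pos_iff_of_pos_left hγ).1 hNH.hr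
  have h2l : 2 * l = sg ^ 2 * L ^ 10 := by rw [hl]; ring
  set m : ℝ := -a' with hm
  have hal : γ * sg * L = (γ * sg) * L := by ring
  have hfacts : ∀ E : ℝ, 0 ≤ E → E ≤ 4 * d →
      (∀ k, |(γ • (adjm d - ContinuousMap.const _ m) : C(UnitAddTorus (Fin d), ℝ)) k - E|
        ≤ γ * (4 * d)) ∧
      (γ * sg * L) * (∫ k : UnitAddTorus (Fin d), wl (γ * l)
        ((γ • (adjm d - ContinuousMap.const _ m) : C(UnitAddTorus (Fin d), ℝ)) k - E))
        ≤ 2 * L * sg * CI * Real.log (1 / l) / 2 ∧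
      (γ * sg * L) ^ 2 * (∫ k : UnitAddTorus (Fin d), wl (γ * l)
        ((γ • (adjm d - ContinuousMap.const _ m) : C(UnitAddTorus (Fin d), ℝ)) k - E) ^ 2)
        ≤ (L * sg) ^ 2 * (CI / l) ∧
      ∀ ρ : ℝ, γ * l / 4 ≤ ρ → (ρ ≤ 1 ∨ ρ = γ * l / 4) → (L * sg * c) * ρ
        ≤ (γ * sg * L) * dosK (γ • (adjm d - ContinuousMap.const _ m)) E ρ := by
    intro E hE0 hE1
    have hE3 : E / γ ≤ 2 * a' := by
      rw [div_le_iff₀ hγ, hγdef]
      have : 2 * a' * (2 * d / a') = 4 * d := by field_simp; ring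
      rw [this]
      exact hE1
    have hE4 : 0 ≤ E / γ := by positivity
    have hEe : E = γ * ((m + E / γ) - m) := by field_simp; ring
    have hEa : 2 * d - a' ≤ 2 * d - (m + E / γ) := by rw [hm]; linarith
    have hEb : 2 * d - (m + E / γ) ≤ 2 * d + a' := by rw [hm]; linarith
    have hIE := hI1 l (2 * d - (m + E / γ)) hlpos hn1 (by linarith) (by linarith)
    have hD4 : ∀ k, |lap d k - (2 * d - (m + E / γ))| ≤ 4 * d := by
      intro k
      have := lap_mem d k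
      rw [abs_le]
      constructor <;> linarith [this.1, this.2]
    have hdl : ∀ ρ : ℝ, γ * l / 4 ≤ ρ → (ρ ≤ 1 ∨ ρ = γ * l / 4) →
        c * (ρ / γ) ≤ dos d (2 * d - (m + E / γ)) (ρ / γ) := by
      intro ρ h1 h2
      have hρ : 0 < ρ := lt_of_lt_of_le (by positivity) h1
      have hρ1 : ρ / γ ≤ 1 := by
        rw [div_le_one hγ]
        rcases h2 with h2 | h2
        · linarith
        · rw [h2]
          nlinarith
      exact hL1 (2 * d - (m + E / γ)) (ρ / γ) hEa hEb (by positivity) hρ1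
    have hL0 : 0 ≤ L := by linarith
    have hsc := fun (ρ : ℝ) (h1 : γ * l / 4 ≤ ρ) (h2 : ρ ≤ 1 ∨ ρ = γ * l / 4) =>
      scaled_factsA (d := d) (m := m) (al := γ * sg * L) hγ hEe (by positivity) hIE.1 hIE.2
        (hdl ρ h1 h2) hD4
    have hsc0 := hsc (γ * l / 4) le_rfl (Or.inr rfl)
    have e1 : γ * sg * L / γ = L * sg := by field_simp
    refine ⟨hsc0.1, ?_, ?_, fun ρ h1 h2 => ?_⟩
    · refine hsc0.2.1.trans (le_of_eq ?_)
      rw [e1]; ring
    · refine hsc0.2.2.1.trans (le_of_eq ?_)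
      rw [e1]
    · have := (hsc ρ h1 h2).2.2.2
      rw [e1] at this
      exact this
  obtain ⟨σ, hσ, hgap⟩ := hG ψ hψ1 X X' d n
    (γ • (adjm d - ContinuousMap.const _ m)) _ _ _ _ _ _ _ _ _ hNH hX3 hX2 hX4 hX5 rfl hfacts
  have hm2 : Measurable fun x : ℝ => (γ * sg) * x := by fun_prop
  have hP2 : IsProbabilityMeasure ((gaussianReal 0 1).map fun x => (γ * sg) * x) :=
    Measure.isProbabilityMeasure_map hm2.aemeasurable
  have hmap : ((gaussianReal 0 1).map fun x => (γ * sg) * x) = qlaw X := by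
    rw [hX1]
    have h := gaussianReal_map_const_mul (μ := 0) (v := 1) (γ * sg)
    rw [mul_zero, mul_one] at h
    exact h
  have hgap' : ∀ (μ : Measure ℝ) [IsProbabilityMeasure μ], μ = qlaw X →
      ∀ (ρ' : Measure ℝ) [IsProbabilityMeasure ρ'],
      ρ' (Set.Icc (-((γ * l) / 8)) ((γ * l) / 8))ᶜ = 0 →
      ∀ z ∈ Zs d, ∀ s, IsFix μ ((lev ψ (γ * l)).conv ρ')
        (wz (γ • (adjm d - ContinuousMap.const _ m)) z) s → ‖s‖ ≤ 1 - σ := by
    intro μ _ hμ ρ' _ hρ z hz s' hs'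
    subst hμ
    exact hgap ρ' hρ z hz s' hs'
  obtain ⟨b, hb1', hb2⟩ := of_gapK hC hAe hAf hψ1 hd0 (adjm d) (gaussianReal 0 1) γ sg l m hγ hp
    hlpos (by rw [hmap]; exact hX2) hσ (hgap' _ hmap)
  set f : C(ℝ, ℝ) := ⟨fun t => 2 * (d : ℝ) - t, by fun_prop⟩ with hf
  refine ⟨b.comp f, fun t => ?_, fun x => ?_, ?_⟩
  · rw [← h2l]
    exact G16.IsSum.bound hψ1.bound hb1' _
  · have h1 := hW d ψ Cd (2 * l) b hd0 hCd.le (by positivity) hCd1 hb1' x
    have e : (fun k : UnitAddTorus (Fin d) => (((b.comp f) (adjm d k) : ℝ) : ℂ))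
        = fun k => ((b (lap d k) : ℝ) : ℂ) := by
      funext k
      have : f (adjm d k) = lap d k := by
        simp only [hf, adjm, ContinuousMap.coe_mk, ContinuousMap.sub_apply,
          ContinuousMap.const_apply]
        ring
      rw [ContinuousMap.comp_apply, this]
    rw [e]
    refine h1.trans (le_of_eq ?_)
    rw [h2l]; ring
  · have e3 : m + 4 * d / γ = a' := by
      rw [hγdef, hm]; field_simp; ring
    have e4 : (b.comp f).comp (adjm d) = gK b d := by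
      ext k
      have : f (adjm d k) = lap d k := by
        simp only [hf, adjm, ContinuousMap.coe_mk, ContinuousMap.sub_apply,
          ContinuousMap.const_apply]
        ring
      simp only [gK, ContinuousMap.comp_apply]
      rw [← this]
    rw [e4]
    filter_upwards [hb2] with v hv
    rw [e3] at hv
    exact ACIK_mono hv (by rw [hm]; linarith) (by linarith)

end

end Pool.Agent.N659.HB
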