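import Pool.Agent.N659.HB.FinK

/-!
Project HB: assembly of the theorem in high dimension.
-/

set_option autoImplicit false

namespace Pool.Agent.N659.HB

open MeasureTheory Filter Pool.Agent.W792.LL Pool.Agent.W792.WA
open scoped Topology ENNReal

noncomputable section

theorem tp_map (γ : ℝ) : ((tp 1).map fun x => γ * x) = tp γ := by
  have hm : Measurable fun x : ℝ => γ * x := by fun_prop
  unfold tp
  have h1 : Measure.map (fun x : ℝ => γ * x) (Measure.dirac 1) = Measure.dirac γ := by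
    rw [Measure.map_dirac' hm, mul_one]
  have h2 : Measure.map (fun x : ℝ => γ * x) (Measure.dirac (-1)) = Measure.dirac (-γ) := by
    rw [Measure.map_dirac' hm, mul_neg, mul_one]
  rw [Measure.map_add _ _ hm, Measure.map_smul, Measure.map_smul, h1, h2]

theorem tp_ae {α : ℝ} {p : ℝ → Prop} (hp : MeasurableSet {x | p x}) (h1 : p α) (h2 : p (-α)) :
    ∀ᵐ x ∂(tp α), p x := by
  unfold tp
  rw [ae_add_measure_iff]
  constructor
  · refine Measure.ae_smul_measure ?_ _
    rw [ae_dirac_iff hp]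
    exact h1
  · refine Measure.ae_smul_measure ?_ _
    rw [ae_dirac_iff hp]
    exact h2

theorem tp_int {α : ℝ} (f : ℝ → ℝ) : ∫ x, f x ∂(tp α) = (f α + f (-α)) / 2 := by
  have h1 : Integrable f ((1 / 2 : ℝ≥0∞) • Measure.dirac α) :=
    (integrable_dirac (by simp)).smul_measure (by simp)
  have h2 : Integrable f ((1 / 2 : ℝ≥0∞) • Measure.dirac (-α)) :=
    (integrable_dirac (by simp)).smul_measure (by simp)
  unfold tp
  rw [integral_add_measure h1 h2, integral_smul_measure, integral_smul_measure, integral_dirac,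
    integral_dirac]
  simp
  ring

theorem tp_atom {α : ℝ} (hα : 0 < α) (a : ℝ) : tp α {a} < 1 := by
  unfold tp
  rw [Measure.add_apply, Measure.smul_apply, Measure.smul_apply,
    Measure.dirac_apply' _ (measurableSet_singleton a),
    Measure.dirac_apply' _ (measurableSet_singleton a)]
  by_cases h1 : α = a
  · have h2 : ¬ (-α = a) := by
      intro h
      linarith
    simp only [smul_eq_mul]
    rw [Set.indicator_of_mem (by simp [h1]), Set.indicator_of_notMem (by simpa using h2)]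
    simp
  · simp only [smul_eq_mul]
    rw [Set.indicator_of_notMem (by simpa using h1)]
    by_cases h2 : -α = a
    · rw [Set.indicator_of_mem (by simp [h2])]
      simp
    · rw [Set.indicator_of_notMem (by simpa using h2)]
      simp

/-- The theorem in high dimension. -/
theorem hbl (hG : S_GAPG) (hI : S_INT) (hL : S_DOSL) (hN : S_ASYH) (hC : S_CHK) (hAe : S_AEQK)
    (hAf : S_AFF) (hCay : S_CAY) (hW : S_WS)
    (hψ : ∃ ψ : C(UnitAddCircle, ℝ), IsSemi ψ ∧ ∀ d : ℕ, 0 < d → ∃ C : ℝ, 0 < C ∧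
      ∀ (M : ℕ) (x : Fin d → ℤ),
      ‖UnitAddTorus.mFourierCoeff (fun k : UnitAddTorus (Fin d) =>
        ((ψ ((M * lap d k / (2 * Real.pi) : ℝ) : UnitAddCircle) : ℝ) : ℂ)) x‖
        ≤ C / (1 + ‖x‖) ^ ((d : ℝ) / 3)) : S_HBL := by
  intro A hA
  obtain ⟨ψ, hψ1, hψ2⟩ := hψ
  obtain ⟨CI, d₁, hCI, hI1⟩ := hI
  obtain ⟨c, d₂, hc, hL1⟩ := hL A hA
  obtain ⟨d₃, hN1⟩ := hN A CI c hA hCI hc
  refine ⟨max (max d₁ d₂) (max d₃ 1), fun d hd => ?_⟩
  have hd1 : d₁ ≤ d := (le_max_left _ _).trans ((le_max_left _ _).trans hd)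
  have hd2 : d₂ ≤ d := (le_max_right _ _).trans ((le_max_left _ _).trans hd)
  have hd3 : d₃ ≤ d := (le_max_left _ _).trans ((le_max_right _ _).trans hd)
  have hd0 : 0 < d := lt_of_lt_of_le one_pos ((le_max_right _ _).trans ((le_max_right _ _).trans hd))
  have hdr : (0 : ℝ) < d := by exact_mod_cast hd0
  obtain ⟨Cd, hCd, hCd1⟩ := hψ2 d hd0
  obtain ⟨n, hn1, hn2, -, hn4, hNG⟩ := hN1 d hd3
  set s : ℝ := Real.sqrt d with hs
  have hs0 : 0 < s := Real.sqrt_pos.2 hdr
  have hss : s * s = d := Real.mul_self_sqrt hdr.le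
  set γ : ℝ := 2 * s / A with hγdef
  have hγ : 0 < γ := by positivity
  have hγ1 : 1 ≤ γ := by rw [hγdef, le_div_iff₀ hA]; linarith
  set l : ℝ := Real.log d ^ 4 / (2 * s) with hl
  have hgl : γ * l = Real.log d ^ 4 / A := by
    rw [hγdef, hl]; field_simp
  have hlpos : 0 < l := by
    have h := hNG.hr
    rw [← hgl] at h
    exact (mul_pos_iff_of_pos_left hγ).1 h
  have h2l : 2 * l = Real.log d ^ 4 / s := by rw [hl]; field_simp
  rw [← hgl] at hNG
  set m : ℝ := 2 * d - A * s with hm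
  have hg1 : γ * 1 = γ := mul_one γ
  have htp : ((tp 1).map fun x => (γ * 1) * x) = tp γ := by rw [hg1]; exact tp_map γ
  have hP2 : IsProbabilityMeasure ((tp 1).map fun x => (γ * 1) * x) := by
    rw [htp]; infer_instance
  have hbd : ∀ᵐ x ∂(tp γ), |x| ≤ γ :=
    tp_ae (measurableSet_le measurable_id.abs measurable_const) (abs_of_pos hγ).le
      (by rw [abs_neg]; exact (abs_of_pos hγ).le)
  have hmean : ∫ x, x ∂(tp γ) = 0 := by
    rw [tp_int]; ring
  have hsec : ∫ x, (x / γ) ^ 2 ∂(tp γ) = 1 := by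
    rw [tp_int (fun x => (x / γ) ^ 2)]
    field_simp
    norm_num
  have hvr : 0 < vr (tp γ) := Pool.Agent.W792.WA.Ch.vr_pos hCay _ (tp_atom hγ)
  have hfacts : ∀ E : ℝ, 0 ≤ E → E ≤ 4 * d →
      (∀ k, |(γ • (lap d - ContinuousMap.const _ m) : C(UnitAddTorus (Fin d), ℝ)) k - E|
        ≤ γ * (4 * d)) ∧
      γ * (∫ k : UnitAddTorus (Fin d), wl (γ * l)
        ((γ • (lap d - ContinuousMap.const _ m) : C(UnitAddTorus (Fin d), ℝ)) k - E))
        ≤ 2 * CI * Real.log d / s / 2 ∧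
      γ ^ 2 * (∫ k : UnitAddTorus (Fin d), wl (γ * l)
        ((γ • (lap d - ContinuousMap.const _ m) : C(UnitAddTorus (Fin d), ℝ)) k - E) ^ 2)
        ≤ CI / (l * s) ∧
      ∀ ρ : ℝ, γ * l / 4 ≤ ρ → (ρ ≤ 1 ∨ ρ = γ * l / 4) → (c / s) * ρ
        ≤ γ * dosK (γ • (lap d - ContinuousMap.const _ m)) E ρ := by
    intro E hE0 hE1
    have hE3 : E / γ ≤ 2 * (A * s) := by
      rw [div_le_iff₀ hγ, hγdef]
      have : 2 * (A * s) * (2 * s / A) = 4 * (s * s) := by field_simp; ring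
      rw [this, hss]
      exact hE1
    have hE4 : 0 ≤ E / γ := by positivity
    have hEe : E = γ * ((m + E / γ) - m) := by field_simp; ring
    have hAs : A * s ≤ 2 * d := by
      have := mul_le_mul_of_nonneg_right hn4 hs0.le
      nlinarith
    have hEa : 0 ≤ m + E / γ := by rw [hm]; linarith
    have hEb : m + E / γ ≤ 4 * d := by rw [hm]; linarith
    have hEc : |m + E / γ - 2 * d| ≤ A * s := by
      rw [hm, abs_le]
      constructor <;> linarith
    have hIE := hI1 d hd1 l (m + E / γ) hn1 hn2 hEa hEb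
    have hD4 : ∀ k, |lap d k - (m + E / γ)| ≤ 4 * d := by
      intro k
      have := lap_mem d k
      rw [abs_le]
      constructor <;> linarith [this.1, this.2]
    have hdl : ∀ ρ : ℝ, γ * l / 4 ≤ ρ → (ρ ≤ 1 ∨ ρ = γ * l / 4) →
        c / s * (ρ / γ) ≤ dos d (m + E / γ) (ρ / γ) := by
      intro ρ h1 h2
      have hρ : 0 < ρ := lt_of_lt_of_le (by positivity) h1
      have hρ1 : ρ / γ ≤ 1 := by
        rw [div_le_one hγ]
        rcases h2 with h2 | h2
        · linarith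
        · rw [h2]
          nlinarith
      have := hL1 d hd2 (m + E / γ) (ρ / γ) hEc (by positivity) hρ1
      refine le_trans (le_of_eq ?_) this
      ring
    have hsc := fun (ρ : ℝ) (h1 : γ * l / 4 ≤ ρ) (h2 : ρ ≤ 1 ∨ ρ = γ * l / 4) =>
      scaled_facts (d := d) (m := m) (al := γ) hγ hEe hγ.le hIE.1 hIE.2 (hdl ρ h1 h2) hD4
    have hsc0 := hsc (γ * l / 4) le_rfl (Or.inr rfl)
    have e1 : γ / γ = 1 := by field_simp
    refine ⟨hsc0.1, ?_, ?_, fun ρ h1 h2 => ?_⟩
    · refine hsc0.2.1.trans (le_of_eq ?_)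
      rw [e1]; ring
    · refine hsc0.2.2.1.trans (le_of_eq ?_)
      rw [e1]; ring
    · have := (hsc ρ h1 h2).2.2.2
      rw [e1] at this
      refine le_trans (le_of_eq ?_) this
      ring
  obtain ⟨σ, hσ, hgap⟩ := hG ψ hψ1 (tp γ) d n
    (γ • (lap d - ContinuousMap.const _ m)) _ _ _ _ _ _ _ _ hNG hbd hmean hsec hfacts
  have hgap' : ∀ (μ : Measure ℝ) [IsProbabilityMeasure μ], μ = tp γ →
      ∀ (ρ' : Measure ℝ) [IsProbabilityMeasure ρ'],
      ρ' (Set.Icc (-((γ * l) / 8)) ((γ * l) / 8))ᶜ = 0 →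
      ∀ z ∈ Zs d, ∀ s, IsFix μ ((lev ψ (γ * l)).conv ρ')
        (wz (γ • (lap d - ContinuousMap.const _ m)) z) s → ‖s‖ ≤ 1 - σ := by
    intro μ _ hμ ρ' _ hρ z hz s' hs'
    subst hμ
    exact hgap ρ' hρ z hz s' hs'
  obtain ⟨b, hb1', hb2⟩ := of_gap hC hAe hAf hψ1 hd0 (tp 1) γ 1 l m hγ one_pos hlpos
    (by rw [htp]; exact hvr) hσ (hgap' _ htp)
  refine ⟨b, fun t => ?_, ⟨2 * l * Cd, fun x => ?_⟩, ?_⟩
  · rw [← h2l]
    exact G16.IsSum.bound hψ1.bound hb1' t
  · exact hW d ψ Cd (2 * l) b hd0 hCd.le (by positivity) hCd1 hb1' x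
  · have e3 : m + 4 * d / γ = 2 * d + A * s := by
      have e4 : 4 * (d : ℝ) / γ = 2 * (A * s) := by
        rw [hγdef, div_div_eq_mul_div, ← hss]
        field_simp
        ring
      rw [e4, hm]
      ring
    rw [e3] at hb2
    exact hb2

end

end Pool.Agent.N659.HB
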