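import Pool.Agent.N659.HB.Fin0
import Pool.Agent.W792.WA.G9

/-!
Project KS: assembly of the theorem at weak disorder.
-/

set_option autoImplicit false

namespace Pool.Agent.N659.HB

open MeasureTheory Filter Pool.Agent.W792.LL Pool.Agent.W792.WA
open scoped Topology ENNReal

noncomputable section

theorem wl_scale {γ l : ℝ} (hγ : 0 < γ) (x : ℝ) : wl (γ * l) (γ * x) = (1 / γ) * wl l x := by
  unfold wl
  rw [abs_mul, abs_of_pos hγ]
  by_cases h : |x| ≤ 3 * l
  · rw [if_pos h, if_pos (by nlinarith)]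
    field_simp
  · rw [if_neg h, if_neg (fun h2 => h (by nlinarith))]
    field_simp

theorem lap_mem (d : ℕ) (k : UnitAddTorus (Fin d)) : 0 ≤ lap d k ∧ lap d k ≤ 4 * d := by
  have h : ∀ i, 0 ≤ 2 - 2 * (fourier 1 (k i)).re ∧ 2 - 2 * (fourier 1 (k i)).re ≤ (4 : ℝ) := by
    intro i
    have h1 : |(fourier 1 (k i)).re| ≤ 1 := by
      refine (Complex.abs_re_le_norm _).trans ?_
      rw [fourier_apply]
      exact (Circle.norm_coe _).le
    rw [abs_le] at h1
    constructor <;> linarith [h1.1, h1.2]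
  constructor
  · change 0 ≤ ∑ i, (2 - 2 * (fourier 1 (k i)).re)
    exact Finset.sum_nonneg fun i _ => (h i).1
  · change ∑ i, (2 - 2 * (fourier 1 (k i)).re) ≤ _
    refine (Finset.sum_le_sum fun i _ => (h i).2).trans ?_
    simp [mul_comm]

/-- The scaled facts. -/
theorem scaled_facts {d : ℕ} {γ l al m E' E₀ B1 B2 c ρ D : ℝ} (hγ : 0 < γ)
    (hE : E' = γ * (E₀ - m)) (hal : 0 ≤ al)
    (h1 : (∫ k : UnitAddTorus (Fin d), wl l (lap d k - E₀)) ≤ B1)
    (h2 : (∫ k : UnitAddTorus (Fin d), wl l (lap d k - E₀) ^ 2) ≤ B2)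
    (h3 : c * (ρ / γ) ≤ dos d E₀ (ρ / γ)) (h4 : ∀ k, |lap d k - E₀| ≤ D) :
    (∀ k, |(γ • (lap d - ContinuousMap.const _ m) : C(UnitAddTorus (Fin d), ℝ)) k - E'| ≤ γ * D) ∧
    al * (∫ k : UnitAddTorus (Fin d),
      wl (γ * l) ((γ • (lap d - ContinuousMap.const _ m) : C(UnitAddTorus (Fin d), ℝ)) k - E'))
      ≤ al / γ * B1 ∧
    al ^ 2 * (∫ k : UnitAddTorus (Fin d),
      wl (γ * l) ((γ • (lap d - ContinuousMap.const _ m) : C(UnitAddTorus (Fin d), ℝ)) k - E') ^ 2)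
      ≤ (al / γ) ^ 2 * B2 ∧
    (al / γ * c) * ρ ≤ al * dosK (γ • (lap d - ContinuousMap.const _ m)) E' ρ := by
  have e : ∀ k, (γ • (lap d - ContinuousMap.const _ m) : C(UnitAddTorus (Fin d), ℝ)) k - E'
      = γ * (lap d k - E₀) := by
    intro k
    simp only [ContinuousMap.smul_apply, ContinuousMap.sub_apply, ContinuousMap.const_apply,
      smul_eq_mul]
    rw [hE]; ring
  refine ⟨fun k => ?_, ?_, ?_, ?_⟩
  · rw [e, abs_mul, abs_of_pos hγ]
    exact mul_le_mul_of_nonneg_left (h4 k) hγ.le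
  · simp only [e, wl_scale hγ]
    rw [integral_const_mul]
    calc al * (1 / γ * ∫ k : UnitAddTorus (Fin d), wl l (lap d k - E₀))
        = al / γ * ∫ k : UnitAddTorus (Fin d), wl l (lap d k - E₀) := by ring
      _ ≤ al / γ * B1 := by gcongr
  · simp only [e, wl_scale hγ, mul_pow]
    rw [integral_const_mul]
    calc al ^ 2 * ((1 / γ) ^ 2 * ∫ k : UnitAddTorus (Fin d), wl l (lap d k - E₀) ^ 2)
        = (al / γ) ^ 2 * ∫ k : UnitAddTorus (Fin d), wl l (lap d k - E₀) ^ 2 := by ring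
      _ ≤ (al / γ) ^ 2 * B2 := by gcongr
  · have e2 : dosK (γ • (lap d - ContinuousMap.const _ m)) E' ρ = dos d E₀ (ρ / γ) := by
      unfold dosK dos
      congr 2
      ext k
      simp only [Set.mem_ofPred_eq, e, abs_mul, abs_of_pos hγ]
      rw [le_div_iff₀' hγ]
    rw [e2]
    calc al / γ * c * ρ = al * (c * (ρ / γ)) := by ring
      _ ≤ al * dos d E₀ (ρ / γ) := mul_le_mul_of_nonneg_left h3 hal

/-- The theorem at weak disorder. -/
theorem ks (hG : S_GAPG) (hI : S_INT3) (hL : S_D3L) (hN : S_ASYK) (hC : S_CHK) (hAe : S_AEQK)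
    (hAf : S_AFF) (hCay : S_CAY) (hW : S_WS)
    (hψ : ∃ ψ : C(UnitAddCircle, ℝ), IsSemi ψ ∧ ∀ d : ℕ, 0 < d → ∃ C : ℝ, 0 < C ∧
      ∀ (M : ℕ) (x : Fin d → ℤ),
      ‖UnitAddTorus.mFourierCoeff (fun k : UnitAddTorus (Fin d) =>
        ((ψ ((M * lap d k / (2 * Real.pi) : ℝ) : UnitAddCircle) : ℝ) : ℂ)) x‖
        ≤ C / (1 + ‖x‖) ^ ((d : ℝ) / 3)) : S_KS := by
  intro d hd
  have hd0 : 0 < d := by omega
  have hd1 : (0 : ℝ) < d := by exact_mod_cast hd0
  obtain ⟨ψ, hψ1, hψ2⟩ := hψ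
  obtain ⟨Cd, hCd, hCd1⟩ := hψ2 d hd0
  refine ⟨Cd, hCd, fun ν _ C₀ a₁ a₂ hb hat ha1 ha12 ha2 => ?_⟩
  have hC0 : 0 ≤ C₀ := by
    obtain ⟨x, hx⟩ := hb.exists
    exact (abs_nonneg x).trans hx
  set mb : ℝ := ∫ x, x ∂ν with hmb
  have hmb1 : |mb| ≤ C₀ := by
    have := norm_integral_le_of_norm_le_const (μ := ν) (f := fun x : ℝ => x) (C := C₀) hb
    simpa using this
  set C₁ : ℝ := 2 * C₀ + 1 with hC₁
  have hC1 : 0 < C₁ := by linarith
  have hb1 : ∀ᵐ x ∂ν, |x - mb| ≤ C₁ := by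
    filter_upwards [hb] with x hx
    have := abs_sub x mb
    linarith
  set s₂ : ℝ := ∫ x, ((x - mb) / C₁) ^ 2 ∂ν with hs₂
  have hint : Integrable (fun x : ℝ => ((x - mb) / C₁) ^ 2) ν := by
    refine Integrable.of_bound (C := 1) (by fun_prop) ?_
    filter_upwards [hb1] with x hx
    rw [Real.norm_eq_abs, abs_pow, abs_div, abs_of_pos hC1]
    exact pow_le_one₀ (by positivity) ((div_le_one hC1).2 hx)
  have hs1 : s₂ ≤ 1 := by
    have h := integral_mono_ae hint (integrable_const (1 : ℝ)) (by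
      filter_upwards [hb1] with x hx
      rw [← sq_abs, abs_div, abs_of_pos hC1]
      exact pow_le_one₀ (by positivity) ((div_le_one hC1).2 hx))
    simpa using h
  have hs0 : 0 < s₂ := by
    have h0 : 0 ≤ s₂ := integral_nonneg fun x => sq_nonneg _
    rcases h0.lt_or_eq with h | h
    · exact h
    · exfalso
      have h1 := (integral_eq_zero_iff_of_nonneg (μ := ν) (f := fun x : ℝ => ((x - mb) / C₁) ^ 2)
        (fun x => sq_nonneg _) hint).1 h.symm
      have h2 : ∀ᵐ x ∂ν, x = mb := by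
        filter_upwards [h1] with x hx
        simp only [Pi.zero_apply] at hx
        have := pow_eq_zero_iff (two_ne_zero) |>.1 hx
        rw [div_eq_zero_iff] at this
        rcases this with h3 | h3
        · linarith
        · linarith
      have h3 : ν {mb} = 1 := by
        rw [← prob_compl_eq_zero_iff (measurableSet_singleton mb)]
        exact ae_iff.1 h2
      have := hat mb
      rw [h3] at this
      exact lt_irrefl _ this
  set a₁' : ℝ := a₁ / 2 with ha₁'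
  set a₂' : ℝ := (a₂ + 4 * d) / 2 with ha₂'
  have ha' : 0 < a₂' - a₁' := by rw [ha₁', ha₂']; linarith
  have ha'' : a₂' - a₁' < 4 * d := by rw [ha₁', ha₂']; linarith
  set γ : ℝ := 4 * d / (a₂' - a₁') with hγdef
  have hγ : 0 < γ := by positivity
  have hγ1 : 1 ≤ γ := by rw [hγdef, le_div_iff₀ ha']; linarith
  obtain ⟨CI, hCI, hI1⟩ := hI d hd
  obtain ⟨c, hc, hL1⟩ := hL d a₁' a₂' hd0 (by rw [ha₁']; linarith) (by rw [ha₂']; linarith)
  obtain ⟨lam₀, hl0, hl1, hlam⟩ := hN γ C₁ CI c s₂ (γ * (4 * d)) hγ hC1 hCI hc hs0 hs1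
    (by positivity)
  set t : ℝ := min a₁ (4 * d - a₂) / (2 * (C₀ + 1)) with ht
  have hmin : 0 < min a₁ (4 * d - a₂) := lt_min ha1 (by linarith)
  have ht0 : 0 < t := by positivity
  refine ⟨min lam₀ t, lt_min hl0 ht0, (min_le_left _ _).trans_lt hl1, fun lam hp hle => ?_⟩
  obtain ⟨n, hn1, hNG⟩ := hlam lam hp (hle.trans (min_le_left _ _))
  set l : ℝ := lam ^ 2 * Real.log (1 / lam) ^ 4 / 2 with hl
  have hlpos : 0 < l := (mul_pos_iff_of_pos_left hγ).1 hNG.hr
  have h2l : 2 * l = lam ^ 2 * Real.log (1 / lam) ^ 4 := by rw [hl]; ring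
  -- laws
  have hm1 : Measurable fun x : ℝ => x - mb := by fun_prop
  have hm2 : Measurable fun x : ℝ => (γ * lam) * x := by fun_prop
  have hP1 : IsProbabilityMeasure (ν.map fun x => x - mb) :=
    Measure.isProbabilityMeasure_map hm1.aemeasurable
  set ν₁ : Measure ℝ := ν.map fun x => x - mb with hν₁
  have hP2 : IsProbabilityMeasure (ν₁.map fun x => (γ * lam) * x) :=
    Measure.isProbabilityMeasure_map hm2.aemeasurable
  have e12 : (ν₁.map fun x => (γ * lam) * x) = ν.map fun x => (γ * lam) * (x - mb) := by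
    rw [hν₁, Measure.map_map hm2 hm1]
    rfl
  have hm3 : Measurable fun x : ℝ => (γ * lam) * (x - mb) := by fun_prop
  have hgl : 0 < γ * lam := by positivity
  have hbd : ∀ᵐ x ∂(ν₁.map fun x => (γ * lam) * x), |x| ≤ γ * C₁ * lam := by
    rw [e12]
    refine (ae_map_iff (p := fun x => |x| ≤ γ * C₁ * lam) hm3.aemeasurable
      (measurableSet_le measurable_id.abs measurable_const)).2 ?_
    filter_upwards [hb1] with x hx
    rw [abs_mul, abs_of_pos hgl]
    calc γ * lam * |x - mb| ≤ γ * lam * C₁ := by gcongr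
      _ = γ * C₁ * lam := by ring
  have hintx : Integrable (fun x : ℝ => x) ν :=
    Integrable.of_bound (C := C₀) (by fun_prop) hb
  have hmean : ∫ x, x ∂(ν₁.map fun x => (γ * lam) * x) = 0 := by
    rw [e12, integral_map hm3.aemeasurable (by fun_prop), integral_const_mul,
      integral_sub hintx (integrable_const _)]
    simp [← hmb]
  have hsec : ∫ x, (x / (γ * C₁ * lam)) ^ 2 ∂(ν₁.map fun x => (γ * lam) * x) = s₂ := by
    rw [e12, integral_map hm3.aemeasurable (by fun_prop), hs₂]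
    congr 1
    funext x
    congr 1
    field_simp
  have hatom : ∀ a : ℝ, (ν₁.map fun x => (γ * lam) * x) {a} < 1 := by
    intro a
    rw [e12, Measure.map_apply hm3 (measurableSet_singleton a)]
    have e : (fun x : ℝ => (γ * lam) * (x - mb)) ⁻¹' {a} = {a / (γ * lam) + mb} := by
      ext x
      simp only [Set.mem_preimage, Set.mem_singleton_iff]
      rw [← sub_eq_iff_eq_add, eq_div_iff hgl.ne', mul_comm]
    rw [e]
    exact hat _
  have hvr : 0 < vr (ν₁.map fun x => (γ * lam) * x) :=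
    Pool.Agent.W792.WA.Ch.vr_pos hCay _ hatom
  have hfacts : ∀ E : ℝ, 0 ≤ E → E ≤ 4 * d →
      (∀ k, |(γ • (lap d - ContinuousMap.const _ a₁') : C(UnitAddTorus (Fin d), ℝ)) k - E|
        ≤ γ * (4 * d)) ∧
      (γ * C₁ * lam) * (∫ k : UnitAddTorus (Fin d), wl (γ * l)
        ((γ • (lap d - ContinuousMap.const _ a₁') : C(UnitAddTorus (Fin d), ℝ)) k - E))
        ≤ 2 * C₁ * lam * CI * Real.log (1 / l) / 2 ∧
      (γ * C₁ * lam) ^ 2 * (∫ k : UnitAddTorus (Fin d), wl (γ * l)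
        ((γ • (lap d - ContinuousMap.const _ a₁') : C(UnitAddTorus (Fin d), ℝ)) k - E) ^ 2)
        ≤ (C₁ * lam) ^ 2 * (CI / l) ∧
      ∀ ρ : ℝ, γ * l / 4 ≤ ρ → (ρ ≤ 1 ∨ ρ = γ * l / 4) → (C₁ * lam * c) * ρ
        ≤ (γ * C₁ * lam) * dosK (γ • (lap d - ContinuousMap.const _ a₁')) E ρ := by
    intro E hE0 hE1
    have hE3 : E / γ ≤ a₂' - a₁' := by
      rw [div_le_iff₀ hγ, hγdef]
      field_simp
      linarith
    have hE4 : 0 ≤ E / γ := by positivity
    have hEe : E = γ * ((a₁' + E / γ) - a₁') := by field_simp; ring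
    have hEa : 0 ≤ a₁' + E / γ := by
      have : 0 < a₁' := by rw [ha₁']; linarith
      linarith
    have hEb : a₁' + E / γ ≤ 4 * d := by
      have : a₂' < 4 * d := by rw [ha₂']; linarith
      linarith
    have hIE := hI1 l (a₁' + E / γ) hlpos hn1 hEa hEb
    have hD4 : ∀ k, |lap d k - (a₁' + E / γ)| ≤ 4 * d := by
      intro k
      have := lap_mem d k
      rw [abs_le]
      constructor <;> linarith [this.1, this.2]
    have hdl : ∀ ρ : ℝ, γ * l / 4 ≤ ρ → (ρ ≤ 1 ∨ ρ = γ * l / 4) →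
        c * (ρ / γ) ≤ dos d (a₁' + E / γ) (ρ / γ) := by
      intro ρ h1 h2
      have hρ : 0 < ρ := lt_of_lt_of_le (by positivity) h1
      have hρ1 : ρ / γ ≤ 1 := by
        rw [div_le_one hγ]
        rcases h2 with h2 | h2
        · linarith
        · rw [h2]
          nlinarith
      exact hL1 (a₁' + E / γ) (ρ / γ) (by linarith) (by linarith) (by positivity) hρ1
    have hsc := fun (ρ : ℝ) (h1 : γ * l / 4 ≤ ρ) (h2 : ρ ≤ 1 ∨ ρ = γ * l / 4) =>
      scaled_facts (d := d) (m := a₁') (al := γ * C₁ * lam) hγ hEe (by positivity) hIE.1 hIE.2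
        (hdl ρ h1 h2) hD4
    have hsc0 := hsc (γ * l / 4) le_rfl (Or.inr rfl)
    have e1 : γ * C₁ * lam / γ = C₁ * lam := by field_simp
    refine ⟨hsc0.1, ?_, ?_, fun ρ h1 h2 => ?_⟩
    · refine hsc0.2.1.trans (le_of_eq ?_)
      rw [e1]; ring
    · refine hsc0.2.2.1.trans (le_of_eq ?_)
      rw [e1]
    · have := (hsc ρ h1 h2).2.2.2
      rw [e1] at this
      exact this
  obtain ⟨σ, hσ, hgap⟩ := hG ψ hψ1 (ν₁.map fun x => (γ * lam) * x) d n
    (γ • (lap d - ContinuousMap.const _ a₁')) _ _ _ _ _ _ _ _ hNG hbd hmean hsec hfacts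
  obtain ⟨b, hb1', hb2⟩ := of_gap hC hAe hAf hψ1 hd0 ν₁ γ lam l a₁' hγ hp hlpos hvr hσ hgap
  refine ⟨b, fun t => ?_, fun x => ?_, ?_⟩
  · rw [← h2l]
    exact G16.IsSum.bound hψ1.bound hb1' t
  · have h1 := hW d ψ Cd (2 * l) b hd0 hCd.le (by positivity) hCd1 hb1' x
    refine h1.trans (le_of_eq ?_)
    rw [h2l]; ring
  · have h1 := ae_map_law ν hm1 hb2
    have e3 : a₁' + 4 * d / γ = a₂' := by
      rw [hγdef]; field_simp; ring
    filter_upwards [h1] with v hv
    have h2 := ACIK_shift hAf hv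
    rw [e3] at h2
    have h3 : |lam * mb| ≤ min a₁ (4 * d - a₂) / 2 := by
      rw [abs_mul, abs_of_pos hp]
      have h4 : lam ≤ t := hle.trans (min_le_right _ _)
      calc lam * |mb| ≤ t * (C₀ + 1) := by
            apply mul_le_mul h4 (by linarith) (abs_nonneg _) ht0.le
        _ = _ := by rw [ht]; field_simp
    have h4 := min_le_left a₁ (4 * d - a₂)
    have h5 := min_le_right a₁ (4 * d - a₂)
    rw [abs_le] at h3
    refine ACIK_mono h2 ?_ ?_
    · rw [ha₁']; linarith [h3.2]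
    · rw [ha₂']; linarith [h3.1]

end

end Pool.Agent.N659.HB
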