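import Pool.Agent.N659.HB.Stm3

/-!
Statements of the parts of the project NP: arbitrary disorder strength, one law, perturbations of
the kinetic energy small in `L^p`, `p < 2`.
-/

namespace Pool.Agent.N659.HB

open MeasureTheory Filter Pool.Agent.W792.LL Pool.Agent.W792.WA
open scoped Topology ENNReal

noncomputable section

/-- `S_STEP` for any level function. -/
def S_STEPL1 : Prop :=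
  ∀ (ν : Measure ℝ) [IsProbabilityMeasure ν] (d : ℕ) (ψ : C(UnitAddCircle, ℝ))
    (ρ : Measure ℝ) [IsProbabilityMeasure ρ] (C σ l : ℝ) (K : C(UnitAddTorus (Fin d), ℝ)),
    0 < d → IsLv ψ → 0 < vr ν → ρ (Set.Icc (-C) C)ᶜ = 0 → (∀ a b : ℝ, ρ {a, b} < 1) →
    0 < l → 0 < σ → (∀ z ∈ Zs d, ∀ s, IsFix ν ((lev ψ l).conv ρ) (wz K z) s → ‖s‖ ≤ 1 - σ) →
    ∀ e : ℝ, 0 < e → ∃ M₀ : ℕ, ∀ M : ℕ, M₀ ≤ M → ∀ z ∈ Zs d, ∀ s s',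
      IsFix ν ((lev ψ l).conv ρ) (wz K z) s → IsFix ν ρ (wz (addL ψ K l M) z) s' →
      ‖s - s'‖ ≤ e

/-- `S_CHK` with the gap for one sequence of laws. -/
def S_CHK2 : Prop :=
  ∀ (ψ : C(UnitAddCircle, ℝ)), IsSemi ψ → ∀ (d : ℕ) (ν : Measure ℝ) [IsProbabilityMeasure ν]
    (K : C(UnitAddTorus (Fin d), ℝ)) (r σ : ℝ) (ρ : ℕ → Measure ℝ)
    [∀ n, IsProbabilityMeasure (ρ n)], 0 < d → 0 < vr ν → 0 < r → 0 < σ →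
    (∀ n, ρ n = (lev ψ (r * (1 / 16) ^ n)).conv (ρ (n + 1))) →
    (∀ n, ρ n (Set.Icc (-(2 * r * (1 / 16) ^ n)) (2 * r * (1 / 16) ^ n))ᶜ = 0) →
    (∀ (n : ℕ) (a b : ℝ), ρ n {a, b} < 1) →
    (∀ z ∈ Zs d, ∀ s, IsFix ν (ρ 0) (wz K z) s → ‖s‖ ≤ 1 - σ) →
    ∃ f : C(ℝ, ℝ), IsSum ψ (2 * r) f ∧ MestK (K + gK f d) ν

/-- Level functions with law close to the Cauchy law. -/
def S_TAN2 : Prop :=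
  ∀ γ τ : ℝ, 0 < γ → 0 < τ → τ ≤ 1 / 2 → ∃ (ψ : C(UnitAddCircle, ℝ)) (R : ℝ), IsLv ψ ∧ 0 < R ∧
    (∃ C : ℝ, ∀ s t : ℝ,
      |ψ (s : UnitAddCircle) - ψ (t : UnitAddCircle)| ≤ C * |s - t| ^ (2 / 3 : ℝ)) ∧
    (∫ φ in Set.Ioc (0 : ℝ) 1, ψ (φ : UnitAddCircle)) = 0 ∧
    (∀ (f : ℝ → ℂ) (F : ℝ), Measurable f → (∀ a, ‖f a‖ ≤ F) →
      ‖∫ a, f a ∂(lev ψ R) - ∫ a, f (γ * a) ∂(ProbabilityTheory.cauchyMeasure 0 1)‖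
        ≤ 2 * τ * F) ∧
    ∀ p : ℝ, 1 < p → p < 2 → ∫ φ in Set.Ioc (0 : ℝ) 1, |R * ψ (φ : UnitAddCircle)| ^ p
      ≤ 2 * γ ^ p * τ ^ (1 - p) / (p - 1)

/-- The first level: uniform absorption. -/
def S_LEV1 : Prop :=
  ∀ p κ D ε : ℝ, 1 < p → p < 2 → 0 < κ → κ ≤ 1 → 0 < D → 0 < ε →
    ∃ (ψ : C(UnitAddCircle, ℝ)) (R η q : ℝ), IsLv ψ ∧ 0 < R ∧ 0 < η ∧ η < 1 ∧ 0 ≤ q ∧ q < 1 ∧
      η ≤ (1 - q ^ 2) * κ / 8 ∧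
      (∃ C : ℝ, ∀ s t : ℝ,
        |ψ (s : UnitAddCircle) - ψ (t : UnitAddCircle)| ≤ C * |s - t| ^ (2 / 3 : ℝ)) ∧
      (∫ φ in Set.Ioc (0 : ℝ) 1, ψ (φ : UnitAddCircle)) = 0 ∧
      (∫ φ in Set.Ioc (0 : ℝ) 1, |R * ψ (φ : UnitAddCircle)| ^ p ≤ ε) ∧
      ∀ (ρ' : Measure ℝ) [IsProbabilityMeasure ρ'], ρ' (Set.Icc (-1) 1)ᶜ = 0 →
        ∀ x s : ℂ, ‖x‖ ≤ D → x.im < 0 → ‖s‖ ≤ 1 - η →
          ‖Us ((lev ψ R).conv ρ') (cayx x) s‖ ≤ q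

/-- Gap for all laws with enough variance. -/
def S_GAPN : Prop :=
  ∀ p κ D ε : ℝ, 1 < p → p < 2 → 0 < κ → κ ≤ 1 → 0 < D → 0 < ε →
    ∃ (ψ : C(UnitAddCircle, ℝ)) (R η : ℝ), IsLv ψ ∧ 0 < R ∧ 0 < η ∧
      (∃ C : ℝ, ∀ s t : ℝ,
        |ψ (s : UnitAddCircle) - ψ (t : UnitAddCircle)| ≤ C * |s - t| ^ (2 / 3 : ℝ)) ∧
      (∫ φ in Set.Ioc (0 : ℝ) 1, ψ (φ : UnitAddCircle)) = 0 ∧
      (∫ φ in Set.Ioc (0 : ℝ) 1, |R * ψ (φ : UnitAddCircle)| ^ p ≤ ε) ∧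
      ∀ (ν : Measure ℝ) [IsProbabilityMeasure ν] (d : ℕ) (K : C(UnitAddTorus (Fin d), ℝ)) (z : ℂ)
        (ρ' : Measure ℝ) [IsProbabilityMeasure ρ'], κ ≤ vr ν → ρ' (Set.Icc (-1) 1)ᶜ = 0 →
        ‖K‖ + ‖z‖ ≤ D → 0 < z.im → ∀ s : C(UnitAddTorus (Fin d), ℂ),
        IsFix ν ((lev ψ R).conv ρ') (wz K z) s → ‖s‖ ≤ 1 - η

/-- Hopping amplitudes of one level of high frequency. -/
def S_HOPM : Prop :=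
  ∀ (d : ℕ) (ψ : C(UnitAddCircle, ℝ)) (g ε : ℝ), 0 < d → 0 ≤ g → g < (d : ℝ) / 3 → 0 < ε →
    (∃ C : ℝ, ∀ s t : ℝ,
      |ψ (s : UnitAddCircle) - ψ (t : UnitAddCircle)| ≤ C * |s - t| ^ (2 / 3 : ℝ)) →
    (∫ φ in Set.Ioc (0 : ℝ) 1, ψ (φ : UnitAddCircle)) = 0 →
    ∃ M₀ : ℕ, ∀ M : ℕ, M₀ ≤ M → ∀ x : Fin d → ℤ,
      ‖UnitAddTorus.mFourierCoeff (fun k : UnitAddTorus (Fin d) =>
        ((ψ ((M * lap d k / (2 * Real.pi) : ℝ) : UnitAddCircle) : ℝ) : ℂ)) x‖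
        ≤ ε / (1 + ‖x‖) ^ g

/-- The theorem at arbitrary disorder. -/
def S_NP1 : Prop :=
  ∀ (ν : Measure ℝ) [IsProbabilityMeasure ν] (d : ℕ) (a b p g ε : ℝ), (∀ x : ℝ, ν {x} < 1) →
    0 < d → a < b → 1 < p → p < 2 → 0 ≤ g → g < (d : ℝ) / 3 → 0 < ε →
    ∃ f : C(ℝ, ℝ), (∃ B : ℝ, ∀ t, |f t| ≤ B) ∧
      (∫ k : UnitAddTorus (Fin d), |f (lap d k)| ^ p ≤ ε) ∧
      (∀ x : Fin d → ℤ,
        ‖UnitAddTorus.mFourierCoeff (fun k : UnitAddTorus (Fin d) => ((f (lap d k) : ℝ) : ℂ)) x‖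
          ≤ ε / (1 + ‖x‖) ^ g) ∧
      ∀ᵐ v ∂(Pn ν (Fin d → ℤ)), ACIK (lap d + gK f d) 1 v a b

/-! ## High dimension, any bounded law -/

/-- Choice of the numbers in high dimension, disorder bounded by `w`. -/
def S_ASYV : Prop :=
  ∀ A C c w s₂ : ℝ, 0 < A → 0 < C → 0 < c → 0 < w → 0 < s₂ → s₂ ≤ 1 →
    ∃ d₀ : ℕ, ∀ d : ℕ, d₀ ≤ d → ∃ n : ℕ,
    1 / Real.sqrt d ≤ Real.log d ^ 4 / (2 * Real.sqrt d) ∧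
    Real.log d ^ 4 / (2 * Real.sqrt d) ≤ 1 ∧ 4 ≤ Real.log d ^ 4 / A ∧ A ≤ 2 * Real.sqrt d ∧
    NG n (2 * Real.sqrt d / A * w) (Real.log d ^ 4 / A) (2 * w * C * Real.log d / Real.sqrt d)
      (Real.sqrt (2 * w * C * Real.log d / Real.sqrt d
        * (4 * (2 * Real.sqrt d / A * w) / (Real.log d ^ 4 / A))))
      s₂ (w * c / Real.sqrt d) (w ^ 2 * C / (Real.log d ^ 4 / (2 * Real.sqrt d) * Real.sqrt d))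
      (2 * Real.sqrt d / A * (4 * d))

/-- The theorem in high dimension, any bounded law. -/
def S_HBV : Prop :=
  ∀ (ν : Measure ℝ) [IsProbabilityMeasure ν] (C₀ A : ℝ), (∀ᵐ x ∂ν, |x| ≤ C₀) →
    (∀ a : ℝ, ν {a} < 1) → 0 < A → ∃ d₀ : ℕ, ∀ d : ℕ, d₀ ≤ d →
    ∃ b : C(ℝ, ℝ), (∀ t, |b t| ≤ Real.log d ^ 4 / Real.sqrt d) ∧
      (∃ C : ℝ, ∀ x : Fin d → ℤ,
        ‖UnitAddTorus.mFourierCoeff (fun k : UnitAddTorus (Fin d) => ((b (lap d k) : ℝ) : ℂ)) x‖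
          ≤ C / (1 + ‖x‖) ^ ((d : ℝ) / 3)) ∧
      ∀ᵐ v ∂(Pn ν (Fin d → ℤ)), ACIK (lap d + gK b d) 1 v
        (2 * d - A * Real.sqrt d) (2 * d + A * Real.sqrt d)

end

end Pool.Agent.N659.HB
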