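import Pool.Agent.N659.HB.FinK
import Pool.Agent.N659.HB.Stm5
import Pool.Agent.N163.HB.Gapa
import Pool.Agent.W191.LL.Avg0

/-!
Project NP: assembly of the theorem at arbitrary disorder.
-/

set_option autoImplicit false

namespace Pool.Agent.N659.HB

open MeasureTheory Filter Pool.Agent.W792.LL Pool.Agent.W792.WA Pool.Agent.W191.LL
open scoped Topology ENNReal

noncomputable section

theorem hop_smul {d : ℕ} (c : ℝ) (F : UnitAddTorus (Fin d) → ℝ) (x : Fin d → ℤ) :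
    UnitAddTorus.mFourierCoeff (fun k => ((c * F k : ℝ) : ℂ)) x
      = (c : ℂ) * UnitAddTorus.mFourierCoeff (fun k => ((F k : ℝ) : ℂ)) x := by
  rw [mfc_eq, mfc_eq, ← integral_const_mul]
  congr 1
  funext k
  push_cast
  ring

theorem hop_add {d : ℕ} (F G : C(UnitAddTorus (Fin d), ℝ)) (x : Fin d → ℤ) :
    UnitAddTorus.mFourierCoeff (fun k => ((F k + G k : ℝ) : ℂ)) x
      = UnitAddTorus.mFourierCoeff (fun k => ((F k : ℝ) : ℂ)) x
        + UnitAddTorus.mFourierCoeff (fun k => ((G k : ℝ) : ℂ)) x := by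
  have h1 := mfc_int (fun k => ((F k : ℝ) : ℂ)) (Complex.continuous_ofReal.comp F.continuous) (-x)
  have h2 := mfc_int (fun k => ((G k : ℝ) : ℂ)) (Complex.continuous_ofReal.comp G.continuous) (-x)
  rw [mfc_eq, mfc_eq, mfc_eq, ← integral_add h1 h2]
  congr 1
  funext k
  push_cast
  ring

/-- The function of one level. -/
def lvf (ψ : C(UnitAddCircle, ℝ)) (R : ℝ) (M : ℕ) : C(ℝ, ℝ) where
  toFun t := R * ψ ((M * t / (2 * Real.pi) : ℝ) : UnitAddCircle)
  continuous_toFun := by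
    have h : Continuous fun t : ℝ => ((M * t / (2 * Real.pi) : ℝ) : UnitAddCircle) :=
      (AddCircle.continuous_mk' (1 : ℝ)).comp (by fun_prop)
    exact continuous_const.mul (ψ.continuous.comp h)

theorem addL_eq (ψ : C(UnitAddCircle, ℝ)) {d : ℕ} (K : C(UnitAddTorus (Fin d), ℝ)) (R : ℝ)
    (M : ℕ) : addL ψ K R M = K + gK (lvf ψ R M) d := by
  ext k
  rfl

/-- The theorem at arbitrary disorder. -/
theorem np (hCay : S_CAY) (hST : S_STEPL1) (hC2 : S_CHK2) (hG : S_GAPN) (hH : S_HOPM)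
    (hE : S_EQD) (hA : S_ATM) (hF : S_FUT) (hU : S_UNI) (hAe : S_AEQK) (hAf : S_AFF) (hW : S_WS)
    (hψ : ∃ ψ : C(UnitAddCircle, ℝ), IsSemi ψ ∧ ∀ d : ℕ, 0 < d → ∃ C : ℝ, 0 < C ∧
      ∀ (M : ℕ) (x : Fin d → ℤ),
      ‖UnitAddTorus.mFourierCoeff (fun k : UnitAddTorus (Fin d) =>
        ((ψ ((M * lap d k / (2 * Real.pi) : ℝ) : UnitAddCircle) : ℝ) : ℂ)) x‖
        ≤ C / (1 + ‖x‖) ^ ((d : ℝ) / 3)) : S_NP1 := by
  intro ν _ d a b p g ε hat hd hab hp1 hp2 hg0 hg1 hε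
  obtain ⟨ψ, hψ1, hψ2⟩ := hψ
  obtain ⟨Cd, hCd, hCd1⟩ := hψ2 d hd
  have hdr : (0 : ℝ) < d := by exact_mod_cast hd
  set γ : ℝ := 4 * d / (b - a) with hγdef
  have hba : 0 < b - a := by linarith
  have hγ : 0 < γ := by positivity
  -- law
  have hm2 : Measurable fun x : ℝ => (γ * 1) * x := by fun_prop
  have hP2 : IsProbabilityMeasure (ν.map fun x => (γ * 1) * x) :=
    Measure.isProbabilityMeasure_map hm2.aemeasurable
  set ν' : Measure ℝ := ν.map fun x => (γ * 1) * x with hν'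
  have hatom : ∀ x : ℝ, ν' {x} < 1 := by
    intro x
    rw [hν', Measure.map_apply hm2 (measurableSet_singleton x)]
    have e : (fun y : ℝ => (γ * 1) * y) ⁻¹' {x} = {x / (γ * 1)} := by
      ext y
      simp only [Set.mem_preimage, Set.mem_singleton_iff]
      rw [eq_div_iff (by positivity), mul_comm]
    rw [e]
    exact hat _
  have hvr : 0 < vr ν' := Pool.Agent.W792.WA.Ch.vr_pos hCay _ hatom
  have hvr1 : vr ν' ≤ 1 := by
    unfold vr
    have := sq_nonneg ‖∫ x, cay x ∂ν'‖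
    linarith
  set K' : C(UnitAddTorus (Fin d), ℝ) := γ • (lap d - ContinuousMap.const _ a) with hK'
  set D : ℝ := ‖K'‖ + (4 * d + 2) with hD
  have hD0 : 0 < D := by positivity
  -- small numbers
  set e1 : ℝ := γ ^ p * ε / 16 with he1
  have he1' : 0 < e1 := by positivity
  obtain ⟨ψ₀, R, η, hlv, hR, hη, ⟨CH, hHol⟩, hmz, hLp, hgap⟩ :=
    hG p (vr ν') D e1 hp1 hp2 hvr hvr1 hD0 he1'
  -- the small levels
  obtain ⟨r, hr0, hr1, hr2, hr3⟩ : ∃ r : ℝ, 0 < r ∧ 2 * r ≤ 1 ∧ (2 * r) ^ p ≤ e1 ∧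
      2 * r * Cd ≤ γ * (ε / 2) := by
    have h1 : Tendsto (fun r : ℝ => (2 * r) ^ p) (𝓝[>] 0) (𝓝 0) := by
      have h2 : Tendsto (fun r : ℝ => (2 * r) ^ p) (𝓝 0) (𝓝 ((2 * 0) ^ p)) := by
        have : ContinuousAt (fun r : ℝ => (2 * r) ^ p) 0 :=
          ContinuousAt.rpow_const (by fun_prop) (Or.inr (by linarith))
        exact this
      rw [mul_zero, Real.zero_rpow (by linarith)] at h2
      exact h2.mono_left nhdsWithin_le_nhds
    have h3 : Tendsto (fun r : ℝ => 2 * r * Cd) (𝓝[>] 0) (𝓝 0) := by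
      have h4 : Tendsto (fun r : ℝ => 2 * r * Cd) (𝓝 0) (𝓝 (2 * 0 * Cd)) := by
        have : Continuous (fun r : ℝ => 2 * r * Cd) := by fun_prop
        exact this.tendsto 0
      rw [mul_zero, zero_mul] at h4
      exact h4.mono_left nhdsWithin_le_nhds
    have h5 : Tendsto (fun r : ℝ => 2 * r) (𝓝[>] 0) (𝓝 0) := by
      have h4 : Tendsto (fun r : ℝ => 2 * r) (𝓝 0) (𝓝 (2 * 0)) := by
        have : Continuous (fun r : ℝ => 2 * r) := by fun_prop
        exact this.tendsto 0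
      rw [mul_zero] at h4
      exact h4.mono_left nhdsWithin_le_nhds
    have f1 := h1.eventually (gt_mem_nhds he1')
    have f2 := h3.eventually (gt_mem_nhds (by positivity : 0 < γ * (ε / 2)))
    have f3 := h5.eventually (gt_mem_nhds (one_pos (α := ℝ)))
    have f4 : ∀ᶠ r : ℝ in 𝓝[>] 0, 0 < r := eventually_mem_nhdsWithin
    obtain ⟨r, ⟨⟨⟨g1, g2⟩, g3⟩, g4⟩⟩ := (((f1.and f2).and f3).and f4).exists
    exact ⟨r, g4, g3.le, g1.le, g2.le⟩
  have hl0 : ∀ n : ℕ, 0 < r * (1 / 16 : ℝ) ^ n := fun n => by positivity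
  have hsum : Summable fun n : ℕ => r * (1 / 16 : ℝ) ^ n :=
    (summable_geometric_of_lt_one (by norm_num) (by norm_num)).mul_left r
  obtain ⟨ρ, hρ1, hρ2, hρ3, hρ4⟩ := hF ψ hψ1 (fun n => r * (1 / 16) ^ n) hl0 hsum
  have htail : ∀ n : ℕ, ∑' j, r * (1 / 16 : ℝ) ^ (n + j) ≤ 2 * r * (1 / 16) ^ n := by
    intro n
    have h1 : ∀ j, r * (1 / 16 : ℝ) ^ (n + j) = (r * (1 / 16) ^ n) * (1 / 16) ^ j := by
      intro j; rw [pow_add]; ring
    simp only [h1]
    rw [tsum_mul_left, tsum_geometric_of_lt_one (by norm_num) (by norm_num)]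
    have h2 : 0 < r * (1 / 16 : ℝ) ^ n := by positivity
    have h3 : ((1 : ℝ) - 1 / 16)⁻¹ ≤ 2 := by norm_num
    calc r * (1 / 16 : ℝ) ^ n * (1 - 1 / 16)⁻¹ ≤ r * (1 / 16 : ℝ) ^ n * 2 := by gcongr
      _ = 2 * r * (1 / 16) ^ n := by ring
  have hρ3' : ∀ n, ρ n (Set.Icc (-(2 * r * (1 / 16) ^ n)) (2 * r * (1 / 16) ^ n))ᶜ = 0 := by
    intro n
    refine measure_mono_null (Set.compl_subset_compl.2 ?_) (hρ3 n)
    have := htail n
    exact Set.Icc_subset_Icc (by linarith) this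
  have h00 := hρ3' 0
  rw [pow_zero, mul_one] at h00
  have hρ0 : ρ 0 (Set.Icc (-1) 1)ᶜ = 0 := by
    refine measure_mono_null (Set.compl_subset_compl.2 ?_) h00
    exact Set.Icc_subset_Icc (by linarith) hr1
  have i1 := hρ1 0
  have hgap1 : ∀ z ∈ Zs d, ∀ s, IsFix ν' ((lev ψ₀ R).conv (ρ 0)) (wz K' z) s → ‖s‖ ≤ 1 - η := by
    intro z hz s hs
    obtain ⟨z1, z2, z3, z4⟩ := hz
    refine hgap ν' d K' z (ρ 0) le_rfl hρ0 ?_ z3 s hs
    have h1 := Complex.norm_le_abs_re_add_abs_im z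
    rw [abs_of_nonneg z1, abs_of_pos z3] at h1
    rw [hD]
    linarith
  obtain ⟨M1, hM1⟩ := hST ν' d ψ₀ (ρ 0) (2 * r) η R K' hd hlv hvr h00 (hρ4 0) hR hη hgap1 (η / 2)
    (half_pos hη)
  set ε2 : ℝ := γ * (ε / 2) / R with hε2
  have hε2' : 0 < ε2 := by positivity
  obtain ⟨M2, hM2⟩ := hH d ψ₀ g ε2 hd hg0 hg1 hε2' ⟨CH, hHol⟩ hmz
  set hh : C(UnitAddCircle, ℝ) := ⟨fun φ => |R * ψ₀ φ| ^ p, by
    refine Continuous.rpow_const (by fun_prop) fun φ => Or.inr (by linarith)⟩ with hhh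
  obtain ⟨M3, hM3⟩ := hE d hh hd e1 he1'
  set M : ℕ := max M1 (max M2 M3) with hM
  have hMM1 : M1 ≤ M := le_max_left _ _
  have hMM2 : M2 ≤ M := (le_max_left _ _).trans (le_max_right _ _)
  have hMM3 : M3 ≤ M := (le_max_right _ _).trans (le_max_right _ _)
  obtain ⟨j1, j2, j3⟩ := hA ψ₀ R (2 * r) (ρ 0) hlv hR
  have hex := (hU ν' d ((lev ψ₀ R).conv (ρ 0)) (2 * r + R) η K' hvr (j2 h00) j3 hη hgap1).1
  set K₁ : C(UnitAddTorus (Fin d), ℝ) := addL ψ₀ K' R M with hK₁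
  have hgap2 : ∀ z ∈ Zs d, ∀ s, IsFix ν' (ρ 0) (wz K₁ z) s → ‖s‖ ≤ 1 - η / 2 := by
    intro z hz s' hs'
    obtain ⟨s, hs, -⟩ := hex z hz
    have h1 := hM1 M hMM1 z hz s s' hs hs'
    have h2 := hgap1 z hz s hs
    have h3 : ‖s'‖ ≤ ‖s‖ + ‖s - s'‖ := by
      have := norm_sub_le s (s - s')
      rwa [sub_sub_cancel] at this
    linarith
  obtain ⟨f, hf1, hf2⟩ := hC2 ψ hψ1 d ν' K₁ r (η / 2) ρ hd hvr hr0 (half_pos hη) hρ2 hρ3' hρ4 hgap2
  have hfb : ∀ t, |f t| ≤ 2 * r := fun t => G16.IsSum.bound hψ1.bound hf1 t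
  have hub : ∀ t, |lvf ψ₀ R M t| ≤ R := by
    intro t
    change |R * ψ₀ _| ≤ R
    rw [abs_mul, abs_of_pos hR]
    calc R * |ψ₀ _| ≤ R * 1 := mul_le_mul_of_nonneg_left (hlv.bound _) hR.le
      _ = R := mul_one R
  set F : C(ℝ, ℝ) := γ⁻¹ • (lvf ψ₀ R M + f) with hFdef
  have hFt : ∀ t, F t = γ⁻¹ * (lvf ψ₀ R M t + f t) := fun t => rfl
  refine ⟨F, ⟨γ⁻¹ * (R + 2 * r), fun t => ?_⟩, ?_, fun x => ?_, ?_⟩
  · rw [hFt, abs_mul, abs_of_pos (inv_pos.2 hγ)]
    refine mul_le_mul_of_nonneg_left ?_ (inv_pos.2 hγ).le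
    exact (abs_add_le _ _).trans (add_le_add (hub t) (hfb t))
  · have hb1 : ∀ k : UnitAddTorus (Fin d), |F (lap d k)| ^ p ≤ (γ⁻¹) ^ p *
        (4 * (hh ((M * lap d k / (2 * Real.pi) : ℝ) : UnitAddCircle) + (2 * r) ^ p)) := by
      intro k
      rw [hFt, abs_mul, abs_of_pos (inv_pos.2 hγ), Real.mul_rpow (inv_pos.2 hγ).le (abs_nonneg _)]
      refine mul_le_mul_of_nonneg_left ?_ (by positivity)
      have e1' : hh ((M * lap d k / (2 * Real.pi) : ℝ) : UnitAddCircle)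
          = |lvf ψ₀ R M (lap d k)| ^ p := rfl
      rw [e1']
      set u : ℝ := |lvf ψ₀ R M (lap d k)| with hu
      have hu0 : 0 ≤ u := abs_nonneg _
      have h2r : 0 ≤ 2 * r := by linarith
      have h1 : |lvf ψ₀ R M (lap d k) + f (lap d k)| ≤ 2 * max u (2 * r) := by
        have h3 := abs_add_le (lvf ψ₀ R M (lap d k)) (f (lap d k))
        have h4 := hfb (lap d k)
        have h5 := le_max_left u (2 * r)
        have h6 := le_max_right u (2 * r)
        linarith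
      have hmx : 0 ≤ max u (2 * r) := hu0.trans (le_max_left _ _)
      calc |lvf ψ₀ R M (lap d k) + f (lap d k)| ^ p ≤ (2 * max u (2 * r)) ^ p :=
            Real.rpow_le_rpow (abs_nonneg _) h1 (by linarith)
        _ = 2 ^ p * (max u (2 * r)) ^ p := Real.mul_rpow (by norm_num) hmx
        _ ≤ 4 * (u ^ p + (2 * r) ^ p) := by
            have h7 : (2 : ℝ) ^ p ≤ 4 := by
              calc (2 : ℝ) ^ p ≤ 2 ^ (2 : ℝ) := Real.rpow_le_rpow_of_exponent_le (by norm_num) hp2.le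
                _ = 4 := by norm_num
            have h8 : (max u (2 * r)) ^ p ≤ u ^ p + (2 * r) ^ p := by
              rcases le_total u (2 * r) with h | h
              · rw [max_eq_right h]
                have : 0 ≤ u ^ p := Real.rpow_nonneg hu0 _
                linarith
              · rw [max_eq_left h]
                have : 0 ≤ (2 * r) ^ p := Real.rpow_nonneg h2r _
                linarith
            have h9 : 0 ≤ (max u (2 * r)) ^ p := Real.rpow_nonneg hmx _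
            exact mul_le_mul h7 h8 h9 (by norm_num)
    have hc1 : Continuous fun k : UnitAddTorus (Fin d) => |F (lap d k)| ^ p := by
      refine Continuous.rpow_const (by fun_prop) fun k => Or.inr (by linarith)
    have hcirc : Continuous fun k : UnitAddTorus (Fin d) =>
        ((M * lap d k / (2 * Real.pi) : ℝ) : UnitAddCircle) :=
      (AddCircle.continuous_mk' (1 : ℝ)).comp (by fun_prop)
    have hc2 : Continuous fun k : UnitAddTorus (Fin d) =>
        hh ((M * lap d k / (2 * Real.pi) : ℝ) : UnitAddCircle) := hh.continuous.comp hcirc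
    have hc3 : Continuous fun k : UnitAddTorus (Fin d) => (γ⁻¹) ^ p *
        (4 * (hh ((M * lap d k / (2 * Real.pi) : ℝ) : UnitAddCircle) + (2 * r) ^ p)) := by
      fun_prop
    have hpr1 : IsProbabilityMeasure (volume : Measure (AddCircle (1 : ℝ))) :=
      ⟨by rw [AddCircle.measure_univ]; simp⟩
    have hpr : IsProbabilityMeasure (volume : Measure (UnitAddTorus (Fin d))) := by
      rw [volume_pi]; infer_instance
    have hI : (∫ k : UnitAddTorus (Fin d),
        hh ((M * lap d k / (2 * Real.pi) : ℝ) : UnitAddCircle)) ≤ 2 * e1 := by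
      have h1 := (abs_le.1 (hM3 M hMM3)).2
      have h2 : (∫ φ in Set.Ioc (0 : ℝ) 1, hh (φ : UnitAddCircle)) ≤ e1 := hLp
      linarith
    calc (∫ k : UnitAddTorus (Fin d), |F (lap d k)| ^ p)
        ≤ ∫ k : UnitAddTorus (Fin d), (γ⁻¹) ^ p *
          (4 * (hh ((M * lap d k / (2 * Real.pi) : ℝ) : UnitAddCircle) + (2 * r) ^ p)) :=
          integral_mono (Pool.Agent.N163.HB.GAPA.cont_int hc1)
            (Pool.Agent.N163.HB.GAPA.cont_int hc3) hb1
      _ = (γ⁻¹) ^ p * (4 * ((∫ k : UnitAddTorus (Fin d),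
          hh ((M * lap d k / (2 * Real.pi) : ℝ) : UnitAddCircle)) + (2 * r) ^ p)) := by
          rw [integral_const_mul, integral_const_mul,
            integral_add (Pool.Agent.N163.HB.GAPA.cont_int hc2) (integrable_const _),
            integral_const, probReal_univ, one_smul]
      _ ≤ (γ⁻¹) ^ p * (4 * (2 * e1 + e1)) := by
          gcongr
      _ = 3 / 4 * ε := by
          rw [he1, Real.inv_rpow hγ.le]
          have : 0 < γ ^ p := by positivity
          field_simp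
          ring
      _ ≤ ε := by linarith
  · have e1' : (fun k : UnitAddTorus (Fin d) => ((F (lap d k) : ℝ) : ℂ))
        = fun k => ((γ⁻¹ * (R * ψ₀ ((M * lap d k / (2 * Real.pi) : ℝ) : UnitAddCircle)
          + f (lap d k)) : ℝ) : ℂ) := rfl
    rw [e1', hop_smul]
    have hcirc : Continuous fun k : UnitAddTorus (Fin d) =>
        ((M * lap d k / (2 * Real.pi) : ℝ) : UnitAddCircle) :=
      (AddCircle.continuous_mk' (1 : ℝ)).comp (by fun_prop)
    have e2' := hop_add (d := d)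
      ⟨fun k => R * ψ₀ ((M * lap d k / (2 * Real.pi) : ℝ) : UnitAddCircle),
        continuous_const.mul (ψ₀.continuous.comp hcirc)⟩ (f.comp (lap d)) x
    change UnitAddTorus.mFourierCoeff (fun k => ((R * ψ₀ _ + f (lap d k) : ℝ) : ℂ)) x
      = UnitAddTorus.mFourierCoeff (fun k => ((R * ψ₀ _ : ℝ) : ℂ)) x
        + UnitAddTorus.mFourierCoeff (fun k => ((f (lap d k) : ℝ) : ℂ)) x at e2'
    rw [e2', hop_smul]
    have h1 := hM2 M hMM2 x
    have h2 := hW d ψ Cd (2 * r) f hd hCd.le (by positivity) hCd1 hf1 x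
    have hx1 : (1 : ℝ) ≤ 1 + ‖x‖ := by linarith [norm_nonneg x]
    have hx0 : (0 : ℝ) < (1 + ‖x‖) ^ g := by positivity
    have h3 : 2 * r * Cd / (1 + ‖x‖) ^ ((d : ℝ) / 3) ≤ γ * (ε / 2) / (1 + ‖x‖) ^ g := by
      apply div_le_div₀ (by positivity) hr3 hx0
      exact Real.rpow_le_rpow_of_exponent_le hx1 hg1.le
    have h4 : ‖(R : ℂ) * UnitAddTorus.mFourierCoeff (fun k : UnitAddTorus (Fin d) =>
        ((ψ₀ ((M * lap d k / (2 * Real.pi) : ℝ) : UnitAddCircle) : ℝ) : ℂ)) x‖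
        ≤ γ * (ε / 2) / (1 + ‖x‖) ^ g := by
      rw [norm_mul, Complex.norm_real, Real.norm_of_nonneg hR.le]
      calc R * _ ≤ R * (ε2 / (1 + ‖x‖) ^ g) := mul_le_mul_of_nonneg_left h1 hR.le
        _ = γ * (ε / 2) / (1 + ‖x‖) ^ g := by
            rw [hε2]; field_simp
    rw [norm_mul, Complex.norm_real, Real.norm_of_nonneg (inv_pos.2 hγ).le]
    calc γ⁻¹ * _ ≤ γ⁻¹ * (γ * (ε / 2) / (1 + ‖x‖) ^ g + γ * (ε / 2) / (1 + ‖x‖) ^ g) := by
          refine mul_le_mul_of_nonneg_left ?_ (inv_pos.2 hγ).le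
          exact (norm_add_le _ _).trans (add_le_add h4 (h2.trans h3))
      _ = ε / (1 + ‖x‖) ^ g := by
          field_simp
          ring
  · have hkey : K₁ + gK f d = γ • ((lap d + gK F d) - ContinuousMap.const _ a) := by
      rw [hK₁, addL_eq, hK']
      ext k
      simp only [ContinuousMap.add_apply, ContinuousMap.smul_apply, ContinuousMap.sub_apply,
        ContinuousMap.const_apply, smul_eq_mul, gK, ContinuousMap.comp_apply, hFt]
      field_simp
      ring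
    have h0 := hAe d ν (γ * 1) (K₁ + gK f d) hd (by positivity) hf2
    filter_upwards [h0] with v hv
    rw [hkey] at hv
    have h3 := hAf d (lap d + gK F d) γ a 1 0 (4 * d) v hγ hv
    have h4 : a + 0 / γ = a := by simp
    have h5 : a + 4 * d / γ = b := by
      rw [hγdef]; field_simp; ring
    rw [h4, h5] at h3
    exact h3

end

end Pool.Agent.N659.HB
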