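import Pool.Agent.N659.HB.FinH
import Pool.Agent.N659.HB.Stm5

/-!
Project NP: high dimension, any bounded law of the disorder.
-/

set_option autoImplicit false

namespace Pool.Agent.N659.HB

open MeasureTheory Filter Pool.Agent.W792.LL Pool.Agent.W792.WA
open scoped Topology ENNReal

noncomputable section

/-- The theorem in high dimension, any bounded law. -/
theorem hbv (hG : S_GAPG) (hI : S_INT) (hL : S_DOSL) (hN : S_ASYV) (hC : S_CHK) (hAe : S_AEQK)
    (hAf : S_AFF) (hCay : S_CAY) (hW : S_WS)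
    (hψ : ∃ ψ : C(UnitAddCircle, ℝ), IsSemi ψ ∧ ∀ d : ℕ, 0 < d → ∃ C : ℝ, 0 < C ∧
      ∀ (M : ℕ) (x : Fin d → ℤ),
      ‖UnitAddTorus.mFourierCoeff (fun k : UnitAddTorus (Fin d) =>
        ((ψ ((M * lap d k / (2 * Real.pi) : ℝ) : UnitAddCircle) : ℝ) : ℂ)) x‖
        ≤ C / (1 + ‖x‖) ^ ((d : ℝ) / 3)) : S_HBV := by
  intro ν _ C₀ A₀ hb hat hA₀
  obtain ⟨ψ, hψ1, hψ2⟩ := hψ
  have hC0 : 0 ≤ C₀ := by
    obtain ⟨x, hx⟩ := hb.exists
    exact (abs_nonneg x).trans hx
  set mb : ℝ := ∫ x, x ∂ν with hmb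
  have hmb1 : |mb| ≤ C₀ := by
    have := norm_integral_le_of_norm_le_const (μ := ν) (f := fun x : ℝ => x) (C := C₀) hb
    simpa using this
  set C₁ : ℝ := 2 * C₀ + 1 with hC₁
  have hC1 : 0 < C₁ := by linarith
  have hb1 : ∀ᵐ x ∂ν, |x - mb| ≤ C₁ := by
    filter_upwards [hb] with x hx
    have := abs_sub x mb
    linarith
  set s₂ : ℝ := ∫ x, ((x - mb) / C₁) ^ 2 ∂ν with hs₂
  have hint : Integrable (fun x : ℝ => ((x - mb) / C₁) ^ 2) ν := by
    refine Integrable.of_bound (C := 1) (by fun_prop) ?_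
    filter_upwards [hb1] with x hx
    rw [Real.norm_eq_abs, abs_pow, abs_div, abs_of_pos hC1]
    exact pow_le_one₀ (by positivity) ((div_le_one hC1).2 hx)
  have hs1 : s₂ ≤ 1 := by
    have h := integral_mono_ae hint (integrable_const (1 : ℝ)) (by
      filter_upwards [hb1] with x hx
      rw [← sq_abs, abs_div, abs_of_pos hC1]
      exact pow_le_one₀ (by positivity) ((div_le_one hC1).2 hx))
    simpa using h
  have hs20 : 0 < s₂ := by
    have h0 : 0 ≤ s₂ := integral_nonneg fun x => sq_nonneg _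
    rcases h0.lt_or_eq with h | h
    · exact h
    · exfalso
      have h1 := (integral_eq_zero_iff_of_nonneg (μ := ν) (f := fun x : ℝ => ((x - mb) / C₁) ^ 2)
        (fun x => sq_nonneg _) hint).1 h.symm
      have h2 : ∀ᵐ x ∂ν, x = mb := by
        filter_upwards [h1] with x hx
        simp only [Pi.zero_apply] at hx
        have := pow_eq_zero_iff (two_ne_zero) |>.1 hx
        rw [div_eq_zero_iff] at this
        rcases this with h3 | h3
        · linarith
        · linarith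
      have h3 : ν {mb} = 1 := by
        rw [← prob_compl_eq_zero_iff (measurableSet_singleton mb)]
        exact ae_iff.1 h2
      have := hat mb
      rw [h3] at this
      exact lt_irrefl _ this
  set A : ℝ := A₀ + 1 with hAdef
  have hA : 0 < A := by linarith
  obtain ⟨CI, d₁, hCI, hI1⟩ := hI
  obtain ⟨c, d₂, hc, hL1⟩ := hL A hA
  obtain ⟨d₃, hN1⟩ := hN A CI c C₁ s₂ hA hCI hc hC1 hs20 hs1
  obtain ⟨d₄, hd₄⟩ := exists_nat_ge (C₀ ^ 2)
  refine ⟨max (max d₁ d₂) (max (max d₃ 1) d₄), fun d hd => ?_⟩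
  have hd1 : d₁ ≤ d := (le_max_left _ _).trans ((le_max_left _ _).trans hd)
  have hd2 : d₂ ≤ d := (le_max_right _ _).trans ((le_max_left _ _).trans hd)
  have hd34 : max (max d₃ 1) d₄ ≤ d := (le_max_right _ _).trans hd
  have hd31 : max d₃ 1 ≤ d := (le_max_left _ _).trans hd34
  have hd3 : d₃ ≤ d := (le_max_left _ _).trans hd31
  have hd0 : 0 < d := lt_of_lt_of_le one_pos ((le_max_right _ _).trans hd31)
  have hd4 : d₄ ≤ d := (le_max_right _ _).trans hd34
  have hdr : (0 : ℝ) < d := by exact_mod_cast hd0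
  obtain ⟨Cd, hCd, hCd1⟩ := hψ2 d hd0
  obtain ⟨n, hn1, hn2, -, hn4, hNG⟩ := hN1 d hd3
  set s : ℝ := Real.sqrt d with hs
  have hs0 : 0 < s := Real.sqrt_pos.2 hdr
  have hss : s * s = d := Real.mul_self_sqrt hdr.le
  have hsC : C₀ ≤ s := by
    rw [hs]
    apply Real.le_sqrt_of_sq_le
    have : (d₄ : ℝ) ≤ d := by exact_mod_cast hd4
    linarith
  set γ : ℝ := 2 * s / A with hγdef
  have hγ : 0 < γ := by positivity
  have hγ1 : 1 ≤ γ := by rw [hγdef, le_div_iff₀ hA]; linarith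
  set l : ℝ := Real.log d ^ 4 / (2 * s) with hl
  have hgl : γ * l = Real.log d ^ 4 / A := by
    rw [hγdef, hl]; field_simp
  have hlpos : 0 < l := by
    have h := hNG.hr
    rw [← hgl] at h
    exact (mul_pos_iff_of_pos_left hγ).1 h
  have h2l : 2 * l = Real.log d ^ 4 / s := by rw [hl]; field_simp
  rw [← hgl] at hNG
  set m : ℝ := 2 * d - A * s with hm
  -- laws
  have hm1 : Measurable fun x : ℝ => x - mb := by fun_prop
  have hm2 : Measurable fun x : ℝ => (γ * 1) * x := by fun_prop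
  have hP1 : IsProbabilityMeasure (ν.map fun x => x - mb) :=
    Measure.isProbabilityMeasure_map hm1.aemeasurable
  set ν₁ : Measure ℝ := ν.map fun x => x - mb with hν₁
  have hP2 : IsProbabilityMeasure (ν₁.map fun x => (γ * 1) * x) :=
    Measure.isProbabilityMeasure_map hm2.aemeasurable
  have e12 : (ν₁.map fun x => (γ * 1) * x) = ν.map fun x => (γ * 1) * (x - mb) := by
    rw [hν₁, Measure.map_map hm2 hm1]
    rfl
  have hm3 : Measurable fun x : ℝ => (γ * 1) * (x - mb) := by fun_prop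
  have hgl1 : 0 < γ * 1 := by positivity
  have hbd : ∀ᵐ x ∂(ν₁.map fun x => (γ * 1) * x), |x| ≤ γ * C₁ := by
    rw [e12]
    refine (ae_map_iff (p := fun x => |x| ≤ γ * C₁) hm3.aemeasurable
      (measurableSet_le measurable_id.abs measurable_const)).2 ?_
    filter_upwards [hb1] with x hx
    rw [abs_mul, abs_of_pos hgl1]
    calc γ * 1 * |x - mb| ≤ γ * 1 * C₁ := by gcongr
      _ = γ * C₁ := by ring
  have hintx : Integrable (fun x : ℝ => x) ν :=
    Integrable.of_bound (C := C₀) (by fun_prop) hb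
  have hmean : ∫ x, x ∂(ν₁.map fun x => (γ * 1) * x) = 0 := by
    rw [e12, integral_map hm3.aemeasurable (by fun_prop), integral_const_mul,
      integral_sub hintx (integrable_const _)]
    simp [← hmb]
  have hsec : ∫ x, (x / (γ * C₁)) ^ 2 ∂(ν₁.map fun x => (γ * 1) * x) = s₂ := by
    rw [e12, integral_map hm3.aemeasurable (by fun_prop), hs₂]
    congr 1
    funext x
    congr 1
    field_simp
  have hatom : ∀ a : ℝ, (ν₁.map fun x => (γ * 1) * x) {a} < 1 := by
    intro a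
    rw [e12, Measure.map_apply hm3 (measurableSet_singleton a)]
    have e : (fun x : ℝ => (γ * 1) * (x - mb)) ⁻¹' {a} = {a / (γ * 1) + mb} := by
      ext x
      simp only [Set.mem_preimage, Set.mem_singleton_iff]
      rw [← sub_eq_iff_eq_add, eq_div_iff hgl1.ne', mul_comm]
    rw [e]
    exact hat _
  have hvr : 0 < vr (ν₁.map fun x => (γ * 1) * x) :=
    Pool.Agent.W792.WA.Ch.vr_pos hCay _ hatom
  have hfacts : ∀ E : ℝ, 0 ≤ E → E ≤ 4 * d →
      (∀ k, |(γ • (lap d - ContinuousMap.const _ m) : C(UnitAddTorus (Fin d), ℝ)) k - E|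
        ≤ γ * (4 * d)) ∧
      (γ * C₁) * (∫ k : UnitAddTorus (Fin d), wl (γ * l)
        ((γ • (lap d - ContinuousMap.const _ m) : C(UnitAddTorus (Fin d), ℝ)) k - E))
        ≤ 2 * C₁ * CI * Real.log d / s / 2 ∧
      (γ * C₁) ^ 2 * (∫ k : UnitAddTorus (Fin d), wl (γ * l)
        ((γ • (lap d - ContinuousMap.const _ m) : C(UnitAddTorus (Fin d), ℝ)) k - E) ^ 2)
        ≤ C₁ ^ 2 * CI / (l * s) ∧
      ∀ ρ : ℝ, γ * l / 4 ≤ ρ → (ρ ≤ 1 ∨ ρ = γ * l / 4) → (C₁ * c / s) * ρ
        ≤ (γ * C₁) * dosK (γ • (lap d - ContinuousMap.const _ m)) E ρ := by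
    intro E hE0 hE1
    have hE3 : E / γ ≤ 2 * (A * s) := by
      rw [div_le_iff₀ hγ, hγdef]
      have : 2 * (A * s) * (2 * s / A) = 4 * (s * s) := by field_simp; ring
      rw [this, hss]
      exact hE1
    have hE4 : 0 ≤ E / γ := by positivity
    have hEe : E = γ * ((m + E / γ) - m) := by field_simp; ring
    have hAs : A * s ≤ 2 * d := by
      have := mul_le_mul_of_nonneg_right hn4 hs0.le
      nlinarith
    have hEa : 0 ≤ m + E / γ := by rw [hm]; linarith
    have hEb : m + E / γ ≤ 4 * d := by rw [hm]; linarith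
    have hEc : |m + E / γ - 2 * d| ≤ A * s := by
      rw [hm, abs_le]
      constructor <;> linarith
    have hIE := hI1 d hd1 l (m + E / γ) hn1 hn2 hEa hEb
    have hD4 : ∀ k, |lap d k - (m + E / γ)| ≤ 4 * d := by
      intro k
      have := lap_mem d k
      rw [abs_le]
      constructor <;> linarith [this.1, this.2]
    have hdl : ∀ ρ : ℝ, γ * l / 4 ≤ ρ → (ρ ≤ 1 ∨ ρ = γ * l / 4) →
        c / s * (ρ / γ) ≤ dos d (m + E / γ) (ρ / γ) := by
      intro ρ h1 h2
      have hρ : 0 < ρ := lt_of_lt_of_le (by positivity) h1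
      have hρ1 : ρ / γ ≤ 1 := by
        rw [div_le_one hγ]
        rcases h2 with h2 | h2
        · linarith
        · rw [h2]
          nlinarith
      have := hL1 d hd2 (m + E / γ) (ρ / γ) hEc (by positivity) hρ1
      refine le_trans (le_of_eq ?_) this
      ring
    have hsc := fun (ρ : ℝ) (h1 : γ * l / 4 ≤ ρ) (h2 : ρ ≤ 1 ∨ ρ = γ * l / 4) =>
      scaled_facts (d := d) (m := m) (al := γ * C₁) hγ hEe (by positivity) hIE.1 hIE.2
        (hdl ρ h1 h2) hD4
    have hsc0 := hsc (γ * l / 4) le_rfl (Or.inr rfl)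
    have e1 : γ * C₁ / γ = C₁ := by field_simp
    refine ⟨hsc0.1, ?_, ?_, fun ρ h1 h2 => ?_⟩
    · refine hsc0.2.1.trans (le_of_eq ?_)
      rw [e1]; ring
    · refine hsc0.2.2.1.trans (le_of_eq ?_)
      rw [e1]; ring
    · have := (hsc ρ h1 h2).2.2.2
      rw [e1] at this
      refine le_trans (le_of_eq ?_) this
      ring
  obtain ⟨σ, hσ, hgap⟩ := hG ψ hψ1 (ν₁.map fun x => (γ * 1) * x) d n
    (γ • (lap d - ContinuousMap.const _ m)) _ _ _ _ _ _ _ _ hNG hbd hmean hsec hfacts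
  obtain ⟨b, hb1', hb2⟩ := of_gap hC hAe hAf hψ1 hd0 ν₁ γ 1 l m hγ one_pos hlpos hvr hσ hgap
  refine ⟨b, fun t => ?_, ⟨2 * l * Cd, fun x => ?_⟩, ?_⟩
  · rw [← h2l]
    exact G16.IsSum.bound hψ1.bound hb1' t
  · exact hW d ψ Cd (2 * l) b hd0 hCd.le (by positivity) hCd1 hb1' x
  · have e3 : m + 4 * d / γ = 2 * d + A * s := by
      have e4 : 4 * (d : ℝ) / γ = 2 * (A * s) := by
        rw [hγdef, div_div_eq_mul_div, ← hss]
        field_simp
        ring
      rw [e4, hm]
      ring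
    have h1 := ae_map_law ν hm1 hb2
    filter_upwards [h1] with v hv
    have h2 := ACIK_shift hAf hv
    rw [e3] at h2
    have h3 := abs_le.1 hmb1
    have h5 : C₀ ≤ s := hsC
    refine ACIK_mono h2 ?_ ?_
    · rw [hm, hAdef]
      linarith [h3.2]
    · rw [hAdef]
      linarith [h3.1]

end

end Pool.Agent.N659.HB
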