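import Pool.Agent.W792.WA.Stm6

/-!
Statements of the parts of the project HB: the Bernoulli Anderson model in high dimension with a
small change `b(-Δ)` of the kinetic energy.
-/

namespace Pool.Agent.N659.HB

open MeasureTheory Filter Pool.Agent.W792.LL Pool.Agent.W792.WA
open scoped Topology ENNReal

noncomputable section

/-- The law of `± α`, each sign with probability `1/2`. -/
def tp (α : ℝ) : Measure ℝ :=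
  (1 / 2 : ℝ≥0∞) • Measure.dirac α + (1 / 2 : ℝ≥0∞) • Measure.dirac (-α)

instance (α : ℝ) : IsProbabilityMeasure (tp α) :=
  ⟨by simp [tp, ENNReal.inv_two_add_inv_two]⟩

/-! ## A. Chaos expansion -/

/-- A sign. -/
def sg (b : Bool) : ℂ := if b then 1 else -1

/-- `(ξ T)^k ξ f` for signs `ξ` on a finite set. -/
def xk {Λ : Type} [Fintype Λ] (T : Λ → Λ → ℂ) (f : Λ → ℂ) (ξ : Λ → Bool) : ℕ → Λ → ℂ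
  | 0, y => sg (ξ y) * f y
  | (k + 1), y => sg (ξ y) * ∑ y', T y y' * xk T f ξ k y'

/-- Chaos estimates on a finite set: second moment and mean. -/
def S_CHF : Prop :=
  ∀ (Λ : Type) [Fintype Λ] [DecidableEq Λ] (T : Λ → Λ → ℂ) (M θ b κ : ℝ), 0 ≤ M → 0 ≤ b → 0 ≤ κ →
    (∀ u : Λ → ℂ, ∑ x, ‖∑ y, T x y * u y‖ ^ 2 ≤ M ^ 2 * ∑ y, ‖u y‖ ^ 2) →
    (∀ x, ∑ y, ‖T x y‖ ^ 2 ≤ θ) → (∀ y, ∑ x, ‖T x y‖ ^ 2 ≤ θ) → (∀ x y, ‖T x y‖ ≤ b) →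
    θ ≤ b * M → b ≤ M → κ ^ 2 = b * M →
    ∀ (f : Λ → ℂ) (k : ℕ), 1 ≤ k →
      (∑ ξ : Λ → Bool, ∑ y, ‖xk T f ξ k y‖ ^ 2) / 2 ^ Fintype.card Λ
        ≤ 2 * ((2 * k * κ) ^ k) ^ 2 * ∑ y, ‖f y‖ ^ 2 ∧
      ∑ y, ‖(∑ ξ : Λ → Bool, xk T f ξ k y) / 2 ^ Fintype.card Λ‖ ^ 2
        ≤ (2 * b * (2 * k * κ) ^ (k - 1)) ^ 2 * ∑ y, ‖f y‖ ^ 2

/-- The Walsh coefficients of `(ξ T)^k ξ f` at a site. -/
def gc {Λ : Type} [Fintype Λ] [DecidableEq Λ] (T : Λ → Λ → ℂ) (f : Λ → ℂ) :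
    ℕ → Λ → Finset Λ → ℂ
  | 0, y, S => if S = {y} then f y else 0
  | (k + 1), y, S => ∑ y', T y y' * gc T f k y' (symmDiff S {y})

/-- Estimates for the coefficients. -/
def S_CHC : Prop :=
  ∀ (Λ : Type) [Fintype Λ] [DecidableEq Λ] (T : Λ → Λ → ℂ) (M θ b κ : ℝ), 0 ≤ M → 0 ≤ b → 0 ≤ κ →
    (∀ u : Λ → ℂ, ∑ x, ‖∑ y, T x y * u y‖ ^ 2 ≤ M ^ 2 * ∑ y, ‖u y‖ ^ 2) →
    (∀ x, ∑ y, ‖T x y‖ ^ 2 ≤ θ) → (∀ y, ∑ x, ‖T x y‖ ^ 2 ≤ θ) → (∀ x y, ‖T x y‖ ≤ b) →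
    θ ≤ b * M → b ≤ M → κ ^ 2 = b * M →
    ∀ (f : Λ → ℂ) (k : ℕ), 1 ≤ k →
      ∑ y, ∑ S : Finset Λ, ‖gc T f k y S‖ ^ 2 ≤ 2 * ((2 * k * κ) ^ k) ^ 2 * ∑ y, ‖f y‖ ^ 2 ∧
      ∑ y, ‖gc T f k y ∅‖ ^ 2 ≤ (2 * b * (2 * k * κ) ^ (k - 1)) ^ 2 * ∑ y, ‖f y‖ ^ 2

/-- From coefficients to averages over signs. -/
def S_CHW : Prop :=
  ∀ (Λ : Type) [Fintype Λ] [DecidableEq Λ] (T : Λ → Λ → ℂ) (f : Λ → ℂ) (k : ℕ) (y : Λ),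
    (∑ ξ : Λ → Bool, ‖xk T f ξ k y‖ ^ 2) / 2 ^ Fintype.card Λ
      = ∑ S : Finset Λ, ‖gc T f k y S‖ ^ 2 ∧
    (∑ ξ : Λ → Bool, xk T f ξ k y) / 2 ^ Fintype.card Λ = gc T f k y ∅

/-- The sign of a real number. -/
def sgn1 (x : ℝ) : ℂ := if 0 < x then 1 else -1

/-- The diagonal operator of the signs. -/
def xi {d : ℕ} (v : (Fin d → ℤ) → ℝ) : l2 (Fin d → ℤ) →L[ℂ] l2 (Fin d → ℤ) :=
  dia fun x => sgn1 (v x)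

/-- `(ξ q)^k ξ`. -/
def ch {d : ℕ} (q : C(UnitAddTorus (Fin d), ℂ)) (v : (Fin d → ℤ) → ℝ) (k : ℕ) :
    l2 (Fin d → ℤ) →L[ℂ] l2 (Fin d → ℤ) := (xi v * opr q) ^ k * xi v

/-- Chaos estimates on the lattice. -/
def S_CHI : Prop :=
  ∀ (d : ℕ) (q : C(UnitAddTorus (Fin d), ℂ)) (α M θ b κ : ℝ), 0 < α → 0 ≤ b → 0 ≤ κ → ‖q‖ ≤ M →
    (∫ k, ‖q k‖ ^ 2) ≤ θ → (∫ k, ‖q k‖) ≤ b → θ ≤ b * M → b ≤ M → κ ^ 2 = b * M →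
    (∀ (k : ℕ) (u : l2 (Fin d → ℤ)) (x : Fin d → ℤ), Measurable fun v => ch q v k u x) ∧
    (∀ (k : ℕ) (u : l2 (Fin d → ℤ)), 1 ≤ k →
      ∫ v, ‖ch q v k u‖ ^ 2 ∂(Pn (tp α) (Fin d → ℤ)) ≤ 2 * ((2 * k * κ) ^ k) ^ 2 * ‖u‖ ^ 2) ∧
    (∀ (k : ℕ) (u w : l2 (Fin d → ℤ)), 1 ≤ k →
      ‖∫ v, inner ℂ w (ch q v k u) ∂(Pn (tp α) (Fin d → ℤ))‖
        ≤ 2 * b * (2 * k * κ) ^ (k - 1) * (‖w‖ * ‖u‖)) ∧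
    (∀ u w : l2 (Fin d → ℤ), ∫ v, inner ℂ w (ch q v 1 u) ∂(Pn (tp α) (Fin d → ℤ))
        = (∫ k, q k) * inner ℂ w u) ∧
    ∀ u w : l2 (Fin d → ℤ), ∫ v, inner ℂ w (ch q v 0 u) ∂(Pn (tp α) (Fin d → ℤ)) = 0

/-! ## B. The self-energy -/

/-- The self-energy of `X + V`, `V = ± α`, for a symbol `X` with `1 / X` small in `L^1`. -/
def S_SE : Prop :=
  ∀ (d n : ℕ) (α c M θ b κ : ℝ) (X : C(UnitAddTorus (Fin d), ℂ)), 0 < α → 0 < c →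
    (∀ k, (X k).im ≤ -c) → 1 ≤ n → 0 < b → 0 ≤ κ → (∀ k, ‖(α : ℂ) / X k‖ ≤ M) →
    (∫ k, ‖(α : ℂ) / X k‖ ^ 2) ≤ θ → (∫ k, ‖(α : ℂ) / X k‖) ≤ b → θ ≤ b * M → b ≤ M →
    κ ^ 2 = b * M → 16 * n * κ ≤ 1 → α / c * (2 * ((2 * n * κ) ^ n) ^ 2) ≤ b * κ →
    ∃ S : C(UnitAddTorus (Fin d), ℂ), (∀ k, (S k).im ≤ 0) ∧
      (∀ k, psi (tp α) (toC fun k => cayx (X k) 0) k = cayx (S k) 0) ∧
      ∀ k, ‖S k + α * ∫ p, (α : ℂ) / X p‖ ≤ 32 * n * α * b * κ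

/-! ## C. One level -/

/-- The transform of a law. -/
def bet (ρ : Measure ℝ) (t : ℂ) : ℂ := ∫ a, 1 / (t + (a : ℂ)) ∂ρ

/-- Estimates for a semicircle level followed by a small law. -/
def S_LV : Prop :=
  ∀ (ψ : C(UnitAddCircle, ℝ)), IsSemi ψ → ∀ (r : ℝ) (ρ' : Measure ℝ) [IsProbabilityMeasure ρ'],
    0 < r → ρ' (Set.Icc (-(r / 8)) (r / 8))ᶜ = 0 → ∀ t : ℂ, t.im < 0 →
    ‖bet ((lev ψ r).conv ρ') t‖ ≤ 2 / r ∧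
    (2 * r ≤ |t.re| → ‖bet ((lev ψ r).conv ρ') t‖ ≤ 3 / |t.re|) ∧
    (|t.re| ≤ 3 * r / 8 → -r ≤ t.im → 2 / (5 * r) ≤ (bet ((lev ψ r).conv ρ') t).im) ∧
    -t.im / (‖t‖ + 2 * r) ^ 2 ≤ (bet ((lev ψ r).conv ρ') t).im ∧
    (-t.im) * (1 + r ^ 2 / 4 * ‖bet ((lev ψ r).conv ρ') t‖ ^ 2)
      ≤ -(1 / bet ((lev ψ r).conv ρ') t).im ∧
    ∀ t' : ℂ, t'.im < 0 → ‖bet ((lev ψ r).conv ρ') t - bet ((lev ψ r).conv ρ') t'‖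
      ≤ ‖t - t'‖ / (t.im * t'.im)

/-- The effective contraction in the additive variables. -/
def S_UX : Prop :=
  ∀ (ρ : Measure ℝ) [IsProbabilityMeasure ρ] (C : ℝ) (x S : ℂ), ρ (Set.Icc (-C) C)ᶜ = 0 →
    x.im < 0 → S.im ≤ 0 → bet ρ (x + S) ≠ 0 ∧ (1 / bet ρ (x + S) - S).im < 0 ∧
      Us ρ (cayx x) (cayx S 0) = cayx (1 / bet ρ (x + S) - S) 0

/-! ## D. Density of states of the Laplacian in high dimension -/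

/-- The Bessel function `J₀(2 s)`. -/
def bes (s : ℝ) : ℝ := ∫ θ : UnitAddCircle, Real.cos (2 * s * (fourier 1 θ).re)

/-- Bounds for the Bessel function. -/
def S_BES : Prop :=
  Continuous bes ∧ (∀ s, |s| ≤ 1 → |bes s - Real.exp (-s ^ 2)| ≤ s ^ 4) ∧
  (∀ s, |s| ≤ 1 → |bes s| ≤ Real.exp (-(s ^ 2) / 2)) ∧
  (∃ q : ℝ, 0 < q ∧ q < 1 ∧ ∀ s, 1 ≤ |s| → |bes s| ≤ q) ∧
  ∃ C : ℝ, 0 < C ∧ ∀ s, |bes s| ≤ C / (1 + |s|) ^ (1 / 3 : ℝ)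

/-- Gaussian smoothing of the density of states. -/
def S_GAU : Prop :=
  ∀ (d : ℕ) (τ E : ℝ), 0 < τ →
    ((∫ k : UnitAddTorus (Fin d), Real.exp (-((lap d k - E) ^ 2) / (2 * τ ^ 2)) : ℝ) : ℂ)
      = (τ / Real.sqrt (2 * Real.pi) : ℝ) * ∫ s : ℝ, ((Real.exp (-(τ ^ 2 * s ^ 2) / 2) : ℝ) : ℂ)
          * Complex.exp (Complex.I * s * (2 * d - E)) * ((bes s ^ d : ℝ) : ℂ)

/-- The number of momenta with kinetic energy in a window. -/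
def dos (d : ℕ) (E ρ : ℝ) : ℝ := (volume {k : UnitAddTorus (Fin d) | |lap d k - E| ≤ ρ}).toReal

/-- Upper bound. -/
def S_DOSU : Prop :=
  ∃ (C : ℝ) (d₀ : ℕ), 0 < C ∧ ∀ d : ℕ, d₀ ≤ d → ∀ E ρ : ℝ, 0 < ρ →
    dos d E ρ ≤ C * ρ / Real.sqrt d

/-- Lower bound in the bulk. -/
def S_DOSL : Prop :=
  ∀ A : ℝ, 0 < A → ∃ (c : ℝ) (d₀ : ℕ), 0 < c ∧ ∀ d : ℕ, d₀ ≤ d → ∀ E ρ : ℝ,
    |E - 2 * d| ≤ A * Real.sqrt d → 0 < ρ → ρ ≤ 1 → c * ρ / Real.sqrt d ≤ dos d E ρ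

/-- The weight. -/
def wl (l x : ℝ) : ℝ := if |x| ≤ 3 * l then 2 / l else 6 / |x|

/-- Integrals of the weight. -/
def S_INT : Prop :=
  ∃ (C : ℝ) (d₀ : ℕ), 0 < C ∧ ∀ d : ℕ, d₀ ≤ d → ∀ l E : ℝ, 1 / Real.sqrt d ≤ l → l ≤ 1 → 0 ≤ E →
    E ≤ 4 * d →
    (∫ k : UnitAddTorus (Fin d), wl l (lap d k - E)) ≤ C * Real.log d / Real.sqrt d ∧
    (∫ k : UnitAddTorus (Fin d), wl l (lap d k - E) ^ 2) ≤ C / (l * Real.sqrt d)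

/-! ## E. The gap and the chain -/

/-- The gap for the first level gives absolutely continuous spectrum (any law, any kinetic
energy). -/
def S_CHK : Prop :=
  ∀ (ψ : C(UnitAddCircle, ℝ)), IsSemi ψ → ∀ (d : ℕ) (ν : Measure ℝ) [IsProbabilityMeasure ν]
    (K : C(UnitAddTorus (Fin d), ℝ)) (r σ : ℝ), 0 < d → 0 < vr ν → 0 < r → 0 < σ →
    (∀ (ρ' : Measure ℝ) [IsProbabilityMeasure ρ'], ρ' (Set.Icc (-(r / 8)) (r / 8))ᶜ = 0 →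
      ∀ z ∈ Zs d, ∀ s, IsFix ν ((lev ψ r).conv ρ') (wz K z) s → ‖s‖ ≤ 1 - σ) →
    ∃ f : C(ℝ, ℝ), IsSum ψ (2 * r) f ∧ MestK (K + gK f d) ν

/-- The scaled kinetic energy. -/
def Ks (A : ℝ) (d : ℕ) : C(UnitAddTorus (Fin d), ℝ) :=
  (2 * Real.sqrt d / A) • (lap d - ContinuousMap.const _ (2 * d - A * Real.sqrt d))

/-- The gap in high dimension. -/
def S_GAP : Prop :=
  ∀ (ψ : C(UnitAddCircle, ℝ)), IsSemi ψ → ∀ A δ : ℝ, 0 < A → 0 < δ → δ < 1 / 2 →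
    ∃ d₀ : ℕ, ∀ d : ℕ, d₀ ≤ d → ∃ σ : ℝ, 0 < σ ∧
    ∀ (ρ' : Measure ℝ) [IsProbabilityMeasure ρ'],
      ρ' (Set.Icc (-((d : ℝ) ^ δ / A / 8)) ((d : ℝ) ^ δ / A / 8))ᶜ = 0 →
      ∀ z ∈ Zs d, ∀ s, IsFix (tp (2 * Real.sqrt d / A)) ((lev ψ ((d : ℝ) ^ δ / A)).conv ρ')
        (wz (Ks A d) z) s → ‖s‖ ≤ 1 - σ

/-- The theorem: a small change of the kinetic energy of the Bernoulli model in high dimension gives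
purely absolutely continuous spectrum in the bulk of the band. -/
def S_HB : Prop :=
  ∀ A δ : ℝ, 0 < A → 0 < δ → δ < 1 / 2 → ∃ d₀ : ℕ, ∀ d : ℕ, d₀ ≤ d →
    ∃ b : C(ℝ, ℝ), (∀ t, |b t| ≤ (d : ℝ) ^ (-(1 / 2 : ℝ) + δ)) ∧
      (∃ C : ℝ, ∀ x : Fin d → ℤ,
        ‖UnitAddTorus.mFourierCoeff (fun k : UnitAddTorus (Fin d) => ((b (lap d k) : ℝ) : ℂ)) x‖
          ≤ C / (1 + ‖x‖) ^ ((d : ℝ) / 3)) ∧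
      ∀ᵐ v ∂(Pn (tp 1) (Fin d → ℤ)), ACIK (lap d + gK b d) 1 v
        (2 * d - A * Real.sqrt d) (2 * d + A * Real.sqrt d)

end

end Pool.Agent.N659.HB
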