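import Pool.Agent.N659.HB.Stm

/-!
Statements of the parts of the project HB, continued: the gap.
-/

namespace Pool.Agent.N659.HB

open MeasureTheory Filter Pool.Agent.W792.LL Pool.Agent.W792.WA
open scoped Topology ENNReal

noncomputable section

/-- The lower bound for `-Im Σ`. -/
def eta (d : ℕ) (A cA : ℝ) : ℝ := 2 * Real.sqrt d / A * (cA / (20 * Real.sqrt d))

/-- The upper bound for `|x + Σ| + 2 r`. -/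
def DD (d : ℕ) (A l b : ℝ) : ℝ :=
  2 * Real.sqrt d / A * (4 * d) + 1 + 2 * Real.sqrt d / A * (3 * b)
    + 2 * (2 * Real.sqrt d / A * l)

/-- The lower bound for `-Im X`. -/
def cX (d : ℕ) (A l b cA : ℝ) : ℝ :=
  eta d A cA ^ 3 * (2 * Real.sqrt d / A * l) ^ 2 / (4 * DD d A l b ^ 4)

/-- The numerical conditions. -/
structure NC (d n : ℕ) (A l b κ cA Λ : ℝ) : Prop where
  hd : 0 < d
  hn : 1 ≤ n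
  hA : 0 < A
  hl : 0 < l
  hl1 : l ≤ 1
  hb : 0 < b
  hκ : 0 < κ
  hc : 0 < cA
  hΛ : 0 ≤ Λ
  κ2 : κ ^ 2 = b * (4 / l)
  Ad : A ≤ 2 * Real.sqrt d
  e1 : Λ ≤ b / l
  e2 : 48 * b ≤ l
  e3 : 4 ≤ 2 * Real.sqrt d / A * l
  e4 : 16 * n * κ ≤ 1
  e5 : 32 * n * b * κ ≤ cA / (40 * Real.sqrt d)
  e6 : 6 * b * Λ ≤ cA / (40 * Real.sqrt d)
  e7 : cA / Real.sqrt d ≤ b
  e8 : 2 * Real.sqrt d / A / cX d A l b cA * (2 * ((2 * n * κ) ^ n) ^ 2) ≤ b * κ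

/-- The gap from the numerical conditions. -/
def S_GAPA : Prop :=
  ∀ (ψ : C(UnitAddCircle, ℝ)), IsSemi ψ → ∀ (d n : ℕ) (A l b κ cA Λ : ℝ), NC d n A l b κ cA Λ →
    (∀ E : ℝ, 0 ≤ E → E ≤ 4 * d → (∫ k : UnitAddTorus (Fin d), wl l (lap d k - E)) ≤ b / 2 ∧
      (∫ k : UnitAddTorus (Fin d), wl l (lap d k - E) ^ 2) ≤ Λ) →
    (∀ E : ℝ, |E - 2 * d| ≤ A * Real.sqrt d → cA * (l / 4) / Real.sqrt d ≤ dos d E (l / 4)) →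
    ∃ σ : ℝ, 0 < σ ∧ ∀ (ρ' : Measure ℝ) [IsProbabilityMeasure ρ'],
      ρ' (Set.Icc (-(2 * Real.sqrt d / A * l / 8)) (2 * Real.sqrt d / A * l / 8))ᶜ = 0 →
      ∀ z ∈ Zs d, ∀ s, IsFix (tp (2 * Real.sqrt d / A))
        ((lev ψ (2 * Real.sqrt d / A * l)).conv ρ') (wz (Ks A d) z) s → ‖s‖ ≤ 1 - σ

/-- The closed set of admissible phases. -/
def ZR (d : ℕ) (R η : ℝ) : Set C(UnitAddTorus (Fin d), ℂ) :=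
  {s | ‖s‖ ≤ 1 ∧ ∀ k, ‖s k + 1‖ ≤ R * ‖s k - 1‖ ∧ η * ‖s k - 1‖ ^ 2 ≤ 1 - ‖s k‖ ^ 2}

/-- Phases and self-energies. -/
def S_ZR : Prop :=
  ∀ (d : ℕ) (R η : ℝ), 0 < η → η ≤ R → IsClosed (ZR d R η) ∧ (ZR d R η).Nonempty ∧
    (∀ s ∈ ZR d R η, ‖s‖ ≤ 1 - 2 * η / (R + 1) ^ 2 ∧ ∃ S : C(UnitAddTorus (Fin d), ℂ),
      ∀ k, s k = cayx (S k) 0 ∧ ‖S k‖ ≤ R ∧ (S k).im ≤ -η) ∧
    ∀ (s S : C(UnitAddTorus (Fin d), ℂ)), (∀ k, s k = cayx (S k) 0 ∧ ‖S k‖ ≤ R ∧ (S k).im ≤ -η) →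
      s ∈ ZR d R η

/-- Choice of the numbers. -/
def S_ASY : Prop :=
  ∀ A δ C c : ℝ, 0 < A → 0 < δ → δ < 1 / 2 → 0 < C → 0 < c → ∃ n d₀ : ℕ, ∀ d : ℕ, d₀ ≤ d →
    1 / Real.sqrt d ≤ (d : ℝ) ^ (-(1 / 2 : ℝ) + δ) / 2 ∧
    NC d n A ((d : ℝ) ^ (-(1 / 2 : ℝ) + δ) / 2) (4 * C * Real.log d / Real.sqrt d)
      (Real.sqrt (4 * C * Real.log d / Real.sqrt d * (4 / ((d : ℝ) ^ (-(1 / 2 : ℝ) + δ) / 2))))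
      c (C / ((d : ℝ) ^ (-(1 / 2 : ℝ) + δ) / 2 * Real.sqrt d))

end

end Pool.Agent.N659.HB
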