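import Pool.Agent.N659.HB.Stm2

/-!
Statements of the parts of the project KS: general laws of the disorder, change of the kinetic
energy of the size of the self-energy up to logarithms.
-/

namespace Pool.Agent.N659.HB

open MeasureTheory Filter Pool.Agent.W792.LL Pool.Agent.W792.WA
open scoped Topology ENNReal

noncomputable section

/-! ## A. Chaos expansion for general laws -/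

/-- Norm estimates for arrays in a Hilbert space. -/
def S_CG1 : Prop :=
  ∀ (Λ : Type) [Fintype Λ] [DecidableEq Λ] (F : Type) [NormedAddCommGroup F] [InnerProductSpace ℂ F]
    (T : Λ → Λ → ℂ) (M θ b κ : ℝ), 0 ≤ M → 0 ≤ b → 0 ≤ κ →
    (∀ u : Λ → ℂ, ∑ x, ‖∑ y, T x y * u y‖ ^ 2 ≤ M ^ 2 * ∑ y, ‖u y‖ ^ 2) →
    (∀ x, ∑ y, ‖T x y‖ ^ 2 ≤ θ) → (∀ y, ∑ x, ‖T x y‖ ^ 2 ≤ θ) → (∀ x y, ‖T x y‖ ≤ b) →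
    θ ≤ b * M → b ≤ M → κ ^ 2 = b * M →
    ∀ (G : ℕ → Λ → Finset Λ → F) (f : Λ → ℝ),
      (∀ y S, S ≠ {y} → G 0 y S = 0) → (∀ y, ‖G 0 y {y}‖ ≤ f y) →
      (∀ k y S, y ∈ S → ‖G (k + 1) y S‖
        ≤ ‖∑ y', T y y' • G k y' (S.erase y)‖ + ‖∑ y', T y y' • G k y' S‖) →
      (∀ k y S, y ∉ S → ‖G (k + 1) y S‖ ≤ ‖∑ y', T y y' • G k y' (insert y S)‖) →
      ∀ k : ℕ, 1 ≤ k →
      ∑ y, ∑ S : Finset Λ, ‖G k y S‖ ^ 2 ≤ 2 * ((4 * k * κ) ^ k) ^ 2 * ∑ y, f y ^ 2 ∧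
      ∑ y, ‖G k y ∅‖ ^ 2 ≤ (2 * b * (4 * k * κ) ^ (k - 1)) ^ 2 * ∑ y, f y ^ 2

/-- `(u T)^k u f` for numbers `u` on a finite set. -/
def yk {Λ : Type} [Fintype Λ] (T : Λ → Λ → ℂ) (f : Λ → ℂ) (u : Λ → ℝ) : ℕ → Λ → ℂ
  | 0, y => (u y : ℂ) * f y
  | (k + 1), y => (u y : ℂ) * ∑ y', T y y' * yk T f u k y'

/-- Chaos estimates on a finite set, general law with mean zero. -/
def S_CG2 : Prop :=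
  ∀ (ν : Measure ℝ) [IsProbabilityMeasure ν], (∀ᵐ x ∂ν, |x| ≤ 1) → ∫ x, x ∂ν = 0 →
  ∀ (Λ : Type) [Fintype Λ] [DecidableEq Λ] (T : Λ → Λ → ℂ) (M θ b κ : ℝ), 0 ≤ M → 0 ≤ b → 0 ≤ κ →
    (∀ u : Λ → ℂ, ∑ x, ‖∑ y, T x y * u y‖ ^ 2 ≤ M ^ 2 * ∑ y, ‖u y‖ ^ 2) →
    (∀ x, ∑ y, ‖T x y‖ ^ 2 ≤ θ) → (∀ y, ∑ x, ‖T x y‖ ^ 2 ≤ θ) → (∀ x y, ‖T x y‖ ≤ b) →
    θ ≤ b * M → b ≤ M → κ ^ 2 = b * M →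
    ∀ (f : Λ → ℂ) (k : ℕ), 1 ≤ k →
      ∫ u, (∑ y, ‖yk T f u k y‖ ^ 2) ∂(Measure.pi fun _ : Λ => ν)
        ≤ 2 * ((4 * k * κ) ^ k) ^ 2 * ∑ y, ‖f y‖ ^ 2 ∧
      ∑ y, ‖∫ u, yk T f u k y ∂(Measure.pi fun _ : Λ => ν)‖ ^ 2
        ≤ (2 * b * (4 * k * κ) ^ (k - 1)) ^ 2 * ∑ y, ‖f y‖ ^ 2

/-- The potential divided by its bound. -/
def ud {d : ℕ} (α : ℝ) (v : (Fin d → ℤ) → ℝ) : l2 (Fin d → ℤ) →L[ℂ] l2 (Fin d → ℤ) :=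
  dia fun x => ((max (-1) (min 1 (v x / α)) : ℝ) : ℂ)

/-- `(u q)^k u`. -/
def cg {d : ℕ} (α : ℝ) (q : C(UnitAddTorus (Fin d), ℂ)) (v : (Fin d → ℤ) → ℝ) (k : ℕ) :
    l2 (Fin d → ℤ) →L[ℂ] l2 (Fin d → ℤ) := (ud α v * opr q) ^ k * ud α v

/-- Chaos estimates on the lattice, general law with mean zero. -/
def S_CGI : Prop :=
  ∀ (ν : Measure ℝ) [IsProbabilityMeasure ν] (d : ℕ) (q : C(UnitAddTorus (Fin d), ℂ))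
    (α M θ b κ : ℝ), 0 < α → (∀ᵐ x ∂ν, |x| ≤ α) → ∫ x, x ∂ν = 0 → 0 ≤ b → 0 ≤ κ → ‖q‖ ≤ M →
    (∫ k, ‖q k‖ ^ 2) ≤ θ → (∫ k, ‖q k‖) ≤ b → θ ≤ b * M → b ≤ M → κ ^ 2 = b * M →
    (∀ (k : ℕ) (u : l2 (Fin d → ℤ)) (x : Fin d → ℤ), Measurable fun v => cg α q v k u x) ∧
    (∀ (k : ℕ) (u : l2 (Fin d → ℤ)), 1 ≤ k →
      ∫ v, ‖cg α q v k u‖ ^ 2 ∂(Pn ν (Fin d → ℤ)) ≤ 2 * ((4 * k * κ) ^ k) ^ 2 * ‖u‖ ^ 2) ∧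
    (∀ (k : ℕ) (u w : l2 (Fin d → ℤ)), 1 ≤ k →
      ‖∫ v, inner ℂ w (cg α q v k u) ∂(Pn ν (Fin d → ℤ))‖
        ≤ 2 * b * (4 * k * κ) ^ (k - 1) * (‖w‖ * ‖u‖)) ∧
    (∀ u w : l2 (Fin d → ℤ), ∫ v, inner ℂ w (cg α q v 1 u) ∂(Pn ν (Fin d → ℤ))
        = ((∫ x, (x / α) ^ 2 ∂ν : ℝ) : ℂ) * (∫ k, q k) * inner ℂ w u) ∧
    ∀ u w : l2 (Fin d → ℤ), ∫ v, inner ℂ w (cg α q v 0 u) ∂(Pn ν (Fin d → ℤ)) = 0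

/-- The self-energy, general law with mean zero. -/
def S_SEG : Prop :=
  ∀ (ν : Measure ℝ) [IsProbabilityMeasure ν] (d n : ℕ) (α c M θ b κ : ℝ)
    (X : C(UnitAddTorus (Fin d), ℂ)), 0 < α → (∀ᵐ x ∂ν, |x| ≤ α) → ∫ x, x ∂ν = 0 → 0 < c →
    (∀ k, (X k).im ≤ -c) → 1 ≤ n → 0 < b → 0 ≤ κ → (∀ k, ‖(α : ℂ) / X k‖ ≤ M) →
    (∫ k, ‖(α : ℂ) / X k‖ ^ 2) ≤ θ → (∫ k, ‖(α : ℂ) / X k‖) ≤ b → θ ≤ b * M → b ≤ M →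
    κ ^ 2 = b * M → 64 * κ ≤ 1 → 16 * n * κ ≤ 1 →
    α / c * (2 * ((4 * n * κ) ^ n) ^ 2) ≤ b * κ →
    ∃ S : C(UnitAddTorus (Fin d), ℂ), (∀ k, (S k).im ≤ 0) ∧
      (∀ k, psi ν (toC fun k => cayx (X k) 0) k = cayx (S k) 0) ∧
      ∀ k, ‖S k + α * ((∫ x, (x / α) ^ 2 ∂ν : ℝ) : ℂ) * ∫ p, (α : ℂ) / X p‖ ≤ 50 * α * b * κ

/-! ## B. The gap, general kinetic energy -/

/-- The number of momenta with kinetic energy in a window. -/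
def dosK {d : ℕ} (K : C(UnitAddTorus (Fin d), ℝ)) (E ρ : ℝ) : ℝ :=
  (volume {k : UnitAddTorus (Fin d) | |K k - E| ≤ ρ}).toReal

/-- The lower bound for `-Im Σ`. -/
def etaG (α s₂ c₀ : ℝ) : ℝ := α * s₂ * c₀ / 360

/-- The lower bound for `-Im X`. -/
def cG (α r b s₂ c₀ D₀ : ℝ) : ℝ :=
  etaG α s₂ c₀ ^ 3 * r ^ 2 / (4 * (D₀ + 1 + 3 * α * b + 2 * r) ^ 4)

/-- The numerical conditions. -/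
structure NG (n : ℕ) (α r b κ s₂ c₀ Λ D₀ : ℝ) : Prop where
  hn : 1 ≤ n
  hα : 0 < α
  hr : 0 < r
  hb : 0 < b
  hκ : 0 < κ
  hs : 0 < s₂
  hs1 : s₂ ≤ 1
  hc : 0 < c₀
  hΛ : 0 ≤ Λ
  hD : 0 ≤ D₀
  κ2 : κ ^ 2 = b * (4 * α / r)
  e1 : 4 * Λ ≤ b * (4 * α / r)
  e2 : 48 * α * b ≤ r
  e2' : b ≤ 4 * α / r
  e3 : 64 * κ ≤ 1
  e4 : 16 * n * κ ≤ 1
  e5 : 50 * b * κ ≤ s₂ * c₀ / 720
  e6 : 6 * b * Λ ≤ c₀ / 720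
  e7 : c₀ ≤ b
  e8 : α / cG α r b s₂ c₀ D₀ * (2 * ((4 * n * κ) ^ n) ^ 2) ≤ b * κ

/-- The gap from the numerical conditions, general law and kinetic energy. -/
def S_GAPG : Prop :=
  ∀ (ψ : C(UnitAddCircle, ℝ)), IsSemi ψ → ∀ (ν : Measure ℝ) [IsProbabilityMeasure ν] (d n : ℕ)
    (K : C(UnitAddTorus (Fin d), ℝ)) (α r b κ s₂ c₀ Λ D₀ : ℝ), NG n α r b κ s₂ c₀ Λ D₀ →
    (∀ᵐ x ∂ν, |x| ≤ α) → ∫ x, x ∂ν = 0 → ∫ x, (x / α) ^ 2 ∂ν = s₂ →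
    (∀ E : ℝ, 0 ≤ E → E ≤ 4 * d → (∀ k, |K k - E| ≤ D₀) ∧
      α * (∫ k : UnitAddTorus (Fin d), wl r (K k - E)) ≤ b / 2 ∧
      α ^ 2 * (∫ k : UnitAddTorus (Fin d), wl r (K k - E) ^ 2) ≤ Λ ∧
      ∀ ρ : ℝ, r / 4 ≤ ρ → (ρ ≤ 1 ∨ ρ = r / 4) → c₀ * ρ ≤ α * dosK K E ρ) →
    ∃ σ : ℝ, 0 < σ ∧ ∀ (ρ' : Measure ℝ) [IsProbabilityMeasure ρ'],
      ρ' (Set.Icc (-(r / 8)) (r / 8))ᶜ = 0 →
      ∀ z ∈ Zs d, ∀ s, IsFix ν ((lev ψ r).conv ρ') (wz K z) s → ‖s‖ ≤ 1 - σ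

/-! ## C. Fixed dimension -/

/-- Bounded density of states. -/
def S_D3U : Prop :=
  ∀ d : ℕ, 3 ≤ d → ∃ C : ℝ, 0 < C ∧ ∀ E ρ : ℝ, 0 < ρ → dos d E ρ ≤ C * ρ

/-- Positive density of states inside the band. -/
def S_D3L : Prop :=
  ∀ (d : ℕ) (a₁ a₂ : ℝ), 0 < d → 0 < a₁ → a₂ < 4 * d → ∃ c : ℝ, 0 < c ∧ ∀ E ρ : ℝ,
    a₁ ≤ E → E ≤ a₂ → 0 < ρ → ρ ≤ 1 → c * ρ ≤ dos d E ρ

/-- Integrals of the weight in fixed dimension. -/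
def S_INT3 : Prop :=
  ∀ d : ℕ, 3 ≤ d → ∃ C : ℝ, 0 < C ∧ ∀ l E : ℝ, 0 < l → l ≤ 1 / 2 → 0 ≤ E → E ≤ 4 * d →
    (∫ k : UnitAddTorus (Fin d), wl l (lap d k - E)) ≤ C * Real.log (1 / l) ∧
    (∫ k : UnitAddTorus (Fin d), wl l (lap d k - E) ^ 2) ≤ C / l

/-- Choice of the numbers at weak disorder: `α = γ C₁ λ`, `r = γ l`, `l = λ² |log λ|⁴ / 2`. -/
def S_ASYK : Prop :=
  ∀ γ C₁ C c s₂ D₀ : ℝ, 0 < γ → 0 < C₁ → 0 < C → 0 < c → 0 < s₂ → s₂ ≤ 1 → 0 ≤ D₀ →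
    ∃ lam₀ : ℝ, 0 < lam₀ ∧ lam₀ < 1 ∧ ∀ lam : ℝ, 0 < lam → lam ≤ lam₀ → ∃ n : ℕ,
      lam ^ 2 * Real.log (1 / lam) ^ 4 / 2 ≤ 1 / 2 ∧
      NG n (γ * C₁ * lam) (γ * (lam ^ 2 * Real.log (1 / lam) ^ 4 / 2))
        (2 * C₁ * lam * C * Real.log (1 / (lam ^ 2 * Real.log (1 / lam) ^ 4 / 2)))
        (Real.sqrt (2 * C₁ * lam * C * Real.log (1 / (lam ^ 2 * Real.log (1 / lam) ^ 4 / 2))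
          * (4 * (γ * C₁ * lam) / (γ * (lam ^ 2 * Real.log (1 / lam) ^ 4 / 2)))))
        s₂ (C₁ * lam * c) ((C₁ * lam) ^ 2 * (C / (lam ^ 2 * Real.log (1 / lam) ^ 4 / 2))) D₀

/-- The theorem at weak disorder in fixed dimension `d ≥ 3`: a change of the kinetic energy of size
`λ² |log λ|⁴` gives purely absolutely continuous spectrum inside the band. -/
def S_KS : Prop :=
  ∀ (d : ℕ), 3 ≤ d → ∃ Cd : ℝ, 0 < Cd ∧ ∀ (ν : Measure ℝ) [IsProbabilityMeasure ν] (C₀ a₁ a₂ : ℝ),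
    (∀ᵐ x ∂ν, |x| ≤ C₀) → (∀ a : ℝ, ν {a} < 1) → 0 < a₁ → a₁ < a₂ → a₂ < 4 * d →
    ∃ lam₀ : ℝ, 0 < lam₀ ∧ lam₀ < 1 ∧ ∀ lam : ℝ, 0 < lam → lam ≤ lam₀ →
      ∃ b : C(ℝ, ℝ), (∀ t, |b t| ≤ lam ^ 2 * Real.log (1 / lam) ^ 4) ∧
      (∀ x : Fin d → ℤ,
        ‖UnitAddTorus.mFourierCoeff (fun k : UnitAddTorus (Fin d) => ((b (lap d k) : ℝ) : ℂ)) x‖
          ≤ Cd * (lam ^ 2 * Real.log (1 / lam) ^ 4) / (1 + ‖x‖) ^ ((d : ℝ) / 3)) ∧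
      ∀ᵐ v ∂(Pn ν (Fin d → ℤ)), ACIK (lap d + gK b d) lam v a₁ a₂

/-! ## D. High dimension, fair signs -/

/-- Choice of the numbers in high dimension: `α = 2 √d / A`, `l = (log d)⁴ / (2 √d)`, `r = α l`. -/
def S_ASYH : Prop :=
  ∀ A C c : ℝ, 0 < A → 0 < C → 0 < c → ∃ d₀ : ℕ, ∀ d : ℕ, d₀ ≤ d → ∃ n : ℕ,
    1 / Real.sqrt d ≤ Real.log d ^ 4 / (2 * Real.sqrt d) ∧
    Real.log d ^ 4 / (2 * Real.sqrt d) ≤ 1 ∧ 4 ≤ Real.log d ^ 4 / A ∧ A ≤ 2 * Real.sqrt d ∧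
    NG n (2 * Real.sqrt d / A) (Real.log d ^ 4 / A) (2 * C * Real.log d / Real.sqrt d)
      (Real.sqrt (2 * C * Real.log d / Real.sqrt d
        * (4 * (2 * Real.sqrt d / A) / (Real.log d ^ 4 / A))))
      1 (c / Real.sqrt d) (C / (Real.log d ^ 4 / (2 * Real.sqrt d) * Real.sqrt d))
      (2 * Real.sqrt d / A * (4 * d))

/-- The theorem in high dimension. -/
def S_HBL : Prop :=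
  ∀ A : ℝ, 0 < A → ∃ d₀ : ℕ, ∀ d : ℕ, d₀ ≤ d →
    ∃ b : C(ℝ, ℝ), (∀ t, |b t| ≤ Real.log d ^ 4 / Real.sqrt d) ∧
      (∃ C : ℝ, ∀ x : Fin d → ℤ,
        ‖UnitAddTorus.mFourierCoeff (fun k : UnitAddTorus (Fin d) => ((b (lap d k) : ℝ) : ℂ)) x‖
          ≤ C / (1 + ‖x‖) ^ ((d : ℝ) / 3)) ∧
      ∀ᵐ v ∂(Pn (tp 1) (Fin d → ℤ)), ACIK (lap d + gK b d) 1 v
        (2 * d - A * Real.sqrt d) (2 * d + A * Real.sqrt d)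

end

end Pool.Agent.N659.HB
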