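import Pool.Agent.N659.HB.Stm5
import Mathlib.Probability.Distributions.Cauchy

/-!
Statements of the parts of the project LD: every disorder strength, laws with a small Cauchy
component.
-/

namespace Pool.Agent.N659.HB

open MeasureTheory Filter Pool.Agent.W792.LL Pool.Agent.W792.WA
open scoped Topology ENNReal

noncomputable section

/-- The law of `w + δ ξ`, `w` with law `μ`, `ξ` an independent standard Cauchy variable. -/
def cyl (μ : Measure ℝ) (δ : ℝ) : Measure ℝ :=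
  (μ.prod (ProbabilityTheory.cauchyMeasure 0 1)).map fun p : ℝ × ℝ => p.1 + δ * p.2

instance (μ : Measure ℝ) [IsProbabilityMeasure μ] (δ : ℝ) : IsProbabilityMeasure (cyl μ δ) := by
  unfold cyl
  exact Measure.isProbabilityMeasure_map (by fun_prop)

/-- Powers of the Cayley transform of a Cauchy variable. -/
def S_CPOW : Prop :=
  ∀ (w δ : ℝ) (n : ℕ), 0 < δ → ∫ a, cay (w + δ * a) ^ n ∂(ProbabilityTheory.cauchyMeasure 0 1)
    = (((w : ℂ) - δ * Complex.I + Complex.I) / ((w : ℂ) - δ * Complex.I - Complex.I)) ^ n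

/-- The effective phase of a law with a Cauchy component. -/
def S_PSIC : Prop :=
  ∀ (μ : Measure ℝ) [IsProbabilityMeasure μ] (W δ : ℝ), 0 < δ → 0 ≤ W →
    μ (Set.Icc (-W) W)ᶜ = 0 → ∀ (d : ℕ) (m : C(UnitAddTorus (Fin d), ℂ)), ‖m‖ < 1 →
      ‖psi (cyl μ δ) m‖ ≤ Real.sqrt (1 - 4 * δ / (W ^ 2 + (1 + δ) ^ 2))

/-- The gap for laws close to a law whose effective phases are uniformly contracting. -/
def S_GAPL : Prop :=
  ∀ (X : MX) (q : ℝ), 0 ≤ q → q < 1 →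
    (∀ (d : ℕ) (m : C(UnitAddTorus (Fin d), ℂ)), ‖m‖ < 1 → ‖psi (qlaw X) m‖ ≤ q) →
    ∀ (ρ : Measure ℝ) [IsProbabilityMeasure ρ] (C D : ℝ), ρ (Set.Icc (-C) C)ᶜ = 0 →
      (∀ a b : ℝ, ρ {a, b} < 1) → ∃ τ : ℝ, 0 < τ ∧ ∀ X' : MX, cd X X' ≤ τ ^ 2 →
        0 < vr (qlaw X') → ∀ (d : ℕ) (K : C(UnitAddTorus (Fin d), ℝ)) (z : ℂ),
        ‖K‖ + ‖z‖ ≤ D → 0 < z.im → ∀ s, IsFix (qlaw X') ρ (wz K z) s → ‖s‖ ≤ 1 - (1 - q) / 2

/-- Folding of the tails. -/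
def fold (R v : ℝ) : ℝ := if |v| ≤ R then v else R ^ 2 / v

/-- Folding is close to the identity. -/
def S_FOLD : Prop :=
  ∀ (μ : Measure ℝ) [IsProbabilityMeasure μ] (δ : ℝ), 0 < δ →
    (∀ R : ℝ, 0 < R → Measurable (fold R) ∧ (∀ v, |fold R v| ≤ R)) ∧
    (∀ (c R : ℝ) (v : ℝ), 0 < c → 0 < R → c * fold R v = fold (c * R) (c * v)) ∧
    (∀ c : ℝ, 0 < c → (cyl μ δ).map (fun x => c * x) = cyl (μ.map fun x => c * x) (c * δ)) ∧
    Tendsto (fun R : ℝ => cyl μ δ {v | R < |v|}) atTop (𝓝 0) ∧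
    ∃ X : MX, qlaw X = cyl μ δ ∧ ∀ R : ℝ, 0 < R → ∃ X' : MX,
      qlaw X' = (cyl μ δ).map (fold R) ∧ cd X X' ≤ 4 * (cyl μ δ {v | R < |v|}).toReal

/-- The folded law has a bounded density. -/
def S_BDR : Prop :=
  ∀ (μ : Measure ℝ) [IsProbabilityMeasure μ] (W δ R : ℝ), 0 < δ → 0 ≤ W →
    μ (Set.Icc (-W) W)ᶜ = 0 → 0 < R → ∃ B : ℝ, 0 < B ∧ ∀ A : Set ℝ, MeasurableSet A →
      (cyl μ δ).map (fold R) A ≤ ENNReal.ofReal B * volume A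

/-- The uniform law. -/
def unif (c : ℝ) : Measure ℝ := ENNReal.ofReal (1 / (2 * c)) • volume.restrict (Set.Icc (-c) c)

/-- A small Cauchy component changes the uniform law little in total variation. -/
def S_TVU : Prop :=
  ∀ c ε : ℝ, 0 < c → 0 < ε → ∃ δ₀ : ℝ, 0 < δ₀ ∧ ∀ δ : ℝ, 0 < δ → δ ≤ δ₀ →
    ∀ A : Set ℝ, MeasurableSet A →
      |(cyl (unif c) δ A).toReal - (unif c A).toReal| ≤ ε

/-- The theorem at every disorder strength, laws with a small Cauchy component, folded. -/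
def S_LD : Prop :=
  ∀ (μ : Measure ℝ) [IsProbabilityMeasure μ] (W δ : ℝ), 0 < δ → 0 ≤ W →
    μ (Set.Icc (-W) W)ᶜ = 0 → ∀ (d : ℕ) (a b ε : ℝ), 0 < d → a < b → 0 < ε →
    ∃ R₀ : ℝ, 0 < R₀ ∧ ∀ R : ℝ, R₀ ≤ R → ∃ f : C(ℝ, ℝ), (∀ t, |f t| ≤ ε) ∧
      (∀ x : Fin d → ℤ,
        ‖UnitAddTorus.mFourierCoeff (fun k : UnitAddTorus (Fin d) => ((f (lap d k) : ℝ) : ℂ)) x‖
          ≤ ε / (1 + ‖x‖) ^ ((d : ℝ) / 3)) ∧
      ∀ (ν : Measure ℝ) [IsProbabilityMeasure ν], ν = (cyl μ δ).map (fold R) →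
        ∀ᵐ v ∂(Pn ν (Fin d → ℤ)), ACIK (lap d + gK f d) 1 v a b

end

end Pool.Agent.N659.HB
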